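import Pool.Agent.Lib.MP_72f7ea_co.Facts

set_option autoImplicit false
set_option linter.all false

namespace Pool.MP_72f7ea_co.Idp

open Finset

variable {V : Type} [Fintype V] [DecidableEq V] {G : SimpleGraph V}

omit [Fintype V] [DecidableEq V] in
lemma OddCyc.adj_nxt {m : ℕ} {f : ℕ → V} (hf : OddCyc G m f) {i : ℕ} (hi : i ≤ 2 * m) :
    G.Adj (f i) (f (nxt m i)) := by
  unfold nxt
  split_ifs with h
  · subst h; exact hf.clo
  · exact hf.adj i (by omega)

omit [Fintype V] [DecidableEq V] in
lemma Hole.adj_cases {m : ℕ} {f : ℕ → V} (hf : Hole G m f) {i j : ℕ} (hi : i ≤ 2 * m)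
    (hj : j ≤ 2 * m) (h : G.Adj (f i) (f j)) : j = nxt m i ∨ i = nxt m j := by
  have hm := hf.two
  rcases lt_trichotomy i j with hlt | heq | hgt
  · rcases hf.ind i j hlt hj h with h1 | ⟨h1, h2⟩
    · left; unfold nxt; rw [if_neg (by omega)]; exact h1
    · right; unfold nxt; rw [if_pos h2]; exact h1
  · subst heq; exact absurd h (G.irrefl)
  · rcases hf.ind j i hgt hi h.symm with h1 | ⟨h1, h2⟩
    · right; unfold nxt; rw [if_neg (by omega)]; exact h1
    · left; unfold nxt; rw [if_pos h2]; exact h1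

lemma nxt_le {m i : ℕ} (hi : i ≤ 2 * m) : nxt m i ≤ 2 * m := by
  unfold nxt; split_ifs <;> omega

lemma nxt_spec (m i : ℕ) : (i = 2 * m ∧ nxt m i = 0) ∨ (i ≠ 2 * m ∧ nxt m i = i + 1) := by
  unfold nxt; split_ifs with h
  · exact Or.inl ⟨h, rfl⟩
  · exact Or.inr ⟨h, rfl⟩

/-- the previous position -/
def prv (m i : ℕ) : ℕ := if i = 0 then 2 * m else i - 1

omit [Fintype V] [DecidableEq V] in
/-- two different vertices attached at the same place are adjacent -/
lemma att_adj (hc : ClawFree G) {m : ℕ} {f : ℕ → V} (hf : Hole G m f) {i : ℕ} (hi : i ≤ 2 * m)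
    {y y' : V} (h : Att G m f i y) (h' : Att G m f i y') (hne : y ≠ y') : G.Adj y y' := by
  have hm := hf.two
  have hp : prv m i ≤ 2 * m := by unfold prv; split_ifs <;> omega
  have hpn : nxt m (prv m i) = i := by unfold prv nxt; split_ifs <;> omega
  have h1 : G.Adj (f i) y := ((h.adj i hi).2 (Or.inl rfl)).symm
  have h2 : G.Adj (f i) y' := ((h'.adj i hi).2 (Or.inl rfl)).symm
  have h3 : G.Adj (f i) (f (prv m i)) := by
    have := hf.toOddCyc.adj_nxt hp
    rw [hpn] at this; exact this.symm
  have hnn : ¬ (prv m i = i ∨ prv m i = nxt m i) := by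
    unfold prv nxt; split_ifs <;> omega
  rcases hc (f i) y y' (f (prv m i)) h1 h2 h3 hne (h.out _ hp) (h'.out _ hp) with h4 | h4 | h4
  · exact h4
  · exact absurd ((h.adj _ hp).1 h4) hnn
  · exact absurd ((h'.adj _ hp).1 h4) hnn

/-- the clique at the junction `i` -/
noncomputable def W (G : SimpleGraph V) (m : ℕ) (f : ℕ → V) (i : ℕ) : Finset V := by
  classical exact univ.filter (fun y => y = f i ∨ y = f (nxt m i) ∨ Att G m f i y)


lemma mem_W {m : ℕ} {f : ℕ → V} {i : ℕ} {y : V} :
    y ∈ W G m f i ↔ y = f i ∨ y = f (nxt m i) ∨ Att G m f i y := by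
  classical
  simp [W]


lemma W_clique (hc : ClawFree G) {m : ℕ} {f : ℕ → V} (hf : Hole G m f) {i : ℕ} (hi : i ≤ 2 * m) :
    G.IsClique (W G m f i : Set V) := by
  intro x hx y hy hne
  rw [mem_coe, mem_W] at hx hy
  have h0 := hf.toOddCyc.adj_nxt hi
  rcases hx with rfl | rfl | hx <;> rcases hy with rfl | rfl | hy
  · exact absurd rfl hne
  · exact h0
  · exact ((hy.adj i hi).2 (Or.inl rfl)).symm
  · exact h0.symm
  · exact absurd rfl hne
  · exact ((hy.adj _ (nxt_le hi)).2 (Or.inr rfl)).symm
  · exact (hx.adj i hi).2 (Or.inl rfl)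
  · exact (hx.adj _ (nxt_le hi)).2 (Or.inr rfl)
  · exact att_adj hc hf hi hx hy hne

/-- closed neighbourhood of `f 0` -/
lemma nbhd (hc : ClawFree G) (hP : HP G) {m : ℕ} {f : ℕ → V} (hf : Hole G m f) {y : V}
    (h : y = f 0 ∨ G.Adj (f 0) y) : y ∈ W G m f 0 ∨ y ∈ W G m f (2 * m) := by
  have hm := hf.two
  rw [mem_W, mem_W]
  rcases h with h | h
  · exact Or.inl (Or.inl h)
  by_cases hz : ∃ j ≤ 2 * m, y = f j
  · obtain ⟨j, hj, rfl⟩ := hz
    rcases hf.adj_cases (Nat.zero_le _) hj h with h1 | h1
    · left; right; left; rw [h1]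
    · have : j = 2 * m := by
        unfold nxt at h1; split_ifs at h1 with h2
        exact h2
      right; left; rw [this]
  · push Not at hz
    obtain ⟨i, hi, hat⟩ := factA hc hP hf hz ⟨0, Nat.zero_le _, h.symm⟩
    rcases (hat.adj 0 (Nat.zero_le _)).1 h.symm with h1 | h1
    · subst h1; exact Or.inl (Or.inr (Or.inr hat))
    · have : i = 2 * m := by
        unfold nxt at h1; split_ifs at h1 with h2
        exact h2
      subst this; exact Or.inr (Or.inr (Or.inr hat))

/-- the relation used for the components outside the hole -/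
def Rel (G : SimpleGraph V) (m : ℕ) (f : ℕ → V) (A B : Finset V) (u v : V) : Prop :=
  G.Adj u v ∧ (v ∈ A ∨ v ∈ B) ∧ ∀ l ≤ 2 * m, v ≠ f l

/-- chains in the part outside the hole between two attached vertices -/
structure Chain (G : SimpleGraph V) (m : ℕ) (f : ℕ → V) (A B : Finset V) (L : ℕ)
    (x : ℕ → V) : Prop where
  s : x 0 ∈ B
  sa : ∃ i ≤ 2 * m, Att G m f i (x 0)
  t : x L ∈ B
  ta : ∃ i ≤ 2 * m, Att G m f i (x L)
  ne : x 0 ≠ x L
  adj : ∀ i < L, G.Adj (x i) (x (i + 1))
  mem : ∀ i ≤ L, (x i ∈ A ∨ x i ∈ B) ∧ ∀ l ≤ 2 * m, x i ≠ f l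

lemma NR (hc : ClawFree G) (hP : HP G) {m : ℕ} {f : ℕ → V} (hf : Hole G m f)
    {A B : Finset V} (hA : G.IsIndepSet (A : Set V)) (hB : G.IsIndepSet (B : Set V))
    (hAn : ∀ y ∈ A, ∀ c ≤ 2 * m, ¬ Att G m f c y) {y y' : V} (hy : y ∈ B) (hy' : y' ∈ B)
    {i j : ℕ} (hi : i ≤ 2 * m) (hj : j ≤ 2 * m) (hyi : Att G m f i y) (hyj : Att G m f j y')
    (hcon : Relation.ReflTransGen (Rel G m f A B) y y') : y = y' := by
  classical
  by_contra hne
  have hex : ∃ L, ∃ x : ℕ → V, Chain G m f A B L x := by
    -- from the relation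
    have key : ∀ v, Relation.ReflTransGen (Rel G m f A B) y v → ∃ L, ∃ x : ℕ → V, x 0 = y ∧
        x L = v ∧ (∀ i < L, G.Adj (x i) (x (i + 1))) ∧
        ∀ i ≤ L, (x i ∈ A ∨ x i ∈ B) ∧ ∀ l ≤ 2 * m, x i ≠ f l := by
      intro v hv
      induction hv with
      | refl =>
        refine ⟨0, fun _ => y, rfl, rfl, by intro i hi; omega, ?_⟩
        intro i _
        exact ⟨Or.inr hy, hyi.out⟩
      | @tail b c _ hbc ih =>
        obtain ⟨L, x, h0, hL, hadj, hmem⟩ := ih
        refine ⟨L + 1, fun i => if i ≤ L then x i else c, ?_, ?_, ?_, ?_⟩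
        · simp [h0]
        · simp
        · intro i hi
          by_cases h : i + 1 ≤ L
          · have h' : i ≤ L := by omega
            simp only [h, h', if_true]
            exact hadj i (by omega)
          · have h' : i = L := by omega
            subst h'
            simp only [le_refl, if_true, h, if_false]
            rw [hL]; exact hbc.1
        · intro i hi
          by_cases h : i ≤ L
          · simp only [h, if_true]; exact hmem i h
          · simp only [h, if_false]; exact ⟨hbc.2.1, hbc.2.2⟩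
    obtain ⟨L, x, h0, hL, hadj, hmem⟩ := key y' hcon
    exact ⟨L, x, ⟨by rw [h0]; exact hy, ⟨i, hi, by rw [h0]; exact hyi⟩, by rw [hL]; exact hy',
      ⟨j, hj, by rw [hL]; exact hyj⟩, by rw [h0, hL]; exact hne, hadj, hmem⟩⟩
  obtain ⟨x, hx⟩ := Nat.find_spec hex
  set L := Nat.find hex with hLdef
  have hmin : ∀ L' < L, ∀ x' : ℕ → V, ¬ Chain G m f A B L' x' := by
    intro L' hL' x' hx'
    exact Nat.find_min hex hL' ⟨x', hx'⟩
  -- injectivity and no chords: shortcut
  have shortcut : ∀ i j, i < j → j ≤ L → (x i = x j ∨ (i + 1 < j ∧ G.Adj (x i) (x j))) → False := by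
    intro i j hij hjL hor
    rcases hor with heq | ⟨h1, hadj⟩
    · -- remove `(i, j]`
      refine hmin (L - (j - i)) (by omega) (fun t => if t ≤ i then x t else x (t + (j - i))) ?_
      have hlast : (if L - (j - i) ≤ i then x (L - (j - i)) else x (L - (j - i) + (j - i))) = x L := by
        by_cases h : L - (j - i) ≤ i
        · have : j = L := by omega
          simp only [h, if_true]
          have h2 : L - (j - i) = i := by omega
          rw [h2, heq, this]
        · simp only [h, if_false]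
          congr 1; omega
      refine ⟨?_, ?_, ?_, ?_, ?_, ?_, ?_⟩
      · simpa using hx.s
      · simpa using hx.sa
      · rw [hlast]; exact hx.t
      · rw [hlast]; exact hx.ta
      · rw [hlast]; simpa using hx.ne
      · intro t ht
        by_cases h : t + 1 ≤ i
        · have h' : t ≤ i := by omega
          simp only [h, h', if_true]; exact hx.adj t (by omega)
        · by_cases h' : t ≤ i
          · have h2 : t = i := by omega
            subst h2
            simp only [le_refl, if_true, h, if_false]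
            rw [heq]
            have := hx.adj j (by omega)
            convert this using 2
            omega
          · simp only [h', h, if_false]
            have := hx.adj (t + (j - i)) (by omega)
            convert this using 2
            omega
      · intro t ht
        by_cases h : t ≤ i
        · simp only [h, if_true]; exact hx.mem t (by omega)
        · simp only [h, if_false]; exact hx.mem _ (by omega)
    · refine hmin (L - (j - i - 1)) (by omega)
        (fun t => if t ≤ i then x t else x (t + (j - i - 1))) ?_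
      have hlast : (if L - (j - i - 1) ≤ i then x (L - (j - i - 1))
          else x (L - (j - i - 1) + (j - i - 1))) = x L := by
        have h : ¬ L - (j - i - 1) ≤ i := by omega
        simp only [h, if_false]
        congr 1; omega
      refine ⟨?_, ?_, ?_, ?_, ?_, ?_, ?_⟩
      · simpa using hx.s
      · simpa using hx.sa
      · rw [hlast]; exact hx.t
      · rw [hlast]; exact hx.ta
      · rw [hlast]; simpa using hx.ne
      · intro t ht
        by_cases h : t + 1 ≤ i
        · have h' : t ≤ i := by omega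
          simp only [h, h', if_true]; exact hx.adj t (by omega)
        · by_cases h' : t ≤ i
          · have h2 : t = i := by omega
            subst h2
            simp only [le_refl, if_true, h, if_false]
            convert hadj using 2
            omega
          · simp only [h', h, if_false]
            have := hx.adj (t + (j - i - 1)) (by omega)
            convert this using 2
            omega
      · intro t ht
        by_cases h : t ≤ i
        · simp only [h, if_true]; exact hx.mem t (by omega)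
        · simp only [h, if_false]; exact hx.mem _ (by omega)
  have hinj : ∀ i ≤ L, ∀ j ≤ L, x i = x j → i = j := by
    intro i hi j hj h
    rcases lt_trichotomy i j with hlt | heq | hgt
    · exact (shortcut i j hlt hj (Or.inl h)).elim
    · exact heq
    · exact (shortcut j i hgt hi (Or.inl h.symm)).elim
  have hind : IndPath G L x := by
    refine ⟨hinj, ?_⟩
    intro i j hij hj
    constructor
    · intro h
      by_contra hne
      exact shortcut i j hij hj (Or.inr ⟨by omega, h⟩)
    · intro h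
      subst h
      exact hx.adj i (by omega)
  -- attached vertices only at the ends
  have hint : ∀ t, 0 < t → t < L → ∀ c ≤ 2 * m, ¬ Att G m f c (x t) := by
    intro t ht htL c hcm hat
    have hB' : x t ∈ B := by
      rcases (hx.mem t htL.le).1 with h | h
      · exact absurd hat (hAn _ h c hcm)
      · exact h
    refine hmin t htL x ⟨hx.s, hx.sa, hB', ⟨c, hcm, hat⟩, ?_, ?_, ?_⟩
    · intro h
      have := hinj 0 (Nat.zero_le _) t htL.le h
      omega
    · intro i hi; exact hx.adj i (by omega)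
    · intro i hi; exact hx.mem i (by omega)
  -- alternation
  have halt : ∀ t ≤ L, (Even t → x t ∈ B) ∧ (¬ Even t → x t ∈ A) := by
    intro t
    induction t with
    | zero => intro _; exact ⟨fun _ => hx.s, fun h => absurd (by simp) h⟩
    | succ t ih =>
      intro ht
      have ih' := ih (by omega)
      have hadj := hx.adj t (by omega)
      have hne' : x t ≠ x (t + 1) := hadj.ne
      constructor
      · intro he
        have ho : ¬ Even t := by
          rw [Nat.even_add_one] at he; exact he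
        have hA' := ih'.2 ho
        rcases (hx.mem (t + 1) ht).1 with h | h
        · exact absurd hadj (hA hA' h hne')
        · exact h
      · intro he
        have ho : Even t := by
          rw [Nat.even_add_one] at he; exact not_not.1 he
        have hB' := ih'.1 ho
        rcases (hx.mem (t + 1) ht).1 with h | h
        · exact h
        · exact absurd hadj (hB hB' h hne')
  obtain ⟨c, hcm, hat⟩ := hx.ta
  obtain ⟨c0, hcm0, hat0⟩ := hx.sa
  have hLe : Even L := by
    by_contra hne'
    exact hAn _ ((halt L le_rfl).2 hne') c hcm hat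
  obtain ⟨s, hs⟩ := hLe
  have hs2 : L = 2 * s := by omega
  have hs1 : 1 ≤ s := by
    by_contra h
    have : L = 0 := by omega
    apply hx.ne; rw [this]
  have hcc : c0 ≠ c := by
    intro h
    subst h
    exact hB hx.s hx.t hx.ne (att_adj hc hf hcm hat0 hat hx.ne)
  have hout : ∀ t ≤ L, ∀ j ≤ 2 * m, x t ≠ f j := fun t ht => (hx.mem t ht).2
  rw [hs2] at hind hat hout hint
  refine factB hP hf hs1 hind hout hcm0 hcm hcc hat0 hat ?_
  intro t ht htL l hl hadj
  obtain ⟨c', hc', hat'⟩ := factA hc hP hf (hout t htL.le) ⟨l, hl, hadj⟩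
  exact hint t ht htL c' hc' hat'

lemma att_unique {m : ℕ} {f : ℕ → V} (hm : 2 ≤ m) {i j : ℕ} (hi : i ≤ 2 * m)
    (hj : j ≤ 2 * m) {y : V} (h : Att G m f i y) (h' : Att G m f j y) : i = j := by
  have h1 := (h'.adj i hi).1 ((h.adj i hi).2 (Or.inl rfl))
  have h2 := (h'.adj _ (nxt_le hi)).1 ((h.adj _ (nxt_le hi)).2 (Or.inr rfl))
  rcases nxt_spec m i with ⟨e1, e2⟩ | ⟨e1, e2⟩ <;> rcases nxt_spec m j with ⟨e3, e4⟩ | ⟨e3, e4⟩ <;>
    rw [e2] at h2 <;> rw [e4] at h1 h2 <;> omega

/-- a closed set around the run `f i, ..., f j` -/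
lemma run_closed (hc : ClawFree G) (hP : HP G) {m : ℕ} {f : ℕ → V} (hf : Hole G m f)
    {A B : Finset V} (hA : G.IsIndepSet (A : Set V)) (hB : G.IsIndepSet (B : Set V))
    (hAn : ∀ y ∈ A, ∀ c ≤ 2 * m, ¬ Att G m f c y) {i j : ℕ} (hi : 1 ≤ i) (hij : i ≤ j)
    (hj : j ≤ 2 * m) (h1 : f (i - 1) ∉ A) (h1' : f (i - 1) ∉ B) (h2 : f (nxt m j) ∉ A)
    (h2' : f (nxt m j) ∉ B) (hmid : ∀ c, i ≤ c → c < j → f c ∈ B ∨ f (c + 1) ∈ B) :
    ∃ K : Finset V, (∀ l ≤ 2 * m, f l ∈ K ↔ (i ≤ l ∧ l ≤ j)) ∧
      (∀ u ∈ K, ∀ v, v ∉ K → (u ∈ A ∨ u ∈ B) → (v ∈ A ∨ v ∈ B) → ¬ G.Adj u v) ∧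
      (∀ x ∈ K, x ∈ B → ∀ c ≤ 2 * m, Att G m f c x → c = i - 1 ∨ c = j) := by
  classical
  have hm := hf.two
  let D : V → Prop := fun x => ∃ y ∈ B, (Att G m f (i - 1) y ∨ Att G m f j y) ∧
    Relation.ReflTransGen (Rel G m f A B) y x
  have hDout : ∀ x, D x → ∀ l ≤ 2 * m, x ≠ f l := by
    rintro x ⟨y, _, hy, hyx⟩ l hl
    rcases Relation.ReflTransGen.cases_tail hyx with h | ⟨c, _, h⟩
    · subst h
      rcases hy with hy | hy
      · exact hy.out l hl
      · exact hy.out l hl
    · exact h.2.2 l hl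
  have hDatt : ∀ x, D x → x ∈ B → ∀ c ≤ 2 * m, Att G m f c x → c = i - 1 ∨ c = j := by
    rintro x ⟨y, hyB, hy, hyx⟩ hx c hcm hat
    rcases hy with hy | hy
    · have := NR hc hP hf hA hB hAn hyB hx (by omega) hcm hy hat hyx
      subst this
      exact Or.inl (att_unique hm hcm (by omega) hat hy)
    · have := NR hc hP hf hA hB hAn hyB hx (by omega) hcm hy hat hyx
      subst this
      exact Or.inr (att_unique hm hcm (by omega) hat hy)
  refine ⟨univ.filter (fun x => (∃ l, i ≤ l ∧ l ≤ j ∧ x = f l) ∨ D x), ?_, ?_, ?_⟩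
  · intro l hl
    simp only [mem_filter, mem_univ, true_and]
    constructor
    · rintro (⟨l', h3, h4, h5⟩ | h)
      · have := hf.inj l hl l' (by omega) h5
        omega
      · exact absurd rfl (hDout _ h l hl)
    · intro h; exact Or.inl ⟨l, h.1, h.2, rfl⟩
  · intro u hu v hv huAB hvAB hadj
    simp only [mem_filter, mem_univ, true_and] at hu hv
    push Not at hv
    obtain ⟨hv1, hv2⟩ := hv
    by_cases hvZ : ∃ l' ≤ 2 * m, v = f l'
    · obtain ⟨l', hl', rfl⟩ := hvZ
      have hl'n : ¬ (i ≤ l' ∧ l' ≤ j) := fun h => hv1 l' h.1 h.2 rfl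
      have hne1 : l' ≠ i - 1 := by
        rintro rfl
        rcases hvAB with h | h
        · exact h1 h
        · exact h1' h
      have hne2 : l' ≠ nxt m j := by
        rintro rfl
        rcases hvAB with h | h
        · exact h2 h
        · exact h2' h
      rcases hu with ⟨l, h3, h4, rfl⟩ | hD
      · rcases hf.adj_cases (by omega) hl' hadj with h | h
        · unfold nxt at h hne2
          split_ifs at h hne2 <;> omega
        · unfold nxt at h hne2
          split_ifs at h hne2 <;> omega
      · obtain ⟨c, hcm, hat⟩ := factA hc hP hf (hDout u hD) ⟨l', hl', hadj⟩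
        have huB : u ∈ B := by
          rcases huAB with h | h
          · exact absurd hat (hAn _ h c hcm)
          · exact h
        have h3 := hDatt u hD huB c hcm hat
        have h4 := (hat.adj l' hl').1 hadj
        unfold nxt at h4 hne2
        split_ifs at h4 hne2 <;> omega
    · push Not at hvZ
      rcases hu with ⟨l, h3, h4, rfl⟩ | hD
      · obtain ⟨c, hcm, hat⟩ := factA hc hP hf hvZ ⟨l, by omega, hadj.symm⟩
        have hvB : v ∈ B := by
          rcases hvAB with h | h
          · exact absurd hat (hAn _ h c hcm)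
          · exact h
        have h5 := (hat.adj l (by omega)).1 hadj.symm
        have hcc : ¬ (i ≤ c ∧ c < j) := by
          rintro ⟨h6, h7⟩
          rcases hmid c h6 h7 with h | h
          · have h8 := (hat.adj c hcm).2 (Or.inl rfl)
            exact hB hvB h h8.ne h8
          · have h8 := (hat.adj (c + 1) (by omega)).2 (Or.inr (by unfold nxt; rw [if_neg (by omega)]))
            exact hB hvB h h8.ne h8
        have hce : c = i - 1 ∨ c = j := by
          unfold nxt at h5
          split_ifs at h5 <;> omega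
        apply hv2
        rcases hce with rfl | rfl
        · exact ⟨v, hvB, Or.inl hat, Relation.ReflTransGen.refl⟩
        · exact ⟨v, hvB, Or.inr hat, Relation.ReflTransGen.refl⟩
      · apply hv2
        obtain ⟨y, hyB, hy, hyx⟩ := hD
        exact ⟨y, hyB, hy, hyx.tail ⟨hadj, hvAB, hvZ⟩⟩
  · intro x hx hxB c hcm hat
    simp only [mem_filter, mem_univ, true_and] at hx
    rcases hx with ⟨l, h3, h4, rfl⟩ | hD
    · exact absurd rfl (hat.out l (by omega))
    · exact hDatt x hD hxB c hcm hat

/-- swap of the colours `a`, `b` on `K` -/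
def swp {n : ℕ} (S : Fin n → Finset V) (a b : Fin n) (K : Finset V) : Fin n → Finset V :=
  fun i => (S i \ K) ∪ (S (Equiv.swap a b i) ∩ K)

lemma mem_swp {n : ℕ} {S : Fin n → Finset V} {a b : Fin n} {K : Finset V} {i : Fin n} {v : V} :
    v ∈ swp S a b K i ↔ (v ∈ S i ∧ v ∉ K) ∨ (v ∈ S (Equiv.swap a b i) ∧ v ∈ K) := by
  simp [swp]

lemma PC_swp {n : ℕ} {w : V → ℕ} {z : V} {S : Fin n → Finset V} (hS : PC G n w z S)
    {a b : Fin n} {K : Finset V}
    (hK : ∀ u ∈ K, ∀ v, v ∉ K → (u ∈ S a ∨ u ∈ S b) → (v ∈ S a ∨ v ∈ S b) → ¬ G.Adj u v) :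
    PC G n w z (swp S a b K) := by
  classical
  constructor
  · intro i u hu v hv hne
    rw [mem_coe, mem_swp] at hu hv
    have key : ∀ u v, u ∈ S i → u ∉ K → v ∈ S (Equiv.swap a b i) → v ∈ K → ¬ G.Adj v u := by
      clear hu hv hne
      intro u v hu hu' hv hv' hadj
      by_cases hia : i = a
      · rw [hia] at hu hv
        rw [Equiv.swap_apply_left] at hv
        exact hK v hv' u hu' (Or.inr hv) (Or.inl hu) hadj
      · by_cases hib : i = b
        · rw [hib] at hu hv
          rw [Equiv.swap_apply_right] at hv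
          exact hK v hv' u hu' (Or.inl hv) (Or.inr hu) hadj
        · rw [Equiv.swap_apply_of_ne_of_ne hia hib] at hv
          exact hS.ind i hv hu hadj.ne hadj
    rcases hu with ⟨hu, hu'⟩ | ⟨hu, hu'⟩ <;> rcases hv with ⟨hv, hv'⟩ | ⟨hv, hv'⟩
    · exact hS.ind i hu hv hne
    · intro h; exact key u v hu hu' hv hv' h.symm
    · exact key v u hv hv' hu hu'
    · exact hS.ind _ hu hv hne
  · intro v
    rw [← hS.cnt v]
    congr 1
    by_cases hv : v ∈ K
    · have h1 : ∀ i, (if v ∈ swp S a b K i then 1 else 0) =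
          (fun j => if v ∈ S j then 1 else 0) (Equiv.swap a b i) := by
        intro i
        simp only [mem_swp, hv]
        simp
      rw [sum_congr rfl (fun i _ => h1 i)]
      exact Equiv.sum_comp (Equiv.swap a b) (fun j => if v ∈ S j then 1 else 0)
    · apply sum_congr rfl
      intro i _
      simp [mem_swp, hv]

lemma rigid (hc : ClawFree G) (hP : HP G) {n : ℕ} {w : V → ℕ} {z : V}
    (hNE : ∀ S, PC G n w z S → ∀ i, ∃ y ∈ S i, y = z ∨ G.Adj z y)
    {S : Fin n → Finset V} (hS : PC G n w z S) {m : ℕ} {f : ℕ → V} (hf : Hole G m f)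
    (hz : f 0 = z) {b t : Fin n} (hb : ∀ l ≤ 2 * m, (f l ∈ S b ↔ ¬ Even l))
    (hbW : ∀ y ∈ S b, y ∉ W G m f (2 * m)) (htW : ∀ y ∈ S t, y ∉ W G m f 0) :
    ∀ l, l ≤ 2 * m → Even l → 1 ≤ l → f l ∈ S t := by
  classical
  have hm := hf.two
  intro l
  induction l using Nat.strong_induction_on with
  | _ l ih =>
  intro hl hle hl1
  by_contra hlt
  have hl2 : 2 ≤ l := by
    obtain ⟨r, hr⟩ := hle; omega
  have hAn : ∀ y ∈ S b, ∀ c ≤ 2 * m, ¬ Att G m f c y := by
    intro y hy c hcm hat
    by_cases hc2 : c = 2 * m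
    · subst hc2
      exact hbW y hy (mem_W.2 (Or.inr (Or.inr hat)))
    · by_cases hce : Even c
      · have h1 : f (c + 1) ∈ S b := by
          rw [hb _ (by omega), Nat.even_add_one, not_not]; exact hce
        have h2 := (hat.adj (c + 1) (by omega)).2 (Or.inr (by unfold nxt; rw [if_neg hc2]))
        exact hS.ind b hy h1 h2.ne h2
      · have h1 : f c ∈ S b := (hb _ hcm).2 hce
        have h2 := (hat.adj c hcm).2 (Or.inl rfl)
        exact hS.ind b hy h1 h2.ne h2
  have hnx : nxt m (l - 1) = l := by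
    unfold nxt; rw [if_neg (by omega)]; omega
  have h0b : f 0 ∉ S b := by rw [hb 0 (by omega)]; simp
  have h0t : f 0 ∉ S t := fun h => htW _ h (mem_W.2 (Or.inl rfl))
  have hlb : f l ∉ S b := by rw [hb l hl]; simpa using hle
  obtain ⟨K, hK1, hK2, hK3⟩ := run_closed hc hP hf (hS.ind b) (hS.ind t) hAn (i := 1) (j := l - 1)
    le_rfl (by omega) (by omega) h0b h0t (by rw [hnx]; exact hlb) (by rw [hnx]; exact hlt) (by
      intro c hc1 hc2
      by_cases hce : Even c
      · left
        exact ih c (by omega) (by omega) hce hc1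
      · right
        refine ih (c + 1) ?_ (by omega) (by rw [Nat.even_add_one]; exact hce) (by omega)
        omega)
  have hPC := PC_swp hS hK2
  obtain ⟨y, hy, hyz⟩ := hNE _ hPC b
  rw [← hz] at hyz
  have hyW := nbhd hc hP hf hyz
  rw [mem_swp, Equiv.swap_apply_left] at hy
  rcases hy with ⟨hyb, hyK⟩ | ⟨hyt, hyK⟩
  · rcases hyW with hyW | hyW
    · rw [mem_W] at hyW
      rcases hyW with rfl | rfl | hat
      · exact h0b hyb
      · apply hyK
        have : nxt m 0 = 1 := by unfold nxt; rw [if_neg (by omega)]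
        rw [this, hK1 1 (by omega)]
        omega
      · exact hAn y hyb 0 (by omega) hat
    · exact hbW y hyb hyW
  · rcases hyW with hyW | hyW
    · exact htW y hyt hyW
    · rw [mem_W] at hyW
      rcases hyW with rfl | rfl | hat
      · rw [hK1 (2 * m) (by omega)] at hyK
        omega
      · have : nxt m (2 * m) = 0 := by unfold nxt; rw [if_pos rfl]
        rw [this, hK1 0 (by omega)] at hyK
        omega
      · have := hK3 y hyK hyt (2 * m) le_rfl hat
        omega

lemma goodrun (hc : ClawFree G) (hP : HP G) {n : ℕ} {w : V → ℕ} {z : V}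
    (hNE : ∀ S, PC G n w z S → ∀ i, ∃ y ∈ S i, y = z ∨ G.Adj z y)
    {S : Fin n → Finset V} (hS : PC G n w z S) {m : ℕ} {f : ℕ → V} (hf : Hole G m f)
    (hz : f 0 = z) {a b g : Fin n} (hab : a ≠ b) (hbg : b ≠ g)
    (hb : ∀ l ≤ 2 * m, (f l ∈ S b ↔ ¬ Even l))
    (hbW : ∀ y ∈ S b, y ∉ W G m f (2 * m)) (haW : ∀ y ∈ S a, y ∉ W G m f 0)
    (ha : ∀ l ≤ 2 * m, (f l ∈ S a ↔ (Even l ∧ 1 ≤ l)))
    {i j : ℕ} (hi : Even i) (hi1 : 1 ≤ i) (hj : Even j) (hij : i ≤ j) (hjm : j ≤ 2 * m)
    (hodd : ∀ l, i < l → l < j → ¬ Even l → f l ∈ S g) (h1 : f (i - 1) ∉ S g)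
    (h2 : f (nxt m j) ∉ S g) (hig : f i ∉ S g) : False := by
  classical
  have hm := hf.two
  have hi2 : 2 ≤ i := by
    obtain ⟨r, hr⟩ := hi; omega
  have hAn : ∀ y ∈ S a, ∀ c ≤ 2 * m, ¬ Att G m f c y := by
    intro y hy c hcm hat
    by_cases hc0 : c = 0
    · subst hc0
      exact haW y hy (mem_W.2 (Or.inr (Or.inr hat)))
    · by_cases hce : Even c
      · have h1 : f c ∈ S a := (ha _ hcm).2 ⟨hce, by omega⟩
        have h2 := (hat.adj c hcm).2 (Or.inl rfl)
        exact hS.ind a hy h1 h2.ne h2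
      · have hc2 : c ≠ 2 * m := by
          rintro rfl; exact hce (even_two_mul m)
        have h1 : f (c + 1) ∈ S a := by
          rw [ha _ (by omega), Nat.even_add_one]; exact ⟨hce, by omega⟩
        have h2 := (hat.adj (c + 1) (by omega)).2 (Or.inr (by unfold nxt; rw [if_neg hc2]))
        exact hS.ind a hy h1 h2.ne h2
  have h1a : f (i - 1) ∉ S a := by
    rw [ha _ (by omega)]
    rintro ⟨h, -⟩
    have : Even (i - 1 + 1) := by rw [Nat.sub_add_cancel hi1]; exact hi
    rw [Nat.even_add_one] at this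
    exact this h
  have h2a : f (nxt m j) ∉ S a := by
    rw [ha _ (nxt_le hjm)]
    unfold nxt
    split_ifs with h
    · omega
    · rintro ⟨h, -⟩
      rw [Nat.even_add_one] at h
      exact h hj
  obtain ⟨K, hK1, hK2, hK3⟩ := run_closed hc hP hf (hS.ind a) (hS.ind g) hAn (i := i) (j := j)
    hi1 hij hjm h1a h1 h2a h2 (by
      intro c hc1 hc2
      by_cases hce : Even c
      · right
        refine hodd (c + 1) (by omega) ?_ (by rw [Nat.even_add_one, not_not]; exact hce)
        obtain ⟨r, hr⟩ := hce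
        obtain ⟨r', hr'⟩ := hj
        omega
      · left
        refine hodd c ?_ hc2 hce
        rcases Nat.eq_or_lt_of_le hc1 with h | h
        · subst h; exact absurd hi hce
        · exact h)
  have hPC := PC_swp hS hK2
  have hsb : Equiv.swap a g b = b := Equiv.swap_apply_of_ne_of_ne hab.symm hbg
  have hmb : ∀ v, v ∈ swp S a g K b ↔ v ∈ S b := by
    intro v
    rw [mem_swp, hsb]
    tauto
  have := rigid hc hP hNE hPC hf hz (b := b) (t := a)
    (by intro l hl; rw [hmb]; exact hb l hl)
    (by intro y hy; exact hbW y ((hmb y).1 hy))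
    (by
      intro y hy hyW
      rw [mem_swp, Equiv.swap_apply_left] at hy
      rcases hy with ⟨hya, hyK⟩ | ⟨hyg, hyK⟩
      · exact haW y hya hyW
      · rw [mem_W] at hyW
        rcases hyW with rfl | rfl | hat
        · rw [hK1 0 (by omega)] at hyK
          omega
        · have : nxt m 0 = 1 := by unfold nxt; rw [if_neg (by omega)]
          rw [this, hK1 1 (by omega)] at hyK
          omega
        · have := hK3 y hyK hyg 0 (by omega) hat
          omega) i (by omega) hi hi1
  rw [mem_swp, Equiv.swap_apply_left] at this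
  rcases this with ⟨_, h⟩ | ⟨h, _⟩
  · apply h
    rw [hK1 i (by omega)]
    omega
  · exact hig h

lemma sum_pairs1 (F : ℕ → ℕ) (m : ℕ) : ∑ i ∈ range (2 * m + 1), F i =
    ∑ j ∈ range m, (F (2 * j) + F (2 * j + 1)) + F (2 * m) := by
  induction m with
  | zero => simp
  | succ m ih =>
    have : 2 * (m + 1) + 1 = (2 * m + 1) + 1 + 1 := by ring
    rw [this, sum_range_succ, sum_range_succ, ih, sum_range_succ]
    have : 2 * (m + 1) = 2 * m + 1 + 1 := by ring
    rw [this]
    ring

lemma sum_pairs2 (F : ℕ → ℕ) (m : ℕ) : ∑ i ∈ range (2 * m + 1), F i =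
    F 0 + ∑ j ∈ range m, (F (2 * j + 1) + F (2 * j + 2)) := by
  induction m with
  | zero => simp
  | succ m ih =>
    have : 2 * (m + 1) + 1 = (2 * m + 1) + 1 + 1 := by ring
    rw [this, sum_range_succ, sum_range_succ, ih, sum_range_succ]
    ring

lemma caseII_aux (hc : ClawFree G) (hP : HP G) {n : ℕ} {w : V → ℕ} {z : V}
    (hNE : ∀ S, PC G n w z S → ∀ i, ∃ y ∈ S i, y = z ∨ G.Adj z y)
    {S : Fin n → Finset V} (hS : PC G n w z S) {m : ℕ} {f : ℕ → V} (hf : Hole G m f)
    (hz : f 0 = z) {g : Fin n}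
    (hfull : ∀ d, d ≠ g → (∑ i ∈ range (2 * m + 1), if f i ∈ S d then 1 else 0) = m)
    (hdef : (∑ i ∈ range (2 * m + 1), if f i ∈ S g then 1 else 0) < m)
    {a b : Fin n} (hbW : ∀ y ∈ S b, y ∉ W G m f (2 * m)) (haW : ∀ y ∈ S a, y ∉ W G m f 0)
    (hbg : b ≠ g) : False := by
  classical
  have hm := hf.two
  have h0b : f 0 ∉ S b := by
    intro h
    refine hbW _ h (mem_W.2 (Or.inr (Or.inl ?_)))
    unfold nxt; rw [if_pos rfl]
  have h2mb : f (2 * m) ∉ S b := fun h => hbW _ h (mem_W.2 (Or.inl rfl))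
  -- the class `b` on the hole
  have hpair : ∀ (d : Fin n) i, i < 2 * m → ¬ (f i ∈ S d ∧ f (i + 1) ∈ S d) := by
    rintro d i hi ⟨h1, h2⟩
    have := hf.adj i hi
    exact hS.ind d h1 h2 this.ne this
  have hodd : ∀ j < m, f (2 * j + 1) ∈ S b := by
    have hs := hfull b hbg
    rw [sum_pairs1 (fun i => if f i ∈ S b then 1 else 0) m] at hs
    simp only [h2mb, if_false, add_zero] at hs
    have hle : ∀ j ∈ range m, ((if f (2 * j) ∈ S b then 1 else 0) +
        (if f (2 * j + 1) ∈ S b then 1 else 0) : ℕ) ≤ 1 := by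
      intro j hj
      rw [mem_range] at hj
      have := hpair b (2 * j) (by omega)
      split_ifs with h1 h2 h2
      · exact absurd ⟨h1, h2⟩ this
      · omega
      · omega
      · omega
    have heq : ∀ j < m, ((if f (2 * j) ∈ S b then 1 else 0) +
        (if f (2 * j + 1) ∈ S b then 1 else 0) : ℕ) = 1 := by
      intro j hj
      by_contra hne
      have hlt : ((if f (2 * j) ∈ S b then 1 else 0) +
        (if f (2 * j + 1) ∈ S b then 1 else 0) : ℕ) < 1 :=
        lt_of_le_of_ne (hle j (mem_range.2 hj)) hne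
      have := sum_lt_sum hle ⟨j, mem_range.2 hj, hlt⟩
      rw [hs] at this
      simp at this
    intro j
    induction j with
    | zero =>
      intro h
      have := heq 0 h
      simp only [Nat.mul_zero, h0b, if_false, zero_add] at this
      by_contra h'
      rw [if_neg (by simpa using h')] at this
      omega
    | succ j ih =>
      intro h
      have h1 := ih (by omega)
      have h2 : f (2 * (j + 1)) ∉ S b := by
        intro h3
        exact hpair b (2 * j + 1) (by omega) ⟨h1, by
          have : 2 * j + 1 + 1 = 2 * (j + 1) := by ring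
          rw [this]; exact h3⟩
      have := heq (j + 1) h
      simp only [h2, if_false, zero_add] at this
      by_contra h'
      rw [if_neg h'] at this
      omega
  have hb : ∀ l ≤ 2 * m, (f l ∈ S b ↔ ¬ Even l) := by
    intro l hl
    constructor
    · intro h he
      by_cases hl0 : l = 0
      · subst hl0; exact h0b h
      · obtain ⟨r, hr⟩ := he
        have h1 := hodd (r - 1) (by omega)
        have h2 : 2 * (r - 1) + 1 = l - 1 := by omega
        rw [h2] at h1
        refine hpair b (l - 1) (by omega) ⟨h1, ?_⟩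
        have h3 : l - 1 + 1 = l := by omega
        rw [h3]; exact h
    · intro h
      rw [Nat.not_even_iff_odd] at h
      obtain ⟨r, hr⟩ := h
      rw [hr]
      exact hodd r (by omega)
  have ha1 := rigid hc hP hNE hS hf hz hb hbW haW
  have h0a : f 0 ∉ S a := fun h => haW _ h (mem_W.2 (Or.inl rfl))
  have ha : ∀ l ≤ 2 * m, (f l ∈ S a ↔ (Even l ∧ 1 ≤ l)) := by
    intro l hl
    constructor
    · intro h
      have hl0 : l ≠ 0 := by rintro rfl; exact h0a h
      refine ⟨?_, by omega⟩
      by_contra hne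
      have hl2 : l ≠ 2 * m := by rintro rfl; exact hne (even_two_mul m)
      have h1 := ha1 (l + 1) (by omega) (by rw [Nat.even_add_one]; exact hne) (by omega)
      exact hpair a l (by omega) ⟨h, h1⟩
    · rintro ⟨h1, h2⟩
      exact ha1 l hl h1 h2
  have hag : a ≠ g := by
    rintro rfl
    rw [sum_pairs2 (fun i => if f i ∈ S a then 1 else 0) m] at hdef
    have : m ≤ ∑ j ∈ range m, ((if f (2 * j + 1) ∈ S a then 1 else 0) +
        (if f (2 * j + 2) ∈ S a then 1 else 0)) := by
      calc m = ∑ j ∈ range m, 1 := by simp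
        _ ≤ _ := by
          apply sum_le_sum
          intro j hj
          rw [mem_range] at hj
          have : f (2 * j + 2) ∈ S a := ha1 _ (by omega) (by
            have : 2 * j + 2 = 2 * (j + 1) := by ring
            rw [this]; exact even_two_mul _) (by omega)
          simp only [this, if_true]
          omega
    omega
  have hab : a ≠ b := by
    rintro rfl
    have h1 : f 1 ∈ S a := hodd 0 (by omega)
    rw [ha 1 (by omega)] at h1
    exact absurd h1.1 (by decide)
  -- the third colour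
  have hrun : ∀ p, Even p → 1 ≤ p → p ≤ 2 * m → f p ∉ S g → f (p - 1) ∉ S g →
      ∀ t, p + 2 * t ≤ 2 * m → (f (nxt m (p + 2 * t)) ∈ S g ∧
        ∀ l, p < l → l < p + 2 * t → ¬ Even l → f l ∈ S g) := by
    intro p hpe hp1 hp2 hpg hpg' t
    induction t with
    | zero =>
      intro _
      refine ⟨?_, by intro l h1 h2; omega⟩
      by_contra hcon
      exact goodrun hc hP hNE hS hf hz hab hbg hb hbW haW ha hpe hp1 hpe le_rfl hp2
        (by intro l h1 h2; omega) hpg' (by simpa using hcon) hpg
    | succ t ih =>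
      intro ht
      obtain ⟨h1, h2⟩ := ih (by omega)
      have hnx : nxt m (p + 2 * t) = p + 2 * t + 1 := by
        unfold nxt; rw [if_neg (by omega)]
      rw [hnx] at h1
      have h3 : ∀ l, p < l → l < p + 2 * (t + 1) → ¬ Even l → f l ∈ S g := by
        intro l hl1 hl2 hl3
        by_cases hl4 : l < p + 2 * t
        · exact h2 l hl1 hl4 hl3
        · have hl5 : l ≠ p + 2 * t := by
            rintro rfl
            apply hl3
            rw [Nat.even_add]
            exact ⟨fun _ => even_two_mul t, fun _ => hpe⟩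
          have hl6 : l = p + 2 * t + 1 := by omega
          rw [hl6]; exact h1
      refine ⟨?_, h3⟩
      by_contra hcon
      have hje : Even (p + 2 * (t + 1)) := by
        rw [Nat.even_add]
        exact ⟨fun _ => even_two_mul _, fun _ => hpe⟩
      exact goodrun hc hP hNE hS hf hz hab hbg hb hbW haW ha hpe hp1 hje (by omega) ht
        h3 hpg' hcon hpg
  have hrun0 : ∀ p, Even p → 1 ≤ p → p ≤ 2 * m → f p ∉ S g → f (p - 1) ∉ S g →
      f 0 ∈ S g ∧ ∀ l, p < l → l ≤ 2 * m → ¬ Even l → f l ∈ S g := by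
    intro p hpe hp1 hp2 hpg hpg'
    obtain ⟨r, hr⟩ := hpe
    have ht : p + 2 * (m - r) = 2 * m := by omega
    obtain ⟨h1, h2⟩ := hrun p ⟨r, hr⟩ hp1 hp2 hpg hpg' (m - r) (by omega)
    rw [ht] at h1 h2
    unfold nxt at h1
    rw [if_pos rfl] at h1
    refine ⟨h1, ?_⟩
    intro l hl1 hl2 hl3
    have : l ≠ 2 * m := by rintro rfl; exact hl3 (even_two_mul m)
    exact h2 l hl1 (by omega) hl3
  rw [sum_pairs2 (fun i => if f i ∈ S g then 1 else 0) m] at hdef
  by_cases hex : ∃ p, Even p ∧ 1 ≤ p ∧ p ≤ 2 * m ∧ f p ∉ S g ∧ f (p - 1) ∉ S g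
  · obtain ⟨p, hpe, hp1, hp2, hpg, hpg'⟩ := hex
    obtain ⟨h0g, hodds⟩ := hrun0 p hpe hp1 hp2 hpg hpg'
    obtain ⟨r, hr⟩ := hpe
    have h1 : m ≤ ∑ j ∈ range m, (((if f (2 * j + 1) ∈ S g then 1 else 0) +
        (if f (2 * j + 2) ∈ S g then 1 else 0)) + (if j = r - 1 then 1 else 0)) := by
      calc m = ∑ j ∈ range m, 1 := by simp
        _ ≤ _ := by
          apply sum_le_sum
          intro j hj
          rw [mem_range] at hj
          by_cases hjr : j = r - 1
          · simp [hjr]
          · by_cases hj1 : f (2 * j + 1) ∈ S g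
            · simp only [hj1, if_true]; omega
            · by_cases hj2 : f (2 * j + 2) ∈ S g
              · simp only [hj2, if_true]; omega
              · exfalso
                rcases lt_trichotomy (2 * j + 2) p with hlt | heq | hgt
                · have h2 := (hrun0 (2 * j + 2) ⟨j + 1, by ring⟩ (by omega) (by omega) hj2
                    (by simpa using hj1)).2 (p - 1) (by omega) (by omega) (by
                      rw [Nat.not_even_iff_odd]; exact ⟨r - 1, by omega⟩)
                  exact hpg' h2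
                · omega
                · exact hj1 (hodds (2 * j + 1) (by omega) (by omega) (by
                    rw [Nat.not_even_iff_odd]; exact ⟨j, rfl⟩))
    rw [sum_add_distrib] at h1
    have h2 : ∑ j ∈ range m, (if j = r - 1 then 1 else 0) = 1 := by
      rw [sum_ite_eq']
      rw [if_pos (mem_range.2 (by omega))]
    rw [h2] at h1
    simp only [h0g, if_true] at hdef
    omega
  · push Not at hex
    have h1 : m ≤ ∑ j ∈ range m, (((if f (2 * j + 1) ∈ S g then 1 else 0) +
        (if f (2 * j + 2) ∈ S g then 1 else 0))) := by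
      calc m = ∑ j ∈ range m, 1 := by simp
        _ ≤ _ := by
          apply sum_le_sum
          intro j hj
          rw [mem_range] at hj
          by_cases hj2 : f (2 * j + 2) ∈ S g
          · simp only [hj2, if_true]; omega
          · have := hex (2 * j + 2) ⟨j + 1, by ring⟩ (by omega) (by omega) hj2
            have hj1 : f (2 * j + 1) ∈ S g := by simpa using this
            simp only [hj1, if_true]; omega
    omega

/-- some colour misses a clique through `z` -/
lemma exists_miss {n : ℕ} {w : V → ℕ} {z : V} (hw : HW G n w)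
    {S : Fin n → Finset V} (hS : PC G n w z S) {K : Finset V} (hK : G.IsClique (K : Set V))
    (hz : z ∈ K) : ∃ a, ∀ y ∈ S a, y ∉ K := by
  classical
  by_contra hcon
  push Not at hcon
  have h1 := hw.cl K hK
  have h2 : ∑ v ∈ K, w v = ∑ i : Fin n, (∑ v ∈ K, if v ∈ S i then 1 else 0) + 1 := by
    have e1 : ∑ v ∈ K, (if v = z then 1 else 0) = 1 := by
      rw [sum_ite_eq']; simp [hz]
    have e2 : ∑ v ∈ K, w v = ∑ v ∈ K, ((∑ i : Fin n, if v ∈ S i then 1 else 0) +
        (if v = z then 1 else 0)) := by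
      apply sum_congr rfl
      intro v _
      exact (hS.cnt v).symm
    rw [e2, sum_add_distrib, e1, sum_comm]
  have h3 : n ≤ ∑ i : Fin n, (∑ v ∈ K, if v ∈ S i then 1 else 0) := by
    calc n = ∑ i : Fin n, 1 := by simp
      _ ≤ _ := by
        apply sum_le_sum
        intro i _
        obtain ⟨y, hy, hyK⟩ := hcon i
        calc 1 = (if y ∈ S i then 1 else 0) := by simp [hy]
          _ ≤ _ := single_le_sum (f := fun v => if v ∈ S i then 1 else 0)
            (fun _ _ => Nat.zero_le _) hyK
  omega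

/-- reflected cycle -/
def rfl' (m : ℕ) (f : ℕ → V) : ℕ → V := fun i => if i = 0 then f 0 else f (2 * m + 1 - i)

/-- position reflection -/
def rp (m i : ℕ) : ℕ := if i = 0 then 0 else 2 * m + 1 - i

lemma rfl'_eq (m : ℕ) (f : ℕ → V) (i : ℕ) : rfl' m f i = f (rp m i) := by
  unfold rfl' rp; split_ifs <;> rfl

lemma rp_le {m i : ℕ} (hi : i ≤ 2 * m) : rp m i ≤ 2 * m := by
  unfold rp; split_ifs <;> omega

lemma rp_rp {m i : ℕ} (hi : i ≤ 2 * m) : rp m (rp m i) = i := by
  unfold rp; split_ifs <;> omega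

lemma rp_spec (m i : ℕ) : (i = 0 ∧ rp m i = 0) ∨ (i ≠ 0 ∧ rp m i = 2 * m + 1 - i) := by
  unfold rp; split_ifs with h
  · exact Or.inl ⟨h, rfl⟩
  · exact Or.inr ⟨h, rfl⟩

lemma hole_refl {m : ℕ} {f : ℕ → V} (hf : Hole G m f) : Hole G m (rfl' m f) := by
  have hm := hf.two
  refine ⟨⟨?_, ?_, ?_⟩, hm, ?_⟩
  · intro i hi j hj h
    rw [rfl'_eq, rfl'_eq] at h
    have := hf.inj _ (rp_le hi) _ (rp_le hj) h
    rw [← rp_rp hi, this, rp_rp hj]
  · intro i hi
    rw [rfl'_eq, rfl'_eq]
    have h1 := hf.toOddCyc.adj_nxt (rp_le (m := m) (i := i + 1) (by omega))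
    have h2 : nxt m (rp m (i + 1)) = rp m i := by
      rcases nxt_spec m (rp m (i + 1)) with ⟨e1, e2⟩ | ⟨e1, e2⟩ <;>
        rcases rp_spec m (i + 1) with ⟨e3, e4⟩ | ⟨e3, e4⟩ <;>
        rcases rp_spec m i with ⟨e5, e6⟩ | ⟨e5, e6⟩ <;> omega
    rw [h2] at h1
    exact h1.symm
  · rw [rfl'_eq, rfl'_eq]
    have h1 := hf.adj 0 (by omega)
    have h2 : rp m (2 * m) = 1 := by unfold rp; rw [if_neg (by omega)]; omega
    have h3 : rp m 0 = 0 := by unfold rp; rw [if_pos rfl]
    rw [h2, h3]; exact h1.symm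
  · intro i j hij hj h
    rw [rfl'_eq, rfl'_eq] at h
    rcases hf.adj_cases (rp_le (by omega)) (rp_le hj) h with h1 | h1
    · rcases nxt_spec m (rp m i) with ⟨e1, e2⟩ | ⟨e1, e2⟩ <;>
        rcases rp_spec m i with ⟨e3, e4⟩ | ⟨e3, e4⟩ <;>
        rcases rp_spec m j with ⟨e5, e6⟩ | ⟨e5, e6⟩ <;> omega
    · rcases nxt_spec m (rp m j) with ⟨e1, e2⟩ | ⟨e1, e2⟩ <;>
        rcases rp_spec m i with ⟨e3, e4⟩ | ⟨e3, e4⟩ <;>
        rcases rp_spec m j with ⟨e5, e6⟩ | ⟨e5, e6⟩ <;> omega

lemma att_refl {m : ℕ} {f : ℕ → V} {i i' : ℕ} (hi : i ≤ 2 * m)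
    (hii : ∀ j ≤ 2 * m, (j = i ∨ j = nxt m i) ↔ (rp m j = i' ∨ rp m j = nxt m i')) {y : V}
    (h : Att G m (rfl' m f) i y) : Att G m f i' y := by
  constructor
  · intro j hj
    have := h.out _ (rp_le hj)
    rw [rfl'_eq, rp_rp hj] at this
    exact this
  · intro j hj
    have := h.adj _ (rp_le hj)
    rw [rfl'_eq, rp_rp hj] at this
    rw [this, hii _ (rp_le hj), rp_rp hj]

lemma sum_refl {m : ℕ} {f : ℕ → V} (F : V → ℕ) :
    ∑ i ∈ range (2 * m + 1), F (rfl' m f i) = ∑ i ∈ range (2 * m + 1), F (f i) := by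
  rw [sum_range_succ', sum_range_succ']
  congr 1
  rw [← sum_range_reflect]
  apply sum_congr rfl
  intro i hi
  rw [mem_range] at hi
  congr 1
  rw [rfl'_eq]
  congr 1
  unfold rp
  rw [if_neg (by omega)]
  omega

theorem caseII (hc : ClawFree G) (hP : HP G) {n : ℕ} {w : V → ℕ} {z : V} (hw : HW G n w)
    (hNE : ∀ S, PC G n w z S → ∀ i, ∃ y ∈ S i, y = z ∨ G.Adj z y)
    {S : Fin n → Finset V} (hS : PC G n w z S) {m : ℕ} {f : ℕ → V} (hf : Hole G m f)
    (hz : f 0 = z) {g : Fin n}
    (hfull : ∀ d, d ≠ g → (∑ i ∈ range (2 * m + 1), if f i ∈ S d then 1 else 0) = m)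
    (hdef : (∑ i ∈ range (2 * m + 1), if f i ∈ S g then 1 else 0) < m) : False := by
  classical
  have hm := hf.two
  obtain ⟨a, ha⟩ := exists_miss hw hS (W_clique hc hf (Nat.zero_le _))
    (mem_W.2 (Or.inl hz.symm))
  obtain ⟨b, hb⟩ := exists_miss hw hS (W_clique hc hf (le_refl (2 * m)))
    (mem_W.2 (Or.inr (Or.inl (by
      have : nxt m (2 * m) = 0 := by unfold nxt; rw [if_pos rfl]
      rw [this]; exact hz.symm))))
  have hab : a ≠ b := by
    rintro rfl
    obtain ⟨y, hy, hyz⟩ := hNE S hS a
    rw [← hz] at hyz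
    rcases nbhd hc hP hf hyz with h | h
    · exact ha y hy h
    · exact hb y hy h
  by_cases hbg : b = g
  · have hag : a ≠ g := by rw [← hbg]; exact hab
    have hz' : rfl' m f 0 = z := by unfold rfl'; rw [if_pos rfl]; exact hz
    have n0 : nxt m 0 = 1 := by unfold nxt; rw [if_neg (by omega)]
    have n2 : nxt m (2 * m) = 0 := by unfold nxt; rw [if_pos rfl]
    refine caseII_aux hc hP hNE hS (hole_refl hf) hz' (g := g) ?_ ?_ (a := b) (b := a) ?_ ?_ hag
    · intro d hd
      rw [sum_refl (fun v => if v ∈ S d then 1 else 0)]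
      exact hfull d hd
    · rw [sum_refl (fun v => if v ∈ S g then 1 else 0)]
      exact hdef
    · intro y hy hyW
      apply ha y hy
      rw [mem_W] at hyW ⊢
      rcases hyW with h | h | h
      · right; left
        rw [h, rfl'_eq, n0]
        congr 1
        unfold rp; rw [if_neg (by omega)]; omega
      · left
        rw [h, n2, rfl'_eq]
        congr 1
      · right; right
        refine att_refl (by omega) ?_ h
        intro j hj
        rw [n0, n2]
        rcases rp_spec m j with ⟨e1, e2⟩ | ⟨e1, e2⟩ <;> omega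
    · intro y hy hyW
      apply hb y hy
      rw [mem_W] at hyW ⊢
      rcases hyW with h | h | h
      · right; left
        rw [h, rfl'_eq, n2]
        congr 1
      · left
        rw [h, n0, rfl'_eq]
        congr 1
      · right; right
        refine att_refl (by omega) ?_ h
        intro j hj
        rw [n0, n2]
        rcases rp_spec m j with ⟨e1, e2⟩ | ⟨e1, e2⟩ <;> omega
  · exact caseII_aux hc hP hNE hS hf hz hfull hdef hb ha hbg

end Pool.MP_72f7ea_co.Idp
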