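import Pool.Agent.Lib.MP_72f7ea_co.Facts
import Pool.Agent.Lib.MP_72f7ea_co.Kempe

/-! Critical weights: from the case analysis to the integer decomposition (helper53). -/

set_option autoImplicit false
set_option linter.unusedSectionVars false

namespace Pool.MP_72f7ea_co.Idp

open Finset

section holes

variable {V : Type} {G : SimpleGraph V}

/-- sum along a path with an even number of vertices -/
theorem crit_path_le {k : ℕ} {u : V → ℕ} (he : ∀ a b, G.Adj a b → u a + u b ≤ k) (c : ℕ)
    (g : ℕ → V) (hg : ∀ t, t + 1 < 2 * c → G.Adj (g t) (g (t + 1))) :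
    ∑ t ∈ range (2 * c), u (g t) ≤ k * c := by
  induction c with
  | zero => simp
  | succ c ih =>
    have e : 2 * (c + 1) = 2 * c + 1 + 1 := by ring
    rw [e, sum_range_succ, sum_range_succ]
    have h1 := ih (fun t ht => hg t (by omega))
    have h2 := he _ _ (hg (2 * c) (by omega))
    calc ∑ t ∈ range (2 * c), u (g t) + u (g (2 * c)) + u (g (2 * c + 1))
        = ∑ t ∈ range (2 * c), u (g t) + (u (g (2 * c)) + u (g (2 * c + 1))) := by ring
      _ ≤ k * c + k := add_le_add h1 h2
      _ = k * (c + 1) := by ring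

theorem crit_edge {k : ℕ} {u : V → ℕ}
    (hcl : ∀ K : Finset V, G.IsClique (K : Set V) → ∑ v ∈ K, u v ≤ k) (a b : V)
    (h : G.Adj a b) : u a + u b ≤ k := by
  classical
  have := hcl {a, b} (by
    intro x hx y hy hxy
    simp only [coe_insert, coe_singleton, Set.mem_insert_iff, Set.mem_singleton_iff] at hx hy
    rcases hx with rfl | rfl <;> rcases hy with rfl | rfl
    · exact absurd rfl hxy
    · exact h
    · exact h.symm
    · exact absurd rfl hxy)
  rwa [sum_pair h.ne] at this

theorem crit_tri {k : ℕ} {u : V → ℕ}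
    (hcl : ∀ K : Finset V, G.IsClique (K : Set V) → ∑ v ∈ K, u v ≤ k) (a b c : V)
    (h : G.Adj a b) (h' : G.Adj a c) (h'' : G.Adj b c) : u a + (u b + u c) ≤ k := by
  classical
  have := hcl {a, b, c} (by
    intro x hx y hy hxy
    simp only [coe_insert, coe_singleton, Set.mem_insert_iff, Set.mem_singleton_iff] at hx hy
    rcases hx with rfl | rfl | rfl <;> rcases hy with rfl | rfl | rfl
    · exact absurd rfl hxy
    · exact h
    · exact h'
    · exact h.symm
    · exact absurd rfl hxy
    · exact h''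
    · exact h'.symm
    · exact h''.symm
    · exact absurd rfl hxy)
  rwa [sum_insert (by simp [h.ne, h'.ne]), sum_pair h''.ne] at this

/-- a violated odd cycle inequality gives a violated odd hole inequality (minimal length) -/
theorem exists_hole {k : ℕ} {u : V → ℕ}
    (hcl : ∀ K : Finset V, G.IsClique (K : Set V) → ∑ v ∈ K, u v ≤ k) {m : ℕ} {f : ℕ → V}
    (hf : OddCyc G m f) (hv : k * m < ∑ i ∈ range (2 * m + 1), u (f i)) :
    ∃ m' f', Hole G m' f' ∧ k * m' < ∑ i ∈ range (2 * m' + 1), u (f' i) ∧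
      ∀ i ≤ 2 * m', ∃ j ≤ 2 * m, f' i = f j := by
  have he := crit_edge hcl
  induction m using Nat.strong_induction_on generalizing f with
  | _ m ih =>
  have hm0 : m ≠ 0 := by
    rintro rfl
    exact (hf.clo).ne rfl
  have hm1 : m ≠ 1 := by
    rintro rfl
    have h1 := crit_tri hcl (f 0) (f 1) (f 2) (hf.adj 0 (by norm_num)) (hf.clo).symm
      (hf.adj 1 (by norm_num))
    simp only [sum_range_succ, sum_range_zero, mul_one, zero_add] at hv
    omega
  by_cases hch : ∀ i j, i < j → j ≤ 2 * m → G.Adj (f i) (f j) →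
      j = i + 1 ∨ (i = 0 ∧ j = 2 * m)
  · exact ⟨m, f, ⟨hf, by omega, hch⟩, hv, fun i hi => ⟨i, hi, rfl⟩⟩
  · push Not at hch
    obtain ⟨i, j, hij, hjm, hadj, hj1, hne⟩ := hch
    rcases Nat.even_or_odd' (j - i) with ⟨a, ha | ha⟩
    · -- the part between is an odd cycle
      have ham : a < m := by
        by_contra h
        have : i = 0 ∧ j = 2 * m := by omega
        exact hne this.1 this.2
      have hj : j = i + 2 * a := by omega
      have hc : OddCyc G a (fun t => f (i + t)) := by
        refine ⟨fun s hs t ht h => ?_, fun t ht => ?_, ?_⟩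
        · have := hf.inj (i + s) (by omega) (i + t) (by omega) h
          omega
        · exact hf.adj (i + t) (by omega)
        · rw [← hj, add_zero]
          exact hadj.symm
      have hsum : k * a < ∑ t ∈ range (2 * a + 1), u (f (i + t)) := by
        have e : 2 * m + 1 = i + (2 * a + 1) + (2 * m - j) := by omega
        rw [e, sum_range_add, sum_range_add] at hv
        rcases Nat.even_or_odd' i with ⟨p, hp | hp⟩
        · obtain ⟨q, hq⟩ : ∃ q, 2 * m - j = 2 * q := ⟨m - a - p, by omega⟩
          have h1 := crit_path_le he p f (fun t ht => hf.adj t (by omega))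
          have h2 := crit_path_le he q (fun t => f (i + (2 * a + 1) + t))
            (fun t ht => by
              exact hf.adj (i + (2 * a + 1) + t) (by omega))
          rw [hq] at hv
          rw [← hp] at h1
          have e2 : m = p + a + q := by omega
          rw [e2] at hv
          have e3 : k * (p + a + q) = k * p + k * a + k * q := by ring
          rw [e3] at hv
          omega
        · obtain ⟨q, hq⟩ : ∃ q, 2 * m - j = 2 * q + 1 := ⟨m - a - p - 1, by omega⟩
          have h1 := crit_path_le he p (fun t => f (t + 1)) (fun t ht => hf.adj (t + 1) (by omega))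
          have h2 := crit_path_le he q (fun t => f (i + (2 * a + 1) + t))
            (fun t ht => by
              exact hf.adj (i + (2 * a + 1) + t) (by omega))
          have h3 := he _ _ hf.clo
          have e4 : 2 * m = i + (2 * a + 1) + 2 * q := by omega
          rw [hq, sum_range_succ (fun x => u (f (i + (2 * a + 1) + x))), ← e4] at hv
          have h5 : ∑ x ∈ range i, u (f x) = ∑ x ∈ range (2 * p), u (f (x + 1)) + u (f 0) := by
            rw [hp, sum_range_succ']
          rw [h5] at hv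
          have e2 : m = p + a + q + 1 := by omega
          have e3 : k * m = k * p + k * a + k * q + k := by rw [e2]; ring
          rw [e3] at hv
          omega
      obtain ⟨m', f', h1, h2, h3⟩ := ih a ham hc hsum
      refine ⟨m', f', h1, h2, fun t ht => ?_⟩
      obtain ⟨s, hs, hs'⟩ := h3 t ht
      exact ⟨i + s, by omega, hs'⟩
    · -- remove the inner path
      have ha1 : 1 ≤ a := by
        by_contra h
        exact hj1 (by omega)
      have hj : j = i + 2 * a + 1 := by omega
      have ham : a < m := by omega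
      have hc : OddCyc G (m - a) (fun t => if t ≤ i then f t else f (t + 2 * a)) := by
        refine ⟨fun s hs t ht h => ?_, fun t ht => ?_, ?_⟩
        · beta_reduce at h
          split_ifs at h with h1 h2 h2
          · exact hf.inj s (by omega) t (by omega) h
          · have := hf.inj s (by omega) (t + 2 * a) (by omega) h
            omega
          · have := hf.inj (s + 2 * a) (by omega) t (by omega) h
            omega
          · have := hf.inj (s + 2 * a) (by omega) (t + 2 * a) (by omega) h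
            omega
        · by_cases h1 : t + 1 ≤ i
          · rw [if_pos (by omega), if_pos h1]
            exact hf.adj t (by omega)
          · rw [if_neg h1]
            by_cases h2 : t ≤ i
            · rw [if_pos h2]
              have e1 : t = i := by omega
              have e2 : t + 1 + 2 * a = j := by omega
              rw [e1] at *
              rw [e2]
              exact hadj
            · rw [if_neg h2]
              have := hf.adj (t + 2 * a) (by omega)
              have e : t + 1 + 2 * a = t + 2 * a + 1 := by ring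
              rwa [e]
        · rw [if_neg (by omega), if_pos (by omega)]
          have e : 2 * (m - a) + 2 * a = 2 * m := by omega
          rw [e]
          exact hf.clo
      have hsum : k * (m - a) <
          ∑ t ∈ range (2 * (m - a) + 1), u (if t ≤ i then f t else f (t + 2 * a)) := by
        have e : 2 * m + 1 = (i + 1) + (2 * a) + (2 * (m - a) - i) := by omega
        rw [e, sum_range_add, sum_range_add] at hv
        have e' : 2 * (m - a) + 1 = (i + 1) + (2 * (m - a) - i) := by omega
        rw [e', sum_range_add]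
        have h1 := crit_path_le he a (fun t => f (i + 1 + t))
          (fun t ht => by
            exact hf.adj (i + 1 + t) (by omega))
        have h2 : ∑ x ∈ range (i + 1), u (if x ≤ i then f x else f (x + 2 * a)) =
            ∑ x ∈ range (i + 1), u (f x) := by
          refine sum_congr rfl fun x hx => ?_
          rw [if_pos (by rw [mem_range] at hx; omega)]
        have h3 : ∑ x ∈ range (2 * (m - a) - i),
            u (if i + 1 + x ≤ i then f (i + 1 + x) else f (i + 1 + x + 2 * a)) =
            ∑ x ∈ range (2 * (m - a) - i), u (f (i + 1 + 2 * a + x)) := by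
          refine sum_congr rfl fun x hx => ?_
          rw [if_neg (by omega)]
          congr 2
          omega
        rw [h2, h3]
        have e2 : k * m = k * (m - a) + k * a := by
          rw [← mul_add]; congr 1; omega
        rw [e2] at hv
        omega
      obtain ⟨m', f', h1, h2, h3⟩ := ih (m - a) (by omega) hc hsum
      refine ⟨m', f', h1, h2, fun t ht => ?_⟩
      obtain ⟨s, hs, hs'⟩ := h3 t ht
      split_ifs at hs' with h4
      · exact ⟨s, by omega, hs'⟩
      · exact ⟨s + 2 * a, by omega, hs'⟩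

/-- rotation of a hole -/
theorem crit_rot {m : ℕ} {f : ℕ → V} (hf : Hole G m f) (r : ℕ) (hr : r ≤ 2 * m) :
    ∃ f', Hole G m f' ∧ f' 0 = f r ∧
      ∀ h : V → ℕ, ∑ i ∈ range (2 * m + 1), h (f' i) = ∑ i ∈ range (2 * m + 1), h (f i) := by
  induction r generalizing f with
  | zero => exact ⟨f, hf, rfl, fun _ => rfl⟩
  | succ r ih =>
    have hm := hf.two
    set f1 : ℕ → V := fun t => if t = 2 * m then f 0 else f (t + 1) with hf1
    have h1 : Hole G m f1 := by
      refine ⟨⟨fun s hs t ht h => ?_, fun t ht => ?_, ?_⟩, hm, fun i j hij hj hadj => ?_⟩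
      · simp only [hf1] at h
        split_ifs at h with h2 h3 h3
        · omega
        · have := hf.inj _ (by omega) _ (by omega) h
          omega
        · have := hf.inj _ (by omega) _ (by omega) h
          omega
        · have := hf.inj _ (by omega) _ (by omega) h
          omega
      · simp only [hf1]
        rw [if_neg (by omega)]
        split_ifs with h2
        · have e : t + 1 = 2 * m := h2
          rw [e]
          exact hf.clo
        · exact hf.adj (t + 1) (by omega)
      · simp only [hf1, if_true]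
        rw [if_neg (by omega)]
        exact hf.adj 0 (by omega)
      · simp only [hf1] at hadj
        rw [if_neg (by omega)] at hadj
        split_ifs at hadj with h2
        · rcases hf.ind 0 (i + 1) (by omega) (by omega) hadj.symm with h | h
          · right
            omega
          · left
            omega
        · rcases hf.ind (i + 1) (j + 1) (by omega) (by omega) hadj with h | h
          · left
            omega
          · omega
    obtain ⟨f', h2, h3, h4⟩ := ih h1 (by omega)
    refine ⟨f', h2, ?_, fun h => ?_⟩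
    · rw [h3]
      simp only [hf1]
      rw [if_neg (by omega)]
    · rw [h4, sum_range_succ, sum_range_succ']
      congr 1
      · refine sum_congr rfl fun x hx => ?_
        simp only [hf1]
        rw [if_neg (by rw [mem_range] at hx; omega)]
      · simp only [hf1, if_true]

/-- a stable set has at most `m` vertices of an odd cycle -/
theorem crit_stable_le [DecidableEq V] {m : ℕ} {f : ℕ → V} (hf : OddCyc G m f) {T : Finset V}
    (hT : G.IsIndepSet (T : Set V)) : (∑ i ∈ range (2 * m + 1), if f i ∈ T then 1 else 0) ≤ m := by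
  set a : ℕ → ℕ := fun i => if f i ∈ T then 1 else 0 with ha
  have hadd : ∀ i j, G.Adj (f i) (f j) → a i + a j ≤ 1 := by
    intro i j h
    simp only [ha]
    split_ifs with h1 h2
    · exact absurd h (hT h1 h2 h.ne)
    · norm_num
    · norm_num
    · norm_num
  have h1 : ∑ i ∈ range (2 * m), (a i + a (i + 1)) ≤ 2 * m := by
    calc ∑ i ∈ range (2 * m), (a i + a (i + 1)) ≤ ∑ _i ∈ range (2 * m), 1 :=
          sum_le_sum fun i hi => hadd _ _ (hf.adj i (mem_range.1 hi))
      _ = 2 * m := by simp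
  have h2 := hadd _ _ hf.clo
  have h3 : ∑ i ∈ range (2 * m + 1), a i = ∑ i ∈ range (2 * m), a i + a (2 * m) :=
    sum_range_succ _ _
  have h4 : ∑ i ∈ range (2 * m + 1), a i = ∑ i ∈ range (2 * m), a (i + 1) + a 0 :=
    sum_range_succ' _ _
  rw [sum_add_distrib] at h1
  change ∑ i ∈ range (2 * m + 1), a i ≤ m
  omega

end holes

theorem crit_all_eq {ι : Type*} (s : Finset ι) (a : ι → ℕ) (B : ℕ) (h : ∀ d ∈ s, a d ≤ B)
    (hs : s.card * B ≤ ∑ d ∈ s, a d) : ∀ d ∈ s, a d = B := by
  intro d hd
  by_contra hne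
  have hlt : a d < B := lt_of_le_of_ne (h d hd) hne
  have : ∑ d ∈ s, a d < ∑ _d ∈ s, B := sum_lt_sum h ⟨d, hd, hlt⟩
  rw [sum_const, smul_eq_mul] at this
  omega

section main

variable {V : Type} [Fintype V] [DecidableEq V] {G : SimpleGraph V}

/-- adding a stable set to a sum of stable sets -/
theorem crit_add {n : ℕ} {u w : V → ℕ} (hu : Colorable G n u) {T : Finset V}
    (hT : G.IsIndepSet (T : Set V)) (hw : ∀ v, w v = u v + if v ∈ T then 1 else 0) :
    Colorable G (n + 1) w := by
  obtain ⟨S, h1, h2⟩ := hu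
  refine ⟨Fin.cons T S, fun i => ?_, fun v => ?_⟩
  · refine Fin.cases ?_ (fun i => ?_) i
    · simpa using hT
    · simpa using h1 i
  · rw [Fin.sum_univ_succ, hw v, ← h2 v]
    simp [add_comm]

theorem crit_clique_le {K T : Finset V} (hK : G.IsClique (K : Set V))
    (hT : G.IsIndepSet (T : Set V)) : (∑ v ∈ K, if v ∈ T then 1 else 0) ≤ 1 := by
  rw [← card_filter, card_le_one]
  intro a ha b hb
  rw [mem_filter] at ha hb
  by_contra hne
  exact hT ha.2 hb.2 hne (hK ha.1 hb.1 hne)

/-- a minimal weight that is not a sum of `n+1` stable sets -/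
structure Crit (G : SimpleGraph V) (n : ℕ) (w : V → ℕ) : Prop where
  hw : HW G (n + 1) w
  ncol : ¬ Colorable G (n + 1) w
  lower : ∀ u, HW G n u → Colorable G n u
  pc : ∀ z, 1 ≤ w z → ∃ S, PC G (n + 1) w z S

theorem crit_ne {n : ℕ} {w : V → ℕ} (hcr : Crit G n w) {z : V} (S : Fin (n + 1) → Finset V)
    (hS : PC G (n + 1) w z S) (i : Fin (n + 1)) : ∃ y ∈ S i, y = z ∨ G.Adj z y := by
  by_contra hno
  push Not at hno
  apply hcr.ncol
  refine ⟨Function.update S i (insert z (S i)), fun j => ?_, fun v => ?_⟩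
  · by_cases hj : j = i
    · subst hj
      rw [Function.update_self]
      intro a ha b hb hab hadj
      rw [mem_coe, mem_insert] at ha hb
      rcases ha with rfl | ha <;> rcases hb with rfl | hb
      · exact hab rfl
      · exact (hno b hb).2 hadj
      · exact (hno a ha).2 hadj.symm
      · exact hS.ind j ha hb hab hadj
    · rw [Function.update_of_ne hj]
      exact hS.ind j
  · rw [← hS.cnt v, ← add_sum_erase _ _ (mem_univ i), ← add_sum_erase _ _ (mem_univ i),
      Function.update_self]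
    have h1 : ∀ j ∈ univ.erase i, (if v ∈ Function.update S i (insert z (S i)) j then 1 else 0) =
        if v ∈ S j then 1 else 0 := by
      intro j hj
      rw [Function.update_of_ne (ne_of_mem_erase hj)]
    rw [sum_congr rfl h1]
    by_cases hv : v = z
    · subst hv
      have : v ∉ S i := fun h => (hno v h).1 rfl
      simp [this, add_comm]
    · simp [hv]

theorem crit_lower {n : ℕ} {u w : V → ℕ} (hcr : Crit G n w) {T : Finset V}
    (hT : G.IsIndepSet (T : Set V)) (hw : ∀ v, w v = u v + if v ∈ T then 1 else 0) :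
    ¬ HW G n u := fun h => hcr.ncol (crit_add (hcr.lower u h) hT hw)

/-- a colour class of a colouring of `w - 1_z` gives a clique -/
theorem crit_C1 (hc : ClawFree G) (hP : HP G) {n : ℕ} {w : V → ℕ} (hcr : Crit G n w) {z : V}
    {S : Fin (n + 1) → Finset V} (hS : PC G (n + 1) w z S) (g : Fin (n + 1)) :
    ∃ Q : Finset V, G.IsClique (Q : Set V) ∧ z ∈ Q ∧ (∀ d, d ≠ g → ∃ v ∈ Q, v ∈ S d) ∧
      (∀ v ∈ Q, v ∉ S g) ∧ ∑ v ∈ Q, w v = n + 1 := by
  set u : V → ℕ := fun v => (∑ d ∈ univ.erase g, if v ∈ S d then 1 else 0) +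
    (if v = z then 1 else 0) with hu
  have hwu : ∀ v, w v = u v + if v ∈ S g then 1 else 0 := by
    intro v
    rw [← hS.cnt v, ← add_sum_erase _ _ (mem_univ g), hu]
    ring
  have hnot := crit_lower hcr (hS.ind g) hwu
  have hcard : (univ.erase g : Finset (Fin (n + 1))).card = n := by
    rw [card_erase_of_mem (mem_univ g), card_univ, Fintype.card_fin]
    rfl
  by_cases hcl : ∀ K : Finset V, G.IsClique (K : Set V) → ∑ v ∈ K, u v ≤ n
  · exfalso
    have hcy : ¬ ∀ m f, OddCyc G m f → ∑ i ∈ range (2 * m + 1), u (f i) ≤ n * m :=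
      fun h => hnot ⟨hcl, h⟩
    push Not at hcy
    obtain ⟨m0, f0, hf0, hv0⟩ := hcy
    obtain ⟨m, f, hf, hv, -⟩ := exists_hole hcl hf0 hv0
    have hsum : ∑ i ∈ range (2 * m + 1), u (f i) =
        (∑ d ∈ univ.erase g, ∑ i ∈ range (2 * m + 1), if f i ∈ S d then 1 else 0) +
          ∑ i ∈ range (2 * m + 1), if f i = z then 1 else 0 := by
      simp only [hu]
      rw [sum_add_distrib, sum_comm]
    have h1 : ∀ d ∈ univ.erase g, (∑ i ∈ range (2 * m + 1), if f i ∈ S d then 1 else 0) ≤ m :=
      fun d _ => crit_stable_le hf.toOddCyc (hS.ind d)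
    have h2 : (∑ d ∈ univ.erase g, ∑ i ∈ range (2 * m + 1), if f i ∈ S d then 1 else 0) ≤
        n * m := by
      calc _ ≤ ∑ d ∈ univ.erase g, m := sum_le_sum h1
        _ = n * m := by rw [sum_const, hcard, smul_eq_mul]
    have h3 : (∑ i ∈ range (2 * m + 1), if f i = z then 1 else 0) ≤ 1 := by
      rw [← card_filter, card_le_one]
      intro a ha b hb
      rw [mem_filter, mem_range] at ha hb
      exact hf.inj a (by omega) b (by omega) (ha.2.trans hb.2.symm)
    have h4 : (∑ i ∈ range (2 * m + 1), if f i = z then 1 else 0) ≠ 0 := by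
      intro h
      rw [hsum, h] at hv
      omega
    obtain ⟨r, hr, hrz⟩ : ∃ r ≤ 2 * m, f r = z := by
      by_contra hno
      push Not at hno
      apply h4
      refine sum_eq_zero fun i hi => if_neg (hno i (by rw [mem_range] at hi; omega))
    have h5 : n * m ≤
        ∑ d ∈ univ.erase g, ∑ i ∈ range (2 * m + 1), if f i ∈ S d then 1 else 0 := by
      rw [hsum] at hv
      omega
    have h6 := crit_all_eq _ _ m h1 (by rw [hcard]; exact h5)
    have h7 : (∑ i ∈ range (2 * m + 1), if f i ∈ S g then 1 else 0) < m := by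
      have := hcr.hw.cyc m f hf.toOddCyc
      have e : ∑ i ∈ range (2 * m + 1), w (f i) = ∑ i ∈ range (2 * m + 1), u (f i) +
          ∑ i ∈ range (2 * m + 1), if f i ∈ S g then 1 else 0 := by
        rw [← sum_add_distrib]
        exact sum_congr rfl fun i _ => hwu _
      rw [e] at this
      have e2 : (n + 1) * m = n * m + m := by ring
      rw [e2] at this
      omega
    obtain ⟨f', hf', hz', hs'⟩ := crit_rot hf r hr
    refine caseII hc hP hcr.hw (crit_ne hcr) hS hf' (hz'.trans hrz) (g := g) (fun d hd => ?_) ?_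
    · rw [hs' (fun v => if v ∈ S d then 1 else 0)]
      exact h6 d (mem_erase.2 ⟨hd, mem_univ d⟩)
    · rw [hs' (fun v => if v ∈ S g then 1 else 0)]
      exact h7
  · push Not at hcl
    obtain ⟨K, hK, hv⟩ := hcl
    have hsum : ∑ v ∈ K, u v = (∑ d ∈ univ.erase g, ∑ v ∈ K, if v ∈ S d then 1 else 0) +
          ∑ v ∈ K, if v = z then 1 else 0 := by
      simp only [hu]
      rw [sum_add_distrib, sum_comm]
    have h1 : ∀ d ∈ univ.erase g, (∑ v ∈ K, if v ∈ S d then 1 else 0) ≤ 1 :=
      fun d _ => crit_clique_le hK (hS.ind d)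
    have h2 : (∑ d ∈ univ.erase g, ∑ v ∈ K, if v ∈ S d then 1 else 0) ≤ n := by
      calc _ ≤ ∑ d ∈ univ.erase g, 1 := sum_le_sum h1
        _ = n := by rw [sum_const, hcard, smul_eq_mul, mul_one]
    have h3 : (∑ v ∈ K, if v = z then 1 else 0) = if z ∈ K then 1 else 0 := by
      rw [sum_ite_eq' K z]
    have hz : z ∈ K := by
      by_contra hz
      rw [hsum, h3, if_neg hz] at hv
      omega
    rw [if_pos hz] at h3
    have h5 : n * 1 ≤ ∑ d ∈ univ.erase g, ∑ v ∈ K, if v ∈ S d then 1 else 0 := by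
      rw [hsum] at hv
      omega
    have h6 := crit_all_eq _ _ 1 h1 (by rw [hcard]; exact h5)
    have h7 := hcr.hw.cl K hK
    have e : ∑ v ∈ K, w v = ∑ v ∈ K, u v + ∑ v ∈ K, if v ∈ S g then 1 else 0 := by
      rw [← sum_add_distrib]
      exact sum_congr rfl fun i _ => hwu _
    have h8 : (∑ v ∈ K, if v ∈ S g then 1 else 0) = 0 := by omega
    refine ⟨K, hK, hz, fun d hd => ?_, fun v hv' hvg => ?_, by omega⟩
    · by_contra hno
      push Not at hno
      have := h6 d (mem_erase.2 ⟨hd, mem_univ d⟩)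
      rw [sum_eq_zero fun v hv' => if_neg (hno v hv')] at this
      omega
    · have := (sum_eq_zero_iff.1 h8) v hv'
      rw [if_pos hvg] at this
      omega

theorem crit_le_one (hc : ClawFree G) (hP : HP G) {n : ℕ} {w : V → ℕ} (hcr : Crit G n w)
    (z : V) : w z ≤ 1 := by
  by_contra hz
  obtain ⟨S, hS⟩ := hcr.pc z (by omega)
  have h1 := hS.cnt z
  rw [if_pos rfl] at h1
  obtain ⟨g, hg⟩ : ∃ g, z ∈ S g := by
    by_contra hno
    push Not at hno
    rw [sum_eq_zero fun d _ => if_neg (hno d)] at h1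
    omega
  obtain ⟨Q, -, hzQ, -, hQ, -⟩ := crit_C1 hc hP hcr hS g
  exact hQ z hzQ hg

/-- a stable set meeting all tight cliques -/
theorem crit_hit (hc : ClawFree G) (hP : HP G) {n : ℕ} {w : V → ℕ} (hcr : Crit G n w) :
    ∃ T : Finset V, G.IsIndepSet (T : Set V) ∧ (∀ v ∈ T, w v = 1) ∧
      ∀ K : Finset V, G.IsClique (K : Set V) → ∑ v ∈ K, w v = n + 1 → ∃ v ∈ K, v ∈ T := by
  classical
  have hle := crit_le_one hc hP hcr
  have hn : (0 : ℝ) < (n : ℝ) + 1 := by positivity
  set x : V → ℝ := fun v => (w v : ℝ) / ((n : ℝ) + 1) with hx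
  have hpoly : HPoly G x := by
    refine ⟨fun v => by positivity, fun K hK => ?_, fun m f hf => ?_⟩
    · simp only [hx]
      rw [← sum_div, div_le_one hn]
      have := hcr.hw.cl K hK
      exact_mod_cast this
    · simp only [hx]
      rw [← sum_div, div_le_iff₀ hn]
      have := hcr.hw.cyc m f hf
      have h2 : ((∑ i ∈ range (2 * m + 1), w (f i) : ℕ) : ℝ) ≤ (((n + 1) * m : ℕ) : ℝ) := by
        exact_mod_cast this
      push_cast at h2
      linarith
  set TK : Finset (Finset V) :=
    univ.filter fun K => G.IsClique (K : Set V) ∧ ∑ v ∈ K, w v = n + 1 with hTK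
  obtain ⟨S, hS, hle'⟩ := hP x hpoly (fun v => ∑ K ∈ TK, if v ∈ K then (w v : ℝ) else 0)
  have hL : ∑ v, (∑ K ∈ TK, if v ∈ K then (w v : ℝ) else 0) * x v = TK.card := by
    simp only [sum_mul]
    rw [sum_comm]
    have : ∀ K ∈ TK, ∑ v, (if v ∈ K then (w v : ℝ) else 0) * x v = 1 := by
      intro K hK
      rw [hTK, mem_filter] at hK
      have h1 : ∀ v, (if v ∈ K then (w v : ℝ) else 0) * x v =
          if v ∈ K then (w v : ℝ) / ((n : ℝ) + 1) else 0 := by
        intro v
        have := hle v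
        split_ifs
        · have h2 : w v = 0 ∨ w v = 1 := by omega
          rcases h2 with h2 | h2 <;> simp [hx, h2]
        · simp
      rw [sum_congr rfl fun v _ => h1 v, sum_ite_mem, univ_inter, ← sum_div, div_eq_one_iff_eq hn.ne']
      have := hK.2.2
      exact_mod_cast this
    rw [sum_congr rfl this]
    simp
  have hR : ∑ v ∈ S, (∑ K ∈ TK, if v ∈ K then (w v : ℝ) else 0) =
      ∑ K ∈ TK, ((∑ v ∈ K, if v ∈ S then w v else 0 : ℕ) : ℝ) := by
    rw [sum_comm]
    refine sum_congr rfl fun K _ => ?_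
    push_cast
    rw [sum_ite_mem, sum_ite_mem, inter_comm]
  have hle2 : ∀ K ∈ TK, (∑ v ∈ K, if v ∈ S then w v else 0) ≤ 1 := by
    intro K hK
    rw [hTK, mem_filter] at hK
    calc (∑ v ∈ K, if v ∈ S then w v else 0) ≤ ∑ v ∈ K, if v ∈ S then 1 else 0 := by
          refine sum_le_sum fun v _ => ?_
          have := hle v
          split_ifs <;> omega
      _ ≤ 1 := crit_clique_le hK.2.1 hS
  refine ⟨S.filter fun v => w v = 1, fun a ha b hb => ?_, fun v hv => (mem_filter.1 hv).2,
    fun K hK hKw => ?_⟩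
  · rw [mem_coe, mem_filter] at ha hb
    exact hS ha.1 hb.1
  · have hKT : K ∈ TK := by
      rw [hTK, mem_filter]
      exact ⟨mem_univ K, hK, hKw⟩
    have h1 : TK.card * 1 ≤ ∑ K ∈ TK, (∑ v ∈ K, if v ∈ S then w v else 0) := by
      rw [hL, hR] at hle'
      have : (TK.card : ℝ) ≤ ((∑ K ∈ TK, (∑ v ∈ K, if v ∈ S then w v else 0) : ℕ) : ℝ) := by
        push_cast
        push_cast at hle'
        exact hle'
      rw [mul_one]
      exact_mod_cast this
    have h2 := crit_all_eq _ _ 1 hle2 h1 K hKT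
    by_contra hno
    push Not at hno
    rw [sum_eq_zero] at h2
    · omega
    · intro v hv
      have h3 := hno v hv
      rw [mem_filter, not_and] at h3
      have := hle v
      split_ifs with h4
      · have := h3 h4
        omega
      · rfl

theorem crit_uniq (hc : ClawFree G) {w : V → ℕ} (hw : HW G 3 w) {z p q y y' : V}
    (hzp : G.Adj z p) (hzq : G.Adj z q) (hzy : G.Adj z y) (hzy' : G.Adj z y')
    (hqy : G.Adj q y) (hqy' : G.Adj q y') (hpy : ¬ G.Adj p y) (hpy' : ¬ G.Adj p y')
    (hp : p ≠ y) (hp' : p ≠ y') (h1 : w z = 1) (h2 : w q = 1) (h3 : w y = 1) (h4 : w y' = 1) :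
    y = y' := by
  by_contra hne
  have hyy : G.Adj y y' := by
    rcases hc z p y y' hzp hzy hzy' hp hp' hne with h | h | h
    · exact absurd h hpy
    · exact absurd h hpy'
    · exact h
  have hK : G.IsClique (({z, q, y, y'} : Finset V) : Set V) := by
    simp only [coe_insert, coe_singleton, SimpleGraph.isClique_insert,
      SimpleGraph.isClique_singleton, Set.mem_insert_iff, Set.mem_singleton_iff, true_and]
    refine ⟨⟨?_, ?_⟩, ?_⟩
    · rintro b rfl _
      exact hyy
    · rintro b (rfl | rfl) _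
      · exact hqy
      · exact hqy'
    · rintro b (rfl | rfl | rfl) _
      · exact hzq
      · exact hzy
      · exact hzy'
  have := hw.cl _ hK
  rw [sum_insert (by simp [hzq.ne, hzy.ne, hzy'.ne]), sum_insert (by simp [hqy.ne, hqy'.ne]),
    sum_pair hne] at this
  omega

theorem crit_att (hc : ClawFree G) (hP : HP G) {m : ℕ} {f : ℕ → V} (hf : Hole G m f) {y : V}
    (hy : ∀ j ≤ 2 * m, y ≠ f j) (ha : G.Adj (f 0) y) : Att G m f 0 y ∨ Att G m f (2 * m) y := by
  obtain ⟨i, hi, hatt⟩ := factA hc hP hf hy ⟨0, by omega, ha.symm⟩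
  rcases (hatt.adj 0 (by omega)).1 ha.symm with h | h
  · left
    rw [h]
    exact hatt
  · right
    unfold nxt at h
    split_ifs at h with h1
    · rw [← h1]
      exact hatt

/-- the two further vertices of a tight triangle -/
theorem crit_pair (hc : ClawFree G) (hP : HP G) {w : V → ℕ} (hcr : Crit G 2 w) {T : Finset V}
    (hT : G.IsIndepSet (T : Set V)) (hT1 : ∀ v ∈ T, w v = 1)
    (hhit : ∀ K : Finset V, G.IsClique (K : Set V) → ∑ v ∈ K, w v = 2 + 1 → ∃ v ∈ K, v ∈ T)
    {z : V} (hz : w z = 1) (hzT : z ∉ T) {S : Fin (2 + 1) → Finset V} (hS : PC G (2 + 1) w z S)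
    (g : Fin (2 + 1)) :
    ∃ s r, s ∈ T ∧ r ∉ T ∧ s ≠ r ∧ w s = 1 ∧ w r = 1 ∧ G.Adj z s ∧ G.Adj z r ∧ G.Adj s r ∧
      s ∉ S g ∧ r ∉ S g ∧ ∀ h, h ≠ g → s ∈ S h ∨ r ∈ S h := by
  have hle := crit_le_one hc hP hcr
  obtain ⟨Q, hQ, hzQ, hQ1, hQ2, hQ3⟩ := crit_C1 hc hP hcr hS g
  obtain ⟨s, hsQ, hsT⟩ := hhit Q hQ hQ3
  have hsz : s ≠ z := fun h => hzT (h ▸ hsT)
  have hsw := hT1 s hsT
  have hsQ' : s ∈ Q.erase z := mem_erase.2 ⟨hsz, hsQ⟩
  rw [← add_sum_erase Q w hzQ, ← add_sum_erase _ w hsQ', hz, hsw] at hQ3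
  obtain ⟨r, hr, hrw⟩ : ∃ r ∈ (Q.erase z).erase s, w r ≠ 0 := by
    by_contra hno
    push Not at hno
    rw [sum_eq_zero hno] at hQ3
    omega
  have hrw1 : w r = 1 := by
    have := hle r
    omega
  have hrest : ∀ v ∈ ((Q.erase z).erase s).erase r, w v = 0 := by
    rw [← add_sum_erase _ w hr, hrw1] at hQ3
    have : ∑ v ∈ ((Q.erase z).erase s).erase r, w v = 0 := by omega
    exact sum_eq_zero_iff.1 this
  have hr' := hr
  rw [mem_erase, mem_erase] at hr'
  obtain ⟨hrs, hrz, hrQ⟩ := hr'
  have hsr : G.Adj s r := hQ hsQ hrQ hrs.symm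
  refine ⟨s, r, hsT, fun h => hT hsT h hrs.symm hsr, hrs.symm, hsw, hrw1, hQ hzQ hsQ hsz.symm,
    hQ hzQ hrQ hrz.symm, hsr, hQ2 s hsQ, hQ2 r hrQ, fun h hh => ?_⟩
  obtain ⟨v, hvQ, hvS⟩ := hQ1 h hh
  have hcnt := hS.cnt v
  have h1 : 1 ≤ ∑ i, if v ∈ S i then 1 else 0 := by
    calc 1 = if v ∈ S h then 1 else 0 := by rw [if_pos hvS]
      _ ≤ _ := single_le_sum (f := fun i => if v ∈ S i then 1 else 0)
        (fun _ _ => Nat.zero_le _) (mem_univ h)
  have hvz : v ≠ z := by
    rintro rfl
    rw [if_pos rfl] at hcnt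
    omega
  by_cases hvs : v = s
  · left
    rwa [← hvs]
  by_cases hvr : v = r
  · right
    rwa [← hvr]
  have := hrest v (mem_erase.2 ⟨hvr, mem_erase.2 ⟨hvs, mem_erase.2 ⟨hvz, hvQ⟩⟩⟩)
  omega

/-- no critical weight for three colours -/
theorem crit_three (hc : ClawFree G) (hP : HP G) {w : V → ℕ} (hcr : Crit G 2 w) {T : Finset V}
    (hT : G.IsIndepSet (T : Set V)) (hT1 : ∀ v ∈ T, w v = 1)
    (hhit : ∀ K : Finset V, G.IsClique (K : Set V) → ∑ v ∈ K, w v = 2 + 1 → ∃ v ∈ K, v ∈ T)
    {m : ℕ} {f : ℕ → V} (hf : Hole G m f) (hw1 : ∀ i ≤ 2 * m, w (f i) = 1)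
    (hfT : ∀ i ≤ 2 * m, f i ∉ T) : False := by
  have hm := hf.two
  obtain ⟨S, hS⟩ := hcr.pc (f 0) (by rw [hw1 0 (by omega)])
  have key := crit_pair hc hP hcr hT hT1 hhit (hw1 0 (by omega)) (hfT 0 (by omega)) hS
  have n0 : nxt m 0 = 1 := by
    unfold nxt
    rw [if_neg (by omega)]
  have n2 : nxt m (2 * m) = 0 := by
    unfold nxt
    rw [if_pos rfl]
  have a01 : G.Adj (f 0) (f 1) := hf.adj 0 (by omega)
  have a02 : G.Adj (f 0) (f (2 * m)) := hf.clo.symm
  -- uniqueness of the attached vertices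
  have U0 : ∀ y y', Att G m f 0 y → Att G m f 0 y' → w y = 1 → w y' = 1 → y = y' := by
    intro y y' hy hy' h1 h2
    refine crit_uniq hc hcr.hw a02 a01 ((hy.adj 0 (by omega)).2 (Or.inl rfl)).symm
      ((hy'.adj 0 (by omega)).2 (Or.inl rfl)).symm
      ((hy.adj 1 (by omega)).2 (Or.inr n0.symm)).symm
      ((hy'.adj 1 (by omega)).2 (Or.inr n0.symm)).symm (fun h => ?_) (fun h => ?_)
      (hy.out _ le_rfl).symm (hy'.out _ le_rfl).symm (hw1 0 (by omega)) (hw1 1 (by omega)) h1 h2
    · have := (hy.adj _ le_rfl).1 h.symm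
      omega
    · have := (hy'.adj _ le_rfl).1 h.symm
      omega
  have U2 : ∀ y y', Att G m f (2 * m) y → Att G m f (2 * m) y' → w y = 1 → w y' = 1 →
      y = y' := by
    intro y y' hy hy' h1 h2
    refine crit_uniq hc hcr.hw a01 a02 ((hy.adj 0 (by omega)).2 (Or.inr n2.symm)).symm
      ((hy'.adj 0 (by omega)).2 (Or.inr n2.symm)).symm
      ((hy.adj _ le_rfl).2 (Or.inl rfl)).symm
      ((hy'.adj _ le_rfl).2 (Or.inl rfl)).symm (fun h => ?_) (fun h => ?_)
      (hy.out 1 (by omega)).symm (hy'.out 1 (by omega)).symm (hw1 0 (by omega))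
      (hw1 _ le_rfl) h1 h2
    · have := (hy.adj 1 (by omega)).1 h.symm
      omega
    · have := (hy'.adj 1 (by omega)).1 h.symm
      omega
  choose s r hsT hrT hsr hsw hrw hzs hzr hadj hsS hrS hcov using key
  have hty : ∀ g, (Att G m f 0 (s g) ∧ r g = f 1) ∨
      (Att G m f 0 (s g) ∧ Att G m f (2 * m) (r g)) ∨
      (Att G m f (2 * m) (s g) ∧ r g = f (2 * m)) ∨
      (Att G m f (2 * m) (s g) ∧ Att G m f 0 (r g)) := by
    intro g
    have hout : ∀ j ≤ 2 * m, s g ≠ f j := fun j hj h => hfT j hj (h ▸ hsT g)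
    have hr : r g = f 1 ∨ r g = f (2 * m) ∨ Att G m f 0 (r g) ∨ Att G m f (2 * m) (r g) := by
      by_cases hex : ∃ j ≤ 2 * m, r g = f j
      · obtain ⟨j, hj, hrj⟩ := hex
        have hz := hzr g
        rw [hrj] at hz
        have hj0 : j ≠ 0 := by
          rintro rfl
          exact hz.ne rfl
        rcases hf.ind 0 j (by omega) hj hz with h | h
        · left
          rw [hrj, h]
        · right
          left
          rw [hrj, h.2]
      · push Not at hex
        right
        right
        exact crit_att hc hP hf hex (hzr g)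
    rcases crit_att hc hP hf hout (hzs g) with hs | hs
    · rcases hr with hr | hr | hr | hr
      · exact Or.inl ⟨hs, hr⟩
      · have := hadj g
        rw [hr] at this
        have := (hs.adj _ le_rfl).1 this
        omega
      · exact absurd (U0 _ _ hs hr (hsw g) (hrw g)) (hsr g)
      · exact Or.inr (Or.inl ⟨hs, hr⟩)
    · rcases hr with hr | hr | hr | hr
      · have := hadj g
        rw [hr] at this
        have := (hs.adj 1 (by omega)).1 this
        omega
      · exact Or.inr (Or.inr (Or.inl ⟨hs, hr⟩))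
      · exact Or.inr (Or.inr (Or.inr ⟨hs, hr⟩))
      · exact absurd (U2 _ _ hs hr (hsw g) (hrw g)) (hsr g)
  have hsame : ∀ g g', g ≠ g' → s g = s g' → r g = r g' → False := by
    intro g g' hne h1 h2
    rcases hcov g' g hne with h | h
    · rw [← h1] at h
      exact hsS g h
    · rw [← h2] at h
      exact hrS g h
  have hST : ∀ g g', s g ≠ r g' := fun g g' h => hrT g' (h ▸ hsT g)
  have hpair : ∀ g g', g ≠ g' →
      ¬ ((Att G m f 0 (s g) ∧ r g = f 1) ∧ (Att G m f 0 (s g') ∧ r g' = f 1)) ∧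
      ¬ ((Att G m f 0 (s g) ∧ Att G m f (2 * m) (r g)) ∧
        (Att G m f 0 (s g') ∧ Att G m f (2 * m) (r g'))) ∧
      ¬ ((Att G m f (2 * m) (s g) ∧ r g = f (2 * m)) ∧
        (Att G m f (2 * m) (s g') ∧ r g' = f (2 * m))) ∧
      ¬ ((Att G m f (2 * m) (s g) ∧ Att G m f 0 (r g)) ∧
        (Att G m f (2 * m) (s g') ∧ Att G m f 0 (r g'))) ∧
      ¬ ((Att G m f 0 (s g) ∧ Att G m f (2 * m) (r g)) ∧ Att G m f (2 * m) (s g')) ∧
      ¬ ((Att G m f (2 * m) (s g) ∧ Att G m f 0 (r g)) ∧ Att G m f 0 (s g')) := by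
    intro g g' hne
    refine ⟨?_, ?_, ?_, ?_, ?_, ?_⟩
    · rintro ⟨⟨h1, h2⟩, h3, h4⟩
      exact hsame g g' hne (U0 _ _ h1 h3 (hsw g) (hsw g')) (h2.trans h4.symm)
    · rintro ⟨⟨h1, h2⟩, h3, h4⟩
      exact hsame g g' hne (U0 _ _ h1 h3 (hsw g) (hsw g')) (U2 _ _ h2 h4 (hrw g) (hrw g'))
    · rintro ⟨⟨h1, h2⟩, h3, h4⟩
      exact hsame g g' hne (U2 _ _ h1 h3 (hsw g) (hsw g')) (h2.trans h4.symm)
    · rintro ⟨⟨h1, h2⟩, h3, h4⟩
      exact hsame g g' hne (U2 _ _ h1 h3 (hsw g) (hsw g')) (U0 _ _ h2 h4 (hrw g) (hrw g'))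
    · rintro ⟨⟨h1, h2⟩, h3⟩
      exact hST g' g (U2 _ _ h3 h2 (hsw g') (hrw g))
    · rintro ⟨⟨h1, h2⟩, h3⟩
      exact hST g' g (U0 _ _ h3 h2 (hsw g') (hrw g))
  have p01 := hpair 0 1 (by decide)
  have p02 := hpair 0 2 (by decide)
  have p12 := hpair 1 2 (by decide)
  have p10 := hpair 1 0 (by decide)
  have p20 := hpair 2 0 (by decide)
  have p21 := hpair 2 1 (by decide)
  have t0 := hty 0
  have t1 := hty 1
  have t2 := hty 2
  rcases t0 with t0 | t0 | t0 | t0 <;> rcases t1 with t1 | t1 | t1 | t1 <;>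
    rcases t2 with t2 | t2 | t2 | t2 <;>
    first
    | exact p01.1 ⟨t0, t1⟩
    | exact p02.1 ⟨t0, t2⟩
    | exact p12.1 ⟨t1, t2⟩
    | exact p01.2.1 ⟨t0, t1⟩
    | exact p02.2.1 ⟨t0, t2⟩
    | exact p12.2.1 ⟨t1, t2⟩
    | exact p01.2.2.1 ⟨t0, t1⟩
    | exact p02.2.2.1 ⟨t0, t2⟩
    | exact p12.2.2.1 ⟨t1, t2⟩
    | exact p01.2.2.2.1 ⟨t0, t1⟩
    | exact p02.2.2.2.1 ⟨t0, t2⟩
    | exact p12.2.2.2.1 ⟨t1, t2⟩
    | exact p01.2.2.2.2.1 ⟨t0, t1.1⟩
    | exact p02.2.2.2.2.1 ⟨t0, t2.1⟩
    | exact p12.2.2.2.2.1 ⟨t1, t2.1⟩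
    | exact p10.2.2.2.2.1 ⟨t1, t0.1⟩
    | exact p20.2.2.2.2.1 ⟨t2, t0.1⟩
    | exact p21.2.2.2.2.1 ⟨t2, t1.1⟩
    | exact p01.2.2.2.2.2 ⟨t0, t1.1⟩
    | exact p02.2.2.2.2.2 ⟨t0, t2.1⟩
    | exact p12.2.2.2.2.2 ⟨t1, t2.1⟩
    | exact p10.2.2.2.2.2 ⟨t1, t0.1⟩
    | exact p20.2.2.2.2.2 ⟨t2, t0.1⟩
    | exact p21.2.2.2.2.2 ⟨t2, t1.1⟩

/-- there is no critical weight -/
theorem crit_false (hc : ClawFree G) (hP : HP G) {n : ℕ} {w : V → ℕ} (hcr : Crit G n w) :
    False := by
  have hle := crit_le_one hc hP hcr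
  obtain ⟨T, hT, hT1, hhit⟩ := crit_hit hc hP hcr
  set u : V → ℕ := fun v => w v - if v ∈ T then 1 else 0 with hu
  have hwu : ∀ v, w v = u v + if v ∈ T then 1 else 0 := by
    intro v
    simp only [hu]
    split_ifs with h
    · have := hT1 v h
      omega
    · omega
  have hnot := crit_lower hcr hT hwu
  have hcl : ∀ K : Finset V, G.IsClique (K : Set V) → ∑ v ∈ K, u v ≤ n := by
    intro K hK
    have e : ∑ v ∈ K, w v = ∑ v ∈ K, u v + ∑ v ∈ K, if v ∈ T then 1 else 0 := by
      rw [← sum_add_distrib]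
      exact sum_congr rfl fun v _ => hwu v
    have h1 := hcr.hw.cl K hK
    by_cases h2 : ∑ v ∈ K, w v = n + 1
    · obtain ⟨v, hv, hvT⟩ := hhit K hK h2
      have h3 : 1 ≤ ∑ v ∈ K, if v ∈ T then 1 else 0 := by
        calc 1 = if v ∈ T then 1 else 0 := by rw [if_pos hvT]
          _ ≤ _ := single_le_sum (f := fun v => if v ∈ T then 1 else 0)
            (fun _ _ => Nat.zero_le _) hv
      omega
    · omega
  have hcy : ¬ ∀ m f, OddCyc G m f → ∑ i ∈ range (2 * m + 1), u (f i) ≤ n * m :=
    fun h => hnot ⟨hcl, h⟩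
  push Not at hcy
  obtain ⟨m0, f0, hf0, hv0⟩ := hcy
  obtain ⟨m, f, hf, hv, -⟩ := exists_hole hcl hf0 hv0
  have hm := hf.two
  have hu1 : ∀ v, u v ≤ 1 := fun v => by
    have := hwu v
    have := hle v
    omega
  have hsum : ∑ i ∈ range (2 * m + 1), u (f i) ≤ 2 * m + 1 := by
    calc _ ≤ ∑ i ∈ range (2 * m + 1), 1 := sum_le_sum fun i _ => hu1 _
      _ = 2 * m + 1 := by simp
  have hn : n ≤ 2 := by
    by_contra hn
    have : 3 * m ≤ n * m := Nat.mul_le_mul_right m (by omega)
    omega
  have hn' : n = 0 ∨ n = 1 ∨ n = 2 := by omega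
  rcases hn' with rfl | rfl | rfl
  · rw [sum_eq_zero] at hv
    · omega
    · intro i _
      have := hcl {f i} (by simp)
      rw [sum_singleton] at this
      omega
  · set T1 : Finset V := univ.filter fun v => u v = 1 with hT1'
    have hst : G.IsIndepSet (T1 : Set V) := by
      intro a ha b hb _ hadj
      rw [hT1', mem_coe, mem_filter] at ha hb
      have := crit_edge hcl a b hadj
      omega
    have h1 := crit_stable_le hf.toOddCyc hst
    have h2 : ∑ i ∈ range (2 * m + 1), u (f i) =
        ∑ i ∈ range (2 * m + 1), if f i ∈ T1 then 1 else 0 := by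
      refine sum_congr rfl fun i _ => ?_
      have := hu1 (f i)
      by_cases h : u (f i) = 1
      · rw [if_pos (by rw [hT1', mem_filter]; exact ⟨mem_univ _, h⟩), h]
      · rw [if_neg fun h' => h (by rw [hT1', mem_filter] at h'; exact h'.2)]
        omega
    rw [h2] at hv
    omega
  · have hall := crit_all_eq (range (2 * m + 1)) (fun i => u (f i)) 1 (fun i _ => hu1 _)
      (by rw [card_range]; omega)
    have hall' : ∀ i ≤ 2 * m, w (f i) = 1 ∧ f i ∉ T := by
      intro i hi
      have h1 : u (f i) = 1 := hall i (by rw [mem_range]; omega)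
      have h2 := hwu (f i)
      have h3 := hle (f i)
      split_ifs at h2 with h4
      · omega
      · exact ⟨by omega, h4⟩
    exact crit_three hc hP hcr hT hT1 hhit hf (fun i hi => (hall' i hi).1)
      fun i hi => (hall' i hi).2

/-- the integer decomposition theorem -/
theorem main (hc : ClawFree G) (hP : HP G) (k : ℕ) (w : V → ℕ) (hw : HW G k w) :
    Colorable G k w := by
  induction k generalizing w with
  | zero =>
    refine ⟨fun i => i.elim0, fun i => i.elim0, fun v => ?_⟩
    have := hw.cl {v} (by simp)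
    rw [sum_singleton] at this
    rw [univ_eq_empty, sum_empty]
    omega
  | succ n ih =>
    obtain ⟨N, hN⟩ : ∃ N, ∑ v, w v = N := ⟨_, rfl⟩
    induction N using Nat.strong_induction_on generalizing w with
    | _ N ihN =>
    by_contra hcol
    refine crit_false hc hP (n := n) (w := w) ⟨hw, hcol, fun u hu => ih u hu, fun z hz => ?_⟩
    set w' : V → ℕ := fun v => w v - if v = z then 1 else 0 with hw'
    have hle : ∀ v, w' v ≤ w v := fun v => Nat.sub_le _ _
    have hww : ∀ v, w' v + (if v = z then 1 else 0) = w v := by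
      intro v
      simp only [hw']
      split_ifs with h
      · rw [h]
        omega
      · omega
    have hlt : ∑ v, w' v < N := by
      rw [← hN]
      refine sum_lt_sum (fun v _ => hle v) ⟨z, mem_univ z, ?_⟩
      have := hww z
      rw [if_pos rfl] at this
      omega
    obtain ⟨S, h1, h2⟩ := ihN _ hlt w' ⟨fun K hK => (sum_le_sum fun v _ => hle v).trans (hw.cl K hK),
      fun m f hf => (sum_le_sum fun i _ => hle (f i)).trans (hw.cyc m f hf)⟩ rfl
    exact ⟨S, h1, fun v => by rw [h2 v, hww v]⟩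

end main

end Pool.MP_72f7ea_co.Idp
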