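import Mathlib

set_option autoImplicit false

namespace Pool.MP_72f7ea_co.Idp

open Finset

variable {V : Type}

def ClawFree (G : SimpleGraph V) : Prop :=
  ∀ c a b d : V, G.Adj c a → G.Adj c b → G.Adj c d → a ≠ b → a ≠ d → b ≠ d →
    G.Adj a b ∨ G.Adj a d ∨ G.Adj b d

/-- `f 0, ..., f (2m)` are the vertices of an odd cycle (not necessarily induced) -/
structure OddCyc (G : SimpleGraph V) (m : ℕ) (f : ℕ → V) : Prop where
  inj : ∀ i ≤ 2 * m, ∀ j ≤ 2 * m, f i = f j → i = j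
  adj : ∀ i < 2 * m, G.Adj (f i) (f (i + 1))
  clo : G.Adj (f (2 * m)) (f 0)

/-- the polytope given by nonnegativity, clique and odd cycle inequalities -/
structure HPoly (G : SimpleGraph V) (x : V → ℝ) : Prop where
  nonneg : ∀ v, 0 ≤ x v
  cl : ∀ K : Finset V, G.IsClique (K : Set V) → ∑ v ∈ K, x v ≤ 1
  cyc : ∀ m f, OddCyc G m f → ∑ i ∈ range (2 * m + 1), x (f i) ≤ m

/-- h-perfectness, in the form that is used -/
def HP (G : SimpleGraph V) [Fintype V] : Prop :=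
  ∀ x : V → ℝ, HPoly G x → ∀ c : V → ℝ, ∃ S : Finset V, G.IsIndepSet (S : Set V) ∧
    ∑ v, c v * x v ≤ ∑ v ∈ S, c v

/-- integer weights satisfying the `k`-fold system -/
structure HW (G : SimpleGraph V) (k : ℕ) (w : V → ℕ) : Prop where
  cl : ∀ K : Finset V, G.IsClique (K : Set V) → ∑ v ∈ K, w v ≤ k
  cyc : ∀ m f, OddCyc G m f → ∑ i ∈ range (2 * m + 1), w (f i) ≤ k * m

/-- `w` is a sum of `k` stable sets -/
def Colorable (G : SimpleGraph V) [DecidableEq V] (k : ℕ) (w : V → ℕ) : Prop :=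
  ∃ S : Fin k → Finset V, (∀ i, G.IsIndepSet (S i : Set V)) ∧
    ∀ v, (∑ i, if v ∈ S i then 1 else 0) = w v

/-- induced odd cycle of length `2m+1 ≥ 5` -/
structure Hole (G : SimpleGraph V) (m : ℕ) (f : ℕ → V) : Prop extends OddCyc G m f where
  two : 2 ≤ m
  ind : ∀ i j, i < j → j ≤ 2 * m → G.Adj (f i) (f j) → j = i + 1 ∨ (i = 0 ∧ j = 2 * m)

/-- cyclic successor of a position `≤ 2m` -/
def nxt (m i : ℕ) : ℕ := if i = 2 * m then 0 else i + 1

/-- `y` is outside the hole and sees exactly `f i` and `f (nxt m i)` -/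
structure Att (G : SimpleGraph V) (m : ℕ) (f : ℕ → V) (i : ℕ) (y : V) : Prop where
  out : ∀ j ≤ 2 * m, y ≠ f j
  adj : ∀ j ≤ 2 * m, (G.Adj y (f j) ↔ (j = i ∨ j = nxt m i))

/-- `y 0, ..., y n` is an induced path -/
structure IndPath (G : SimpleGraph V) (n : ℕ) (y : ℕ → V) : Prop where
  inj : ∀ i ≤ n, ∀ j ≤ n, y i = y j → i = j
  adj : ∀ i j, i < j → j ≤ n → (G.Adj (y i) (y j) ↔ j = i + 1)

/-- `S` is a colouring of `w - 1_z` with `n` colours -/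
structure PC (G : SimpleGraph V) [DecidableEq V] (n : ℕ) (w : V → ℕ) (z : V)
    (S : Fin n → Finset V) : Prop where
  ind : ∀ i, G.IsIndepSet (S i : Set V)
  cnt : ∀ v, (∑ i, if v ∈ S i then 1 else 0) + (if v = z then 1 else 0) = w v

/-- three paths `a 0..a (2p)`, `e 0..e (2q+1)`, `y 0..y (2s)` whose ends are joined in two
triangles; no other edges -/
structure ThetaCfg (G : SimpleGraph V) (p q s : ℕ) (a e y : ℕ → V) : Prop where
  pa : IndPath G (2 * p) a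
  pe : IndPath G (2 * q + 1) e
  py : IndPath G (2 * s) y
  ae : ∀ i ≤ 2 * p, ∀ j ≤ 2 * q + 1, a i ≠ e j ∧
    (G.Adj (a i) (e j) ↔ (i = 0 ∧ j = 0) ∨ (i = 2 * p ∧ j = 2 * q + 1))
  ye : ∀ i ≤ 2 * s, ∀ j ≤ 2 * q + 1, y i ≠ e j ∧
    (G.Adj (y i) (e j) ↔ (i = 0 ∧ j = 0) ∨ (i = 2 * s ∧ j = 2 * q + 1))
  ay : ∀ i ≤ 2 * p, ∀ j ≤ 2 * s, a i ≠ y j ∧
    (G.Adj (a i) (y j) ↔ (i = 0 ∧ j = 0) ∨ (i = 2 * p ∧ j = 2 * s))

end Pool.MP_72f7ea_co.Idp
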