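import Pool.Agent.Lib.MP_72f7ea_co.Theta

/-! Facts A and B on odd holes of a claw-free h-perfect graph (helper15). -/

set_option autoImplicit false
set_option linter.unusedSectionVars false

namespace Pool.MP_72f7ea_co.Idp

open Finset

variable {V : Type} [Fintype V] [DecidableEq V] {G : SimpleGraph V}

theorem Hole.adj_iff {m : ℕ} {f : ℕ → V} (hf : Hole G m f) {a b : ℕ} (ha : a ≤ 2 * m)
    (hb : b ≤ 2 * m) :
    G.Adj (f a) (f b) ↔ (b = a + 1 ∨ a = b + 1 ∨ (a = 0 ∧ b = 2 * m) ∨ (b = 0 ∧ a = 2 * m)) := by
  constructor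
  · intro h
    rcases lt_trichotomy a b with hab | hab | hab
    · rcases hf.ind a b hab hb h with h1 | h1
      · exact Or.inl h1
      · exact Or.inr (Or.inr (Or.inl h1))
    · subst hab
      exact absurd h (G.loopless.irrefl _)
    · rcases hf.ind b a hab ha h.symm with h1 | h1
      · exact Or.inr (Or.inl h1)
      · exact Or.inr (Or.inr (Or.inr h1))
  · rintro (h | h | ⟨h, h'⟩ | ⟨h, h'⟩)
    · subst h; exact hf.adj a (by omega)
    · subst h; exact (hf.adj b (by omega)).symm
    · subst h; subst h'; exact hf.clo.symm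
    · subst h; subst h'; exact hf.clo

theorem Hole.ne {m : ℕ} {f : ℕ → V} (hf : Hole G m f) {a b : ℕ} (ha : a ≤ 2 * m)
    (hb : b ≤ 2 * m) (hab : a ≠ b) : f a ≠ f b := fun h => hab (hf.inj a ha b hb h)

/-- the key configuration lemma -/
theorem thetaHole (hP : HP G) {m : ℕ} {f : ℕ → V} (hf : Hole G m f) {s : ℕ} {y : ℕ → V}
    (hy : IndPath G (2 * s) y) (hout : ∀ t ≤ 2 * s, ∀ j ≤ 2 * m, y t ≠ f j) {i j : ℕ}
    (hij : i < j) (hj : j ≤ 2 * m)
    (hadj : ∀ t ≤ 2 * s, ∀ l ≤ 2 * m, (G.Adj (y t) (f l) ↔
      (t = 0 ∧ (l = i ∨ l = nxt m i)) ∨ (t = 2 * s ∧ (l = j ∨ l = nxt m j)))) : False := by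
  have htwo := hf.two
  have hni : nxt m i = i + 1 := by
    unfold nxt; rw [if_neg (by omega)]
  rw [hni] at hadj
  -- the second arc
  set g : ℕ → ℕ := fun t => if t ≤ i then i - t else i + 2 * m + 1 - t with hg
  have hgle : ∀ t ≤ 2 * m - (j - i), g t ≤ 2 * m := by
    intro t ht
    simp only [hg]
    split_ifs <;> omega
  have hnj : (nxt m j = 0 ∧ j = 2 * m) ∨ (nxt m j = j + 1 ∧ j < 2 * m) := by
    unfold nxt
    split_ifs with h
    · exact Or.inl ⟨rfl, h⟩
    · exact Or.inr ⟨rfl, by omega⟩
  rcases Nat.even_or_odd (j - i) with hev | hod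
  · obtain ⟨q', hq'⟩ := hev
    obtain ⟨q, rfl⟩ : ∃ q, q' = q + 1 := ⟨q' - 1, by omega⟩
    obtain ⟨p, hp⟩ : ∃ p, m = p + q + 1 := ⟨m - q - 1, by omega⟩
    have hcfg : ThetaCfg G p q s (fun t => f (g t)) (fun t => f (i + 1 + t)) y := by
      refine ⟨⟨?_, ?_⟩, ⟨?_, ?_⟩, hy, ?_, ?_, ?_⟩
      · intro a ha b hb hab
        have h1 := hf.inj _ (hgle a (by omega)) _ (hgle b (by omega)) hab
        simp only [hg] at h1
        split_ifs at h1 <;> omega
      · intro a b hab hb
        rw [hf.adj_iff (hgle a (by omega)) (hgle b (by omega))]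
        simp only [hg]
        split_ifs <;> omega
      · intro a ha b hb hab
        have h1 := hf.inj _ (by omega) _ (by omega) hab
        omega
      · intro a b hab hb
        rw [hf.adj_iff (by omega) (by omega)]
        omega
      · intro a ha b hb
        refine ⟨hf.ne (hgle a (by omega)) (by omega) ?_, ?_⟩
        · simp only [hg]
          split_ifs <;> omega
        · rw [hf.adj_iff (hgle a (by omega)) (by omega)]
          simp only [hg]
          split_ifs <;> omega
      · intro a ha b hb
        refine ⟨hout a ha _ (by omega), ?_⟩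
        rw [hadj a ha _ (by omega)]
        omega
      · intro a ha b hb
        refine ⟨(hout b hb _ (hgle a (by omega))).symm, ?_⟩
        rw [G.adj_comm, hadj b hb _ (hgle a (by omega))]
        simp only [hg]
        split_ifs <;> omega
    exact theta_false hP hcfg (by omega)
  · obtain ⟨p, hp⟩ := hod
    obtain ⟨q, hq⟩ : ∃ q, m = p + q + 1 := ⟨m - p - 1, by omega⟩
    have hcfg : ThetaCfg G p q s (fun t => f (i + 1 + t)) (fun t => f (g t)) y := by
      refine ⟨⟨?_, ?_⟩, ⟨?_, ?_⟩, hy, ?_, ?_, ?_⟩
      · intro a ha b hb hab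
        have h1 := hf.inj _ (by omega) _ (by omega) hab
        omega
      · intro a b hab hb
        rw [hf.adj_iff (by omega) (by omega)]
        omega
      · intro a ha b hb hab
        have h1 := hf.inj _ (hgle a (by omega)) _ (hgle b (by omega)) hab
        simp only [hg] at h1
        split_ifs at h1 <;> omega
      · intro a b hab hb
        rw [hf.adj_iff (hgle a (by omega)) (hgle b (by omega))]
        simp only [hg]
        split_ifs <;> omega
      · intro a ha b hb
        refine ⟨hf.ne (by omega) (hgle b (by omega)) ?_, ?_⟩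
        · simp only [hg]
          split_ifs <;> omega
        · rw [hf.adj_iff (by omega) (hgle b (by omega))]
          simp only [hg]
          split_ifs <;> omega
      · intro a ha b hb
        refine ⟨hout a ha _ (hgle b (by omega)), ?_⟩
        rw [hadj a ha _ (hgle b (by omega))]
        simp only [hg]
        split_ifs <;> omega
      · intro a ha b hb
        refine ⟨(hout b hb _ (by omega)).symm, ?_⟩
        rw [G.adj_comm, hadj b hb _ (by omega)]
        omega
    exact theta_false hP hcfg (by omega)

/-- no odd ear between different junctions -/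
theorem factB (hP : HP G) {m : ℕ} {f : ℕ → V} (hf : Hole G m f) {s : ℕ} (hs : 1 ≤ s)
    {y : ℕ → V} (hy : IndPath G (2 * s) y) (hout : ∀ t ≤ 2 * s, ∀ j ≤ 2 * m, y t ≠ f j)
    {i j : ℕ} (hi : i ≤ 2 * m) (hj : j ≤ 2 * m) (hij : i ≠ j)
    (h0 : Att G m f i (y 0)) (h1 : Att G m f j (y (2 * s)))
    (hin : ∀ t, 0 < t → t < 2 * s → ∀ l ≤ 2 * m, ¬ G.Adj (y t) (f l)) : False := by
  rcases lt_or_gt_of_ne hij with hlt | hlt
  · refine thetaHole hP hf hy hout hlt hj ?_
    intro t ht l hl
    rcases Nat.eq_zero_or_pos t with h | h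
    · subst h
      rw [h0.adj l hl]
      omega
    · rcases Nat.lt_or_ge t (2 * s) with h' | h'
      · constructor
        · intro h2; exact absurd h2 (hin t h h' l hl)
        · omega
      · obtain rfl : t = 2 * s := by omega
        rw [h1.adj l hl]
        omega
  · have hy' : IndPath G (2 * s) (fun t => y (2 * s - t)) := by
      refine ⟨?_, ?_⟩
      · intro a ha b hb hab
        have := hy.inj _ (by omega) _ (by omega) hab
        omega
      · intro a b hab hb
        rw [G.adj_comm, hy.adj _ _ (by omega) (by omega)]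
        omega
    refine thetaHole hP hf hy' (fun t ht j hj => hout _ (by omega) j hj) hlt hi ?_
    intro t ht l hl
    rcases Nat.eq_zero_or_pos t with h | h
    · subst h
      simp only [Nat.sub_zero, true_and]
      rw [h1.adj l hl]
      omega
    · rcases Nat.lt_or_ge t (2 * s) with h' | h'
      · constructor
        · intro h2; exact absurd h2 (hin _ (by omega) (by omega) l hl)
        · omega
      · obtain rfl : t = 2 * s := by omega
        simp only [Nat.sub_self, true_and]
        rw [h0.adj l hl]
        omega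

/-- index of the rotation -/
def rot (m r t : ℕ) : ℕ := if t + r ≤ 2 * m then t + r else t + r - (2 * m + 1)

theorem Hole.rotate {m : ℕ} {f : ℕ → V} (hf : Hole G m f) {r : ℕ} (hr : r ≤ 2 * m) :
    Hole G m (fun t => f (rot m r t)) := by
  have htwo := hf.two
  have hle : ∀ t ≤ 2 * m, rot m r t ≤ 2 * m := by
    intro t ht; unfold rot; split_ifs <;> omega
  refine ⟨⟨?_, ?_, ?_⟩, htwo, ?_⟩
  · intro a ha b hb hab
    have h1 := hf.inj _ (hle a ha) _ (hle b hb) hab
    unfold rot at h1
    split_ifs at h1 <;> omega
  · intro a ha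
    rw [hf.adj_iff (hle a (by omega)) (hle _ (by omega))]
    unfold rot
    split_ifs <;> omega
  · rw [hf.adj_iff (hle _ (by omega)) (hle _ (by omega))]
    unfold rot
    split_ifs <;> omega
  · intro a b hab hb h
    rw [hf.adj_iff (hle _ (by omega)) (hle _ (by omega))] at h
    unfold rot at h
    split_ifs at h <;> omega

/-- fact A, when the vertex sees `f 0` and not `f (2m)` -/
theorem factA_aux (hc : ClawFree G) (hP : HP G) {m : ℕ} {f : ℕ → V} (hf : Hole G m f) {y : V}
    (hy : ∀ j ≤ 2 * m, y ≠ f j) (h0 : G.Adj y (f 0)) (h2m : ¬ G.Adj y (f (2 * m))) :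
    Att G m f 0 y := by
  have htwo := hf.two
  -- no isolated neighbour
  have hiso : ∀ l, 0 < l → l < 2 * m → G.Adj y (f l) → G.Adj y (f (l - 1)) ∨ G.Adj y (f (l + 1)) := by
    intro l hl0 hl hadj
    have h1 : G.Adj (f l) (f (l - 1)) := by
      rw [hf.adj_iff (by omega) (by omega)]; omega
    have h2 : G.Adj (f l) (f (l + 1)) := by
      rw [hf.adj_iff (by omega) (by omega)]; omega
    rcases hc (f l) y (f (l - 1)) (f (l + 1)) hadj.symm h1 h2 (hy _ (by omega)) (hy _ (by omega))
      (hf.ne (by omega) (by omega) (by omega)) with h | h | h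
    · exact Or.inl h
    · exact Or.inr h
    · rw [hf.adj_iff (by omega) (by omega)] at h
      omega
  -- no stable triple
  have htri : ∀ a b c, a + 2 ≤ b → b + 2 ≤ c → c ≤ 2 * m → ¬ (a = 0 ∧ c = 2 * m) →
      G.Adj y (f a) → G.Adj y (f b) → G.Adj y (f c) → False := by
    intro a b c hab hbc hc' hac ha hb hc2
    rcases hc y (f a) (f b) (f c) ha hb hc2 (hf.ne (by omega) (by omega) (by omega))
      (hf.ne (by omega) (by omega) (by omega)) (hf.ne (by omega) (by omega) (by omega)) with h | h | h
    · rw [hf.adj_iff (by omega) (by omega)] at h; omega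
    · rw [hf.adj_iff (by omega) (by omega)] at h; omega
    · rw [hf.adj_iff (by omega) (by omega)] at h; omega
  have h1 : G.Adj y (f 1) := by
    have h1' : G.Adj (f 0) (f (2 * m)) := by
      rw [hf.adj_iff (by omega) (by omega)]; omega
    have h2' : G.Adj (f 0) (f 1) := by
      rw [hf.adj_iff (by omega) (by omega)]; omega
    rcases hc (f 0) y (f (2 * m)) (f 1) h0.symm h1' h2' (hy _ (by omega)) (hy _ (by omega))
      (hf.ne (by omega) (by omega) (by omega)) with h | h | h
    · exact absurd h h2m
    · exact h
    · rw [hf.adj_iff (by omega) (by omega)] at h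
      omega
  have hn0 : nxt m 0 = 1 := by unfold nxt; rw [if_neg (by omega)]
  -- path with one vertex
  have hyp : IndPath G (2 * 0) (fun _ => y) := by
    refine ⟨?_, ?_⟩
    · intro a ha b hb _; omega
    · intro a b hab hb; omega
  by_cases hex : ∃ l, 2 ≤ l ∧ l ≤ 2 * m ∧ G.Adj y (f l)
  · exfalso
    classical
    obtain ⟨hl2, hlm, hladj⟩ := Nat.find_spec hex
    set l := Nat.find hex with hl
    have hmin : ∀ l', l' < l → ¬ (2 ≤ l' ∧ l' ≤ 2 * m ∧ G.Adj y (f l')) := fun l' h => Nat.find_min hex h
    have hl2m : l < 2 * m := by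
      rcases Nat.lt_or_ge l (2 * m) with h | h
      · exact h
      · exfalso; apply h2m
        obtain h' : l = 2 * m := by omega
        rw [← h']; exact hladj
    rcases Nat.lt_or_ge 2 l with h3 | h3
    · -- l ≥ 3
      have hl1 : G.Adj y (f (l + 1)) := by
        rcases hiso l (by omega) hl2m hladj with h | h
        · exact absurd ⟨by omega, by omega, h⟩ (hmin (l - 1) (by omega))
        · exact h
      have hl1m : l + 1 < 2 * m := by
        rcases Nat.lt_or_ge (l + 1) (2 * m) with h | h
        · exact h
        · exfalso; apply h2m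
          obtain h' : l + 1 = 2 * m := by omega
          rw [← h']; exact hl1
      refine thetaHole hP hf (s := 0) hyp (fun t _ j hj => hy j hj) (i := 0) (j := l) (by omega)
        (by omega) ?_
      intro t ht b hb
      have hnl : nxt m l = l + 1 := by unfold nxt; rw [if_neg (by omega)]
      rw [hn0, hnl]
      constructor
      · intro hb'
        by_contra hcon
        rcases Nat.lt_or_ge b l with h | h
        · exact hmin b h ⟨by omega, hb, hb'⟩
        · exact htri 0 l b (by omega) (by omega) hb (by
            rintro ⟨_, h⟩; apply h2m; rw [← h]; exact hb') h0 hladj hb'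
      · rintro (⟨_, h | h⟩ | ⟨_, h | h⟩)
        · rw [h]; exact h0
        · rw [h]; exact h1
        · rw [h]; exact hladj
        · rw [h]; exact hl1
    · -- l = 2
      have hl_eq : l = 2 := by omega
      rw [hl_eq] at hladj hl2m
      have hbig : ∀ b ≤ 2 * m, G.Adj y (f b) → b < 4 := by
        intro b hb hb'
        by_contra hcon
        exact htri 0 2 b (by omega) (by omega) hb (by
            rintro ⟨_, h⟩; apply h2m; rw [← h]; exact hb') h0 hladj hb'
      by_cases h3' : G.Adj y (f 3)
      · refine thetaHole hP hf (s := 0) hyp (fun t _ j hj => hy j hj) (i := 0) (j := 2) (by omega)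
          (by omega) ?_
        intro t ht b hb
        have hnl : nxt m 2 = 3 := by unfold nxt; rw [if_neg (by omega)]
        rw [hn0, hnl]
        constructor
        · intro hb'
          have := hbig b hb hb'
          omega
        · rintro (⟨_, h | h⟩ | ⟨_, h | h⟩)
          · rw [h]; exact h0
          · rw [h]; exact h1
          · rw [h]; exact hladj
          · rw [h]; exact h3'
      · refine thetaHole hP hf (s := 0) hyp (fun t _ j hj => hy j hj) (i := 0) (j := 1) (by omega)
          (by omega) ?_
        intro t ht b hb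
        have hnl : nxt m 1 = 2 := by unfold nxt; rw [if_neg (by omega)]
        rw [hn0, hnl]
        constructor
        · intro hb'
          have := hbig b hb hb'
          have h3b : b ≠ 3 := by
            rintro rfl; exact h3' hb'
          omega
        · rintro (⟨_, h | h⟩ | ⟨_, h | h⟩)
          · rw [h]; exact h0
          · rw [h]; exact h1
          · rw [h]; exact h1
          · rw [h]; exact hladj
  · refine ⟨hy, ?_⟩
    intro j hj
    rw [hn0]
    constructor
    · intro h
      by_contra hcon
      exact hex ⟨j, by omega, hj, h⟩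
    · rintro (rfl | rfl)
      · exact h0
      · exact h1

/-- an outside vertex sees nothing or exactly two consecutive vertices of an odd hole -/
theorem factA (hc : ClawFree G) (hP : HP G) {m : ℕ} {f : ℕ → V} (hf : Hole G m f) {y : V}
    (hy : ∀ j ≤ 2 * m, y ≠ f j) (ha : ∃ j ≤ 2 * m, G.Adj y (f j)) :
    ∃ i ≤ 2 * m, Att G m f i y := by
  have htwo := hf.two
  by_cases hr : ∃ r ≤ 2 * m, G.Adj y (f r) ∧ ¬ G.Adj y (f (rot m r (2 * m)))
  · obtain ⟨r, hr, h0, h2m⟩ := hr
    have hle : ∀ t ≤ 2 * m, rot m r t ≤ 2 * m := by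
      intro t ht; unfold rot; split_ifs <;> omega
    have hrot0 : rot m r 0 = r := by
      unfold rot; split_ifs <;> omega
    have hA := factA_aux hc hP (hf.rotate hr) (y := y) (fun j hj => hy _ (hle j hj))
      (by show G.Adj y (f (rot m r 0)); rw [hrot0]; exact h0) h2m
    refine ⟨r, hr, hy, ?_⟩
    intro j hj
    obtain ⟨t, ht, htj⟩ : ∃ t ≤ 2 * m, rot m r t = j := by
      rcases Nat.lt_or_ge j r with h | h
      · refine ⟨j + (2 * m + 1) - r, by omega, ?_⟩
        unfold rot; split_ifs <;> omega
      · refine ⟨j - r, by omega, ?_⟩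
        unfold rot; split_ifs <;> omega
    have h3 := hA.adj t ht
    simp only [htj] at h3
    rw [h3]
    have hn0 : nxt m 0 = 1 := by unfold nxt; rw [if_neg (by omega)]
    rw [hn0]
    unfold nxt
    unfold rot at htj
    split_ifs at htj ⊢ <;> omega
  · exfalso
    push Not at hr
    have hdown : ∀ k j, j + k ≤ 2 * m → G.Adj y (f (j + k)) → G.Adj y (f j) := by
      intro k
      induction k with
      | zero => intro j _ h; exact h
      | succ k ih =>
        intro j hj h
        apply ih j (by omega)
        have h1 := hr (j + (k + 1)) hj h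
        have h2 : rot m (j + (k + 1)) (2 * m) = j + k := by
          unfold rot; split_ifs <;> omega
        rw [h2] at h1
        exact h1
    obtain ⟨j, hj, haj⟩ := ha
    have h0 : G.Adj y (f 0) := hdown j 0 (by omega) (by simpa using haj)
    have h2m : G.Adj y (f (2 * m)) := by
      have h1 := hr 0 (by omega) h0
      have h2 : rot m 0 (2 * m) = 2 * m := by
        unfold rot; split_ifs <;> omega
      rw [h2] at h1
      exact h1
    have hall : ∀ j ≤ 2 * m, G.Adj y (f j) := by
      intro j hj
      refine hdown (2 * m - j) j (by omega) ?_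
      have : j + (2 * m - j) = 2 * m := by omega
      rw [this]; exact h2m
    rcases Nat.lt_or_ge m 3 with h | h
    · obtain rfl : m = 2 := by omega
      exact wheel_false hP hf hy hall
    · rcases hc y (f 0) (f 2) (f 4) (hall _ (by omega)) (hall _ (by omega)) (hall _ (by omega))
        (hf.ne (by omega) (by omega) (by omega))
        (hf.ne (by omega) (by omega) (by omega)) (hf.ne (by omega) (by omega) (by omega)) with h | h | h
      · rw [hf.adj_iff (by omega) (by omega)] at h; omega
      · rw [hf.adj_iff (by omega) (by omega)] at h; omega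
      · rw [hf.adj_iff (by omega) (by omega)] at h; omega

end Pool.MP_72f7ea_co.Idp
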