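import Pool.Agent.Lib.MP_72f7ea_co.Defs

/-!
# Translation between walks and functions, and the polytope

`cyc_of_walk`, `walk_of_cyc`, `result_of_main`.
-/

set_option autoImplicit false

namespace Pool.MP_72f7ea_co.Idp

open Finset

variable {V : Type} [Fintype V] [DecidableEq V] {G : SimpleGraph V}

omit [Fintype V] in
theorem cyc_of_walk {u : V} (p : G.Walk u u) (hp : p.IsCycle) (ho : Odd p.length) :
    ∃ m f, OddCyc G m f ∧ p.length = 2 * m + 1 ∧
      p.support.toFinset = (range (2 * m + 1)).image f := by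
  obtain ⟨m, hm⟩ := ho
  refine ⟨m, p.getVert, ⟨?_, ?_, ?_⟩, hm, ?_⟩
  · intro i hi j hj hij
    exact hp.getVert_injOn' (by simp only [Set.mem_ofPred_eq]; omega)
      (by simp only [Set.mem_ofPred_eq]; omega) hij
  · intro i hi
    exact p.adj_getVert_succ (by omega)
  · have h := p.adj_getVert_succ (i := 2 * m) (by omega)
    rw [← hm, p.getVert_length] at h
    rwa [p.getVert_zero]
  · ext v
    rw [List.mem_toFinset, Finset.mem_image, SimpleGraph.Walk.mem_support_iff_exists_getVert]
    constructor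
    · rintro ⟨n, hn, hn'⟩
      by_cases h : n = p.length
      · refine ⟨0, by simp, ?_⟩
        rw [← hn, h, p.getVert_length, p.getVert_zero]
      · exact ⟨n, Finset.mem_range.2 (by omega), hn⟩
    · rintro ⟨n, hn, hn'⟩
      rw [Finset.mem_range] at hn
      exact ⟨n, hn', by omega⟩

omit [Fintype V] [DecidableEq V] in
theorem walk_aux {f : ℕ → V} : ∀ n : ℕ, (∀ i < n, G.Adj (f i) (f (i + 1))) →
    ∃ p : G.Walk (f 0) (f n), p.length = n ∧ p.support = (List.range (n + 1)).map f ∧
      ∀ e ∈ p.edges, ∃ i < n, e = s(f i, f (i + 1)) := by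
  intro n
  induction n with
  | zero => intro _; exact ⟨SimpleGraph.Walk.nil, by simp⟩
  | succ n ih =>
    intro h
    obtain ⟨p, h1, h2, h3⟩ := ih fun i hi => h i (by omega)
    refine ⟨p.concat (h n (by omega)), ?_, ?_, ?_⟩
    · rw [SimpleGraph.Walk.length_concat, h1]
    · rw [SimpleGraph.Walk.support_concat, h2, List.range_succ (n := n + 1)]
      simp
    · intro e he
      rw [SimpleGraph.Walk.edges_concat, List.concat_eq_append, List.mem_append] at he
      rcases he with he | he
      · obtain ⟨i, hi, e1⟩ := h3 e he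
        exact ⟨i, by omega, e1⟩
      · exact ⟨n, by omega, by simpa using he⟩

omit [Fintype V] in
theorem walk_of_cyc {m : ℕ} {f : ℕ → V} (hf : OddCyc G m f) :
    ∃ (u : V) (p : G.Walk u u), p.IsCycle ∧ p.length = 2 * m + 1 ∧
      p.support.toFinset = (range (2 * m + 1)).image f := by
  obtain ⟨p, h1, h2, h3⟩ := walk_aux (2 * m) hf.adj
  have hm : 1 ≤ m := by
    by_contra h
    have : m = 0 := by omega
    subst this
    exact G.irrefl hf.clo
  refine ⟨f (2 * m), SimpleGraph.Walk.cons hf.clo p, ?_, ?_, ?_⟩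
  · rw [SimpleGraph.Walk.cons_isCycle_iff]
    constructor
    · rw [SimpleGraph.Walk.isPath_def, h2]
      refine List.Nodup.map_on ?_ List.nodup_range
      intro i hi j hj hij
      rw [List.mem_range] at hi hj
      exact hf.inj i (by omega) j (by omega) hij
    · intro he
      obtain ⟨i, hi, e⟩ := h3 _ he
      rw [Sym2.eq_iff] at e
      rcases e with ⟨e1, e2⟩ | ⟨e1, e2⟩
      · have := hf.inj _ (by omega) _ (by omega) e1
        omega
      · have a1 := hf.inj _ (by omega) _ (by omega) e1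
        have a2 := hf.inj 0 (by omega) i (by omega) e2
        omega
  · rw [SimpleGraph.Walk.length_cons, h1]
  · rw [SimpleGraph.Walk.support_cons, h2]
    ext v
    simp only [List.toFinset_cons, Finset.mem_insert, List.mem_toFinset, List.mem_map,
      List.mem_range, Finset.mem_image, Finset.mem_range]
    constructor
    · rintro (h | h)
      · exact ⟨2 * m, by omega, h.symm⟩
      · exact h
    · intro h; exact Or.inr h

omit [Fintype V] in
theorem sum_cyc {M : Type*} [AddCommMonoid M] {m : ℕ} {f : ℕ → V} (hf : OddCyc G m f) (x : V → M) :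
    ∑ v ∈ (range (2 * m + 1)).image f, x v = ∑ i ∈ range (2 * m + 1), x (f i) := by
  apply Finset.sum_image
  intro i hi j hj hij
  simp only [Finset.coe_range, Set.mem_Iio] at hi hj
  exact hf.inj i (by omega) j (by omega) hij

theorem result_of_main
    (hmain : ∀ (V : Type) [Fintype V] [DecidableEq V] (G : SimpleGraph V), ClawFree G → HP G →
      ∀ k w, HW G k w → Colorable G k w) :
  ∀ (V : Type) [Fintype V] [DecidableEq V] (G : SimpleGraph V) (P : Set (V → ℝ)),
    P = convexHull ℝ {y : V → ℝ | ∃ S : Finset V, G.IsIndepSet (S : Set V) ∧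
          y = fun v => if v ∈ S then (1 : ℝ) else 0} →
    (∀ c a b d : V, G.Adj c a → G.Adj c b → G.Adj c d → a ≠ b → a ≠ d → b ≠ d →
        G.Adj a b ∨ G.Adj a d ∨ G.Adj b d) →
    P = {x : V → ℝ | (∀ v, 0 ≤ x v) ∧
          (∀ K : Finset V, G.IsClique (K : Set V) → ∑ v ∈ K, x v ≤ 1) ∧
          (∀ (u : V) (p : G.Walk u u), p.IsCycle → Odd p.length →
              ∑ v ∈ p.support.toFinset, x v ≤ ((p.length : ℝ) - 1) / 2)} →
    ∀ k : ℕ, 1 ≤ k → ∀ x : V → ℤ, (∃ z ∈ P, ∀ v, (x v : ℝ) = (k : ℝ) * z v) →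
      ∃ y : Fin k → V → ℤ, (∀ i, (fun v => (y i v : ℝ)) ∈ P) ∧ ∀ v, ∑ i, y i v = x v := by
  intro V _ _ G P hP hclaw hH k hk x hx
  have hHP : HP G := by
    intro x hx c
    have hxP : x ∈ P := by
      rw [hH]
      refine ⟨hx.nonneg, hx.cl, ?_⟩
      intro u p hp ho
      obtain ⟨m, f, hf, hl, hs⟩ := cyc_of_walk p hp ho
      rw [hs, sum_cyc hf, hl]
      refine (hx.cyc m f hf).trans (le_of_eq ?_)
      push_cast; ring
    rw [hP] at hxP
    by_contra hcon
    push Not at hcon
    have hconv : Convex ℝ {y : V → ℝ | ∑ v, c v * y v < ∑ v, c v * x v} := by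
      intro a ha b hb s t hs ht hst
      simp only [Set.mem_ofPred_eq] at ha hb ⊢
      have e : ∑ v, c v * (s • a + t • b) v = s * ∑ v, c v * a v + t * ∑ v, c v * b v := by
        rw [Finset.mul_sum, Finset.mul_sum, ← Finset.sum_add_distrib]
        refine Finset.sum_congr rfl fun v _ => ?_
        simp only [Pi.add_apply, Pi.smul_apply, smul_eq_mul]; ring
      rw [e]
      rcases hs.eq_or_lt with h | h
      · subst h
        have : t = 1 := by linarith
        subst this
        linarith
      · have e2 : ∑ v, c v * x v = s * ∑ v, c v * x v + t * ∑ v, c v * x v := by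
          rw [← add_mul, hst, one_mul]
        rw [e2]
        exact add_lt_add_of_lt_of_le (mul_lt_mul_of_pos_left ha h)
          (mul_le_mul_of_nonneg_left hb.le ht)
    have hsub : {y : V → ℝ | ∃ S : Finset V, G.IsIndepSet (S : Set V) ∧
          y = fun v => if v ∈ S then (1 : ℝ) else 0} ⊆
        {y : V → ℝ | ∑ v, c v * y v < ∑ v, c v * x v} := by
      rintro y ⟨S, hS, rfl⟩
      simp only [Set.mem_ofPred_eq]
      refine lt_of_eq_of_lt ?_ (hcon S hS)
      simp
    have := convexHull_min hsub hconv hxP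
    simp only [Set.mem_ofPred_eq, lt_self_iff_false] at this
  obtain ⟨z, hz, hxz⟩ := hx
  have hz' := hz
  rw [hH] at hz'
  obtain ⟨hz0, hz1, hz2⟩ := hz'
  have hk0 : (0:ℝ) ≤ k := Nat.cast_nonneg k
  have hx0 : ∀ v, 0 ≤ x v := by
    intro v
    have : (0:ℝ) ≤ x v := by rw [hxz v]; exact mul_nonneg hk0 (hz0 v)
    exact_mod_cast this
  have hw : ∀ v, (((x v).toNat : ℕ) : ℝ) = k * z v := by
    intro v
    rw [← hxz v]
    have : (((x v).toNat : ℕ) : ℤ) = x v := Int.toNat_of_nonneg (hx0 v)
    exact_mod_cast congrArg (fun n : ℤ => (n : ℝ)) this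
  have hHW : HW G k (fun v => (x v).toNat) := by
    constructor
    · intro K hK
      have h1 : ((∑ v ∈ K, (x v).toNat : ℕ) : ℝ) ≤ k := by
        push_cast
        rw [Finset.sum_congr rfl fun v _ => hw v, ← Finset.mul_sum]
        calc (k:ℝ) * ∑ v ∈ K, z v ≤ k * 1 := mul_le_mul_of_nonneg_left (hz1 K hK) hk0
          _ = k := mul_one _
      exact_mod_cast h1
    · intro m f hf
      obtain ⟨u, p, hp, hl, hs⟩ := walk_of_cyc hf
      have h2 := hz2 u p hp (by rw [hl]; exact ⟨m, rfl⟩)
      rw [hs, sum_cyc hf, hl] at h2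
      have h1 : ((∑ i ∈ range (2 * m + 1), (x (f i)).toNat : ℕ) : ℝ) ≤ (k * m : ℕ) := by
        push_cast
        rw [Finset.sum_congr rfl fun v _ => hw (f v), ← Finset.mul_sum]
        apply mul_le_mul_of_nonneg_left _ hk0
        refine h2.trans (le_of_eq ?_)
        push_cast; ring
      exact_mod_cast h1
  obtain ⟨S, hS, hsum⟩ := hmain V G hclaw hHP k _ hHW
  refine ⟨fun i v => if v ∈ S i then 1 else 0, ?_, ?_⟩
  · intro i
    rw [hP]
    apply subset_convexHull
    refine ⟨S i, hS i, ?_⟩
    funext v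
    by_cases h : v ∈ S i <;> simp [h]
  · intro v
    have h1 : (∑ i, if v ∈ S i then 1 else 0) = (x v).toNat := hsum v
    have h2 : (((x v).toNat : ℕ) : ℤ) = x v := Int.toNat_of_nonneg (hx0 v)
    rw [← h2, ← h1]
    push_cast
    rfl

end Pool.MP_72f7ea_co.Idp
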