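import Pool.Agent.Lib.MP_72f7ea_co.Defs

/-! Theta configurations and odd wheels do not occur in h-perfect graphs. -/

set_option autoImplicit false

namespace Pool.MP_72f7ea_co.Idp

open Finset

variable {V : Type} [Fintype V] [DecidableEq V] {G : SimpleGraph V}

/-- weight function supported on the path `a 0, ..., a n` -/
def pf {M : Type} [AddCommMonoid M] (n : ℕ) (a : ℕ → V) (g : ℕ → M) (v : V) : M :=
  ∑ i ∈ range (n + 1), if v = a i then g i else 0

omit [Fintype V] in
theorem pf_self {M : Type} [AddCommMonoid M] {n : ℕ} {a : ℕ → V} (g : ℕ → M)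
    (h : ∀ i ≤ n, ∀ j ≤ n, a i = a j → i = j) {i : ℕ} (hi : i ≤ n) : pf n a g (a i) = g i := by
  unfold pf
  rw [Finset.sum_eq_single i]
  · simp
  · intro b hb hbi
    rw [if_neg]
    intro hab
    exact hbi (h i hi b (by simpa [Nat.lt_succ_iff] using hb) hab).symm
  · intro hn
    exact absurd (by simpa [Nat.lt_succ_iff] using hi) hn

omit [Fintype V] in
theorem pf_zero {M : Type} [AddCommMonoid M] {n : ℕ} {a : ℕ → V} (g : ℕ → M) {v : V}
    (h : ∀ i ≤ n, v ≠ a i) : pf n a g v = 0 := by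
  unfold pf
  refine Finset.sum_eq_zero fun i hi => ?_
  rw [if_neg (h i (by simpa [Nat.lt_succ_iff] using hi))]

omit [Fintype V] in
theorem pf_sum {M : Type} [AddCommMonoid M] (n : ℕ) (a : ℕ → V) (g : ℕ → M) (K : Finset V) :
    ∑ v ∈ K, pf n a g v = ∑ i ∈ range (n + 1), if a i ∈ K then g i else 0 := by
  unfold pf
  rw [Finset.sum_comm]
  refine Finset.sum_congr rfl fun i _ => ?_
  rw [Finset.sum_ite_eq']

omit [Fintype V] in
/-- a clique meets an induced path in at most two consecutive vertices -/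
theorem clique_path {n : ℕ} {a : ℕ → V} (ha : IndPath G n a) {K : Finset V}
    (hK : G.IsClique (K : Set V)) (g : ℕ → ℕ) (c : ℕ) (h1 : ∀ i ≤ n, a i ∈ K → g i ≤ c)
    (h2 : ∀ i, i + 1 ≤ n → a i ∈ K → a (i + 1) ∈ K → g i + g (i + 1) ≤ c) :
    (∑ i ∈ range (n + 1), if a i ∈ K then g i else 0) ≤ c := by
  classical
  by_cases hex : ∃ i, i ≤ n ∧ a i ∈ K
  · set i := Nat.find hex with hi
    obtain ⟨hin, hiK⟩ := Nat.find_spec hex
    have hmin : ∀ j, j < i → ¬ (j ≤ n ∧ a j ∈ K) := fun j hj => Nat.find_min hex hj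
    rw [← hi] at hin hiK
    have key : ∀ j ≤ n, a j ∈ K → j = i ∨ j = i + 1 := by
      intro j hj hjK
      rcases lt_trichotomy j i with hlt | heq | hgt
      · exact absurd ⟨hj, hjK⟩ (hmin j hlt)
      · exact Or.inl heq
      · right
        have hne : a i ≠ a j := fun h => by
          have := ha.inj i hin j hj h
          omega
        have hadj : G.Adj (a i) (a j) := hK (by exact_mod_cast hiK) (by exact_mod_cast hjK) hne
        exact (ha.adj i j hgt hj).1 hadj
    by_cases h3 : i + 1 ≤ n ∧ a (i + 1) ∈ K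
    · calc (∑ j ∈ range (n + 1), if a j ∈ K then g j else 0)
          ≤ ∑ j ∈ range (n + 1), ((if j = i then g i else 0) + if j = i + 1 then g (i + 1) else 0) := by
            refine Finset.sum_le_sum fun j hj => ?_
            have hj' : j ≤ n := by simpa [Nat.lt_succ_iff] using hj
            by_cases hjK : a j ∈ K
            · rcases key j hj' hjK with h | h
              · subst h
                simp [hjK]
              · subst h
                simp [hjK]
            · simp [hjK]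
        _ = g i + g (i + 1) := by
            rw [Finset.sum_add_distrib, Finset.sum_ite_eq', Finset.sum_ite_eq']
            rw [if_pos (by simp; omega), if_pos (by simp; omega)]
        _ ≤ c := h2 i h3.1 hiK h3.2
    · calc (∑ j ∈ range (n + 1), if a j ∈ K then g j else 0)
          ≤ ∑ j ∈ range (n + 1), (if j = i then g i else 0) := by
            refine Finset.sum_le_sum fun j hj => ?_
            have hj' : j ≤ n := by simpa [Nat.lt_succ_iff] using hj
            by_cases hjK : a j ∈ K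
            · rcases key j hj' hjK with h | h
              · subst h
                simp [hjK]
              · exfalso
                subst h
                exact h3 ⟨hj', hjK⟩
            · simp [hjK]
        _ = g i := by
            rw [Finset.sum_ite_eq']
            rw [if_pos (by simp; omega)]
        _ ≤ c := h1 i hin hiK
  · push Not at hex
    have : (∑ i ∈ range (n + 1), if a i ∈ K then g i else 0) = 0 := by
      refine Finset.sum_eq_zero fun i hi => ?_
      rw [if_neg (hex i (by simpa [Nat.lt_succ_iff] using hi))]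
    omega

/-- twice a sum over an odd cycle, as a sum over the edges -/
theorem cyc_double (X : ℕ → ℕ) (n : ℕ) :
    2 * ∑ i ∈ range (n + 1), X i = (∑ i ∈ range n, (X i + X (i + 1))) + (X n + X 0) := by
  induction n with
  | zero => simp; ring
  | succ n ih =>
    rw [Finset.sum_range_succ X (n + 1), Finset.sum_range_succ (fun i => X i + X (i + 1)) n]
    omega

omit [Fintype V] [DecidableEq V] in
theorem cyc_parity {m : ℕ} {f : ℕ → V} (X : V → ℕ)
    (h : ∀ i < 2 * m, X (f i) + X (f (i + 1)) = 1) (h0 : X (f (2 * m)) + X (f 0) = 1) :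
    False := by
  have := cyc_double (fun i => X (f i)) (2 * m)
  have h2 : ∑ i ∈ range (2 * m), (X (f i) + X (f (i + 1))) = 2 * m := by
    rw [Finset.sum_congr rfl (fun i hi => h i (by simpa using hi))]
    simp
  omega

omit [Fintype V] [DecidableEq V] in
/-- if the edge inequalities hold, then the sum over an odd cycle is at most `2m+1`, with equality
only if the weight is one everywhere -/
theorem cyc_half {m : ℕ} {f : ℕ → V} (X : V → ℕ)
    (h : ∀ i < 2 * m, X (f i) + X (f (i + 1)) ≤ 2) (h0 : X (f (2 * m)) + X (f 0) ≤ 2) :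
    (∑ i ∈ range (2 * m + 1), X (f i) ≤ 2 * m) ∨
      ((∑ i ∈ range (2 * m + 1), X (f i) = 2 * m + 1) ∧ ∀ i ≤ 2 * m, X (f i) = 1) := by
  have hd := cyc_double (fun i => X (f i)) (2 * m)
  have hle : ∑ i ∈ range (2 * m), (X (f i) + X (f (i + 1))) ≤ 2 * (2 * m) := by
    calc ∑ i ∈ range (2 * m), (X (f i) + X (f (i + 1))) ≤ ∑ _i ∈ range (2 * m), 2 :=
          Finset.sum_le_sum fun i hi => h i (by simpa using hi)
      _ = 2 * (2 * m) := by simp; ring
  by_cases hall : ∀ i ≤ 2 * m, X (f i) = 1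
  · right
    refine ⟨?_, hall⟩
    rw [Finset.sum_congr rfl (fun i hi => hall i (by simpa [Nat.lt_succ_iff] using hi))]
    simp
  · left
    by_contra hcon
    push Not at hcon
    apply hall
    -- all edges are tight
    have htight : ∀ i < 2 * m, X (f i) + X (f (i + 1)) = 2 := by
      by_contra hnt
      push Not at hnt
      obtain ⟨i, hi, hne⟩ := hnt
      have hlt : ∑ i ∈ range (2 * m), (X (f i) + X (f (i + 1))) < 2 * (2 * m) := by
        calc ∑ i ∈ range (2 * m), (X (f i) + X (f (i + 1))) < ∑ _i ∈ range (2 * m), 2 := by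
              refine Finset.sum_lt_sum (fun i hi => h i (by simpa using hi)) ⟨i, by simpa using hi, ?_⟩
              have := h i hi
              omega
          _ = 2 * (2 * m) := by simp; ring
      omega
    have hclo : X (f (2 * m)) + X (f 0) = 2 := by omega
    have hind : ∀ i, i ≤ 2 * m → (i % 2 = 0 → X (f i) = X (f 0)) ∧
        (i % 2 = 1 → X (f i) + X (f 0) = 2) := by
      intro i
      induction i with
      | zero => intro _; simp
      | succ i ih =>
        intro hi
        have h1 := ih (by omega)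
        have h2 := htight i (by omega)
        constructor
        · intro hpar
          have := h1.2 (by omega)
          omega
        · intro hpar
          have := h1.1 (by omega)
          omega
    have h3 := (hind (2 * m) le_rfl).1 (by omega)
    have h4 : X (f 0) = 1 := by omega
    intro i hi
    have h5 := hind i hi
    rcases Nat.mod_two_eq_zero_or_one i with h6 | h6
    · rw [h5.1 h6, h4]
    · have := h5.2 h6
      omega


/-! ### The theta configuration -/

section theta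

variable {p q s : ℕ} {a e y : ℕ → V}

/-- four times the violating point, as a natural number valued function -/
def thN (p q s : ℕ) (a e y : ℕ → V) (v : V) : ℕ :=
  pf (2 * p) a (fun i => if i % 2 = 1 then 3 else 1) v +
    pf (2 * q + 1) e (fun j => if j = 0 then 1 else 2) v +
    pf (2 * s) y (fun i => if i % 2 = 1 then 3 else 1) v

def thX1 (p q s : ℕ) (a e y : ℕ → V) (v : V) : ℕ :=
  pf (2 * p) a (fun _ => 1) v + pf (2 * q + 1) e (fun _ => 1) v +
    pf (2 * s) y (fun i => if i % 2 = 1 then 2 else 0) v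

def thX2 (p q s : ℕ) (a e y : ℕ → V) (v : V) : ℕ :=
  pf (2 * p) a (fun i => if i % 2 = 1 then 2 else 0) v + pf (2 * q + 1) e (fun _ => 1) v +
    pf (2 * s) y (fun _ => 1) v

def thCol (p q s : ℕ) (a e y : ℕ → V) (v : V) : ℕ :=
  pf (2 * p) a (fun i => i % 2) v + pf (2 * q + 1) e (fun j => j % 2) v +
    pf (2 * s) y (fun i => i % 2) v

omit [Fintype V] in
theorem th_a (h : ThetaCfg G p q s a e y) {M : Type} [AddCommMonoid M] (ga ge gy : ℕ → M) {i : ℕ}
    (hi : i ≤ 2 * p) :
    pf (2 * p) a ga (a i) + pf (2 * q + 1) e ge (a i) + pf (2 * s) y gy (a i) = ga i := by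
  rw [pf_self ga h.pa.inj hi, pf_zero ge (fun j hj => (h.ae i hi j hj).1),
    pf_zero gy (fun j hj => (h.ay i hi j hj).1), add_zero, add_zero]

omit [Fintype V] in
theorem th_e (h : ThetaCfg G p q s a e y) {M : Type} [AddCommMonoid M] (ga ge gy : ℕ → M) {j : ℕ}
    (hj : j ≤ 2 * q + 1) :
    pf (2 * p) a ga (e j) + pf (2 * q + 1) e ge (e j) + pf (2 * s) y gy (e j) = ge j := by
  rw [pf_self ge h.pe.inj hj, pf_zero ga (fun i hi => (h.ae i hi j hj).1.symm),
    pf_zero gy (fun i hi => (h.ye i hi j hj).1.symm), add_zero, zero_add]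

omit [Fintype V] in
theorem th_y (h : ThetaCfg G p q s a e y) {M : Type} [AddCommMonoid M] (ga ge gy : ℕ → M) {i : ℕ}
    (hi : i ≤ 2 * s) :
    pf (2 * p) a ga (y i) + pf (2 * q + 1) e ge (y i) + pf (2 * s) y gy (y i) = gy i := by
  rw [pf_self gy h.py.inj hi, pf_zero ga (fun j hj => (h.ay j hj i hi).1.symm),
    pf_zero ge (fun j hj => (h.ye i hi j hj).1), zero_add, zero_add]

omit [Fintype V] [DecidableEq V] in
theorem th_cases (p q s : ℕ) (a e y : ℕ → V) (v : V) :
    (∃ i ≤ 2 * p, v = a i) ∨ (∃ j ≤ 2 * q + 1, v = e j) ∨ (∃ i ≤ 2 * s, v = y i) ∨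
      ((∀ i ≤ 2 * p, v ≠ a i) ∧ (∀ j ≤ 2 * q + 1, v ≠ e j) ∧ (∀ i ≤ 2 * s, v ≠ y i)) := by
  by_cases h1 : ∃ i ≤ 2 * p, v = a i
  · exact Or.inl h1
  by_cases h2 : ∃ j ≤ 2 * q + 1, v = e j
  · exact Or.inr (Or.inl h2)
  by_cases h3 : ∃ i ≤ 2 * s, v = y i
  · exact Or.inr (Or.inr (Or.inl h3))
  right; right; right
  push Not at h1 h2 h3
  exact ⟨h1, h2, h3⟩

omit [Fintype V] in
theorem th_none {M : Type} [AddCommMonoid M] (ga ge gy : ℕ → M) {v : V}
    (h : (∀ i ≤ 2 * p, v ≠ a i) ∧ (∀ j ≤ 2 * q + 1, v ≠ e j) ∧ (∀ i ≤ 2 * s, v ≠ y i)) :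
    pf (2 * p) a ga v + pf (2 * q + 1) e ge v + pf (2 * s) y gy v = 0 := by
  rw [pf_zero ga h.1, pf_zero ge h.2.1, pf_zero gy h.2.2, add_zero, add_zero]

omit [Fintype V] in
/-- the identity `4 x + 1_{e 0} = X1 + X2` -/
theorem th_id (h : ThetaCfg G p q s a e y) (v : V) :
    thN p q s a e y v + (if v = e 0 then 1 else 0) = thX1 p q s a e y v + thX2 p q s a e y v := by
  unfold thN thX1 thX2
  rcases th_cases p q s a e y v with ⟨i, hi, rfl⟩ | ⟨j, hj, rfl⟩ | ⟨i, hi, rfl⟩ | hn
  · rw [th_a h _ _ _ hi, th_a h _ _ _ hi, th_a h _ _ _ hi,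
      if_neg (h.ae i hi 0 (by omega)).1]
    split_ifs <;> rfl
  · rw [th_e h _ _ _ hj, th_e h _ _ _ hj, th_e h _ _ _ hj]
    by_cases hj0 : j = 0
    · subst hj0; simp
    · rw [if_neg hj0, if_neg (fun hc => hj0 (h.pe.inj j hj 0 (by omega) hc))]
  · rw [th_y h _ _ _ hi, th_y h _ _ _ hi, th_y h _ _ _ hi,
      if_neg (h.ye i hi 0 (by omega)).1]
    split_ifs <;> rfl
  · rw [th_none _ _ _ hn, th_none _ _ _ hn, th_none _ _ _ hn, if_neg (hn.2.1 0 (by omega))]

omit [Fintype V] [DecidableEq V] in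
/-- the theta configuration with the roles of `a` and `y` exchanged -/
theorem ThetaCfg.swap (h : ThetaCfg G p q s a e y) : ThetaCfg G s q p y e a where
  pa := h.py
  pe := h.pe
  py := h.pa
  ae := h.ye
  ye := h.ae
  ay := fun i hi j hj => ⟨(h.ay j hj i hi).1.symm, by
    rw [G.adj_comm, (h.ay j hj i hi).2]
    constructor
    · rintro (⟨h1, h2⟩ | ⟨h1, h2⟩)
      · exact Or.inl ⟨h2, h1⟩
      · exact Or.inr ⟨h2, h1⟩
    · rintro (⟨h1, h2⟩ | ⟨h1, h2⟩)
      · exact Or.inl ⟨h2, h1⟩
      · exact Or.inr ⟨h2, h1⟩⟩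

omit [Fintype V] in
theorem thX_swap (v : V) : thX2 p q s a e y v = thX1 s q p y e a v := by
  unfold thX1 thX2
  ring

omit [Fintype V] in
/-- the edge inequality for `X1`, when `u` is an odd vertex of the path `y` -/
theorem thX1_edge_y (h : ThetaCfg G p q s a e y) {i : ℕ} (hi : i ≤ 2 * s) {v : V}
    (hadj : G.Adj (y i) v) : thX1 p q s a e y (y i) + thX1 p q s a e y v ≤ 2 := by
  unfold thX1
  rw [th_y h _ _ _ hi]
  rcases th_cases p q s a e y v with ⟨j, hj, rfl⟩ | ⟨j, hj, rfl⟩ | ⟨j, hj, rfl⟩ | hn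
  · rw [th_a h _ _ _ hj]
    have := (h.ay j hj i hi).2.1 hadj.symm
    rw [if_neg (by omega)]
    omega
  · rw [th_e h _ _ _ hj]
    have := (h.ye i hi j hj).2.1 hadj
    rw [if_neg (by omega)]
    omega
  · rw [th_y h _ _ _ hj]
    rcases lt_trichotomy i j with hlt | heq | hgt
    · have := (h.py.adj i j hlt hj).1 hadj
      split_ifs <;> omega
    · subst heq
      exact absurd hadj (G.irrefl)
    · have := (h.py.adj j i hgt hi).1 hadj.symm
      split_ifs <;> omega
  · rw [th_none _ _ _ hn]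
    split_ifs <;> omega

omit [Fintype V] in
theorem thX1_edge (h : ThetaCfg G p q s a e y) {u v : V} (hadj : G.Adj u v) :
    thX1 p q s a e y u + thX1 p q s a e y v ≤ 2 := by
  by_cases hu : ∃ i ≤ 2 * s, u = y i
  · obtain ⟨i, hi, rfl⟩ := hu
    exact thX1_edge_y h hi hadj
  by_cases hv : ∃ i ≤ 2 * s, v = y i
  · obtain ⟨i, hi, rfl⟩ := hv
    rw [add_comm]
    exact thX1_edge_y h hi hadj.symm
  have key : ∀ w, (¬ ∃ i ≤ 2 * s, w = y i) → thX1 p q s a e y w ≤ 1 := by
    intro w hw
    unfold thX1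
    rcases th_cases p q s a e y w with ⟨j, hj, rfl⟩ | ⟨j, hj, rfl⟩ | ⟨j, hj, rfl⟩ | hn
    · rw [th_a h _ _ _ hj]
    · rw [th_e h _ _ _ hj]
    · exact absurd ⟨j, hj, rfl⟩ hw
    · rw [th_none _ _ _ hn]; omega
  have := key u hu
  have := key v hv
  omega

omit [Fintype V] in
theorem thX2_edge (h : ThetaCfg G p q s a e y) {u v : V} (hadj : G.Adj u v) :
    thX2 p q s a e y u + thX2 p q s a e y v ≤ 2 := by
  rw [thX_swap, thX_swap]
  exact thX1_edge h.swap hadj

omit [Fintype V] in
/-- `X1 v = 1` only on `a` and `e` -/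
theorem thX1_one (h : ThetaCfg G p q s a e y) {v : V} (hv : thX1 p q s a e y v = 1) :
    (∃ i ≤ 2 * p, v = a i) ∨ (∃ j ≤ 2 * q + 1, v = e j) := by
  rcases th_cases p q s a e y v with h1 | h1 | ⟨i, hi, rfl⟩ | hn
  · exact Or.inl h1
  · exact Or.inr h1
  · unfold thX1 at hv
    rw [th_y h _ _ _ hi] at hv
    split_ifs at hv
    omega
  · unfold thX1 at hv
    rw [th_none _ _ _ hn] at hv
    omega

omit [Fintype V] in
/-- two-colouring of `(a ∪ e) \ {e 0}` -/
theorem thCol_edge (h : ThetaCfg G p q s a e y) {u v : V} (hadj : G.Adj u v)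
    (hu : (∃ i ≤ 2 * p, u = a i) ∨ (∃ j ≤ 2 * q + 1, u = e j))
    (hv : (∃ i ≤ 2 * p, v = a i) ∨ (∃ j ≤ 2 * q + 1, v = e j)) (hu0 : u ≠ e 0) (hv0 : v ≠ e 0) :
    thCol p q s a e y u + thCol p q s a e y v = 1 := by
  unfold thCol
  rcases hu with ⟨i, hi, rfl⟩ | ⟨i, hi, rfl⟩ <;>
    rcases hv with ⟨j, hj, rfl⟩ | ⟨j, hj, rfl⟩
  · rw [th_a h _ _ _ hi, th_a h _ _ _ hj]
    rcases lt_trichotomy i j with hlt | heq | hgt
    · have := (h.pa.adj i j hlt hj).1 hadj
      omega
    · subst heq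
      exact absurd hadj (G.irrefl)
    · have := (h.pa.adj j i hgt hi).1 hadj.symm
      omega
  · rw [th_a h _ _ _ hi, th_e h _ _ _ hj]
    rcases (h.ae i hi j hj).2.1 hadj with ⟨h1, h2⟩ | ⟨h1, h2⟩
    · subst h2; exact absurd rfl hv0
    · omega
  · rw [th_e h _ _ _ hi, th_a h _ _ _ hj]
    rcases (h.ae j hj i hi).2.1 hadj.symm with ⟨h1, h2⟩ | ⟨h1, h2⟩
    · subst h2; exact absurd rfl hu0
    · omega
  · rw [th_e h _ _ _ hi, th_e h _ _ _ hj]
    rcases lt_trichotomy i j with hlt | heq | hgt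
    · have := (h.pe.adj i j hlt hj).1 hadj
      omega
    · subst heq
      exact absurd hadj (G.irrefl)
    · have := (h.pe.adj j i hgt hi).1 hadj.symm
      omega

omit [Fintype V] in
/-- an odd cycle inside `a ∪ e` meets `e 0` -/
theorem th_meets (h : ThetaCfg G p q s a e y) {m : ℕ} {f : ℕ → V} (hf : OddCyc G m f)
    (hin : ∀ i ≤ 2 * m, (∃ k ≤ 2 * p, f i = a k) ∨ (∃ j ≤ 2 * q + 1, f i = e j)) :
    ∃ i ≤ 2 * m, f i = e 0 := by
  by_contra hcon
  push Not at hcon
  exact cyc_parity (thCol p q s a e y)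
    (fun i hi => thCol_edge h (hf.adj i hi) (hin i (by omega)) (hin (i + 1) (by omega))
      (hcon i (by omega)) (hcon (i + 1) (by omega)))
    (thCol_edge h hf.clo (hin _ le_rfl) (hin 0 (by omega)) (hcon _ le_rfl) (hcon 0 (by omega)))

omit [Fintype V] in
/-- no odd cycle inside `e` -/
theorem th_not_e (h : ThetaCfg G p q s a e y) {m : ℕ} {f : ℕ → V} (hf : OddCyc G m f)
    (hin : ∀ i ≤ 2 * m, ∃ j ≤ 2 * q + 1, f i = e j) : False := by
  have key : ∀ u v, G.Adj u v → (∃ j ≤ 2 * q + 1, u = e j) → (∃ j ≤ 2 * q + 1, v = e j) →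
      thCol p q s a e y u + thCol p q s a e y v = 1 := by
    rintro u v hadj ⟨i, hi, rfl⟩ ⟨j, hj, rfl⟩
    unfold thCol
    rw [th_e h _ _ _ hi, th_e h _ _ _ hj]
    rcases lt_trichotomy i j with hlt | heq | hgt
    · have := (h.pe.adj i j hlt hj).1 hadj
      omega
    · subst heq
      exact absurd hadj (G.irrefl)
    · have := (h.pe.adj j i hgt hi).1 hadj.symm
      omega
  exact cyc_parity (thCol p q s a e y)
    (fun i hi => key _ _ (hf.adj i hi) (hin i (by omega)) (hin (i + 1) (by omega)))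
    (key _ _ hf.clo (hin _ le_rfl) (hin 0 (by omega)))

omit [Fintype V] in
/-- the odd cycle inequality -/
theorem thN_cyc (h : ThetaCfg G p q s a e y) {m : ℕ} {f : ℕ → V} (hf : OddCyc G m f) :
    ∑ i ∈ range (2 * m + 1), thN p q s a e y (f i) ≤ 4 * m := by
  have hid : ∑ i ∈ range (2 * m + 1), thN p q s a e y (f i) +
      (∑ i ∈ range (2 * m + 1), if f i = e 0 then 1 else 0) =
      ∑ i ∈ range (2 * m + 1), thX1 p q s a e y (f i) +
      ∑ i ∈ range (2 * m + 1), thX2 p q s a e y (f i) := by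
    rw [← Finset.sum_add_distrib, ← Finset.sum_add_distrib]
    exact Finset.sum_congr rfl fun i _ => th_id h (f i)
  have hcnt : (∃ i ≤ 2 * m, f i = e 0) →
      1 ≤ (∑ i ∈ range (2 * m + 1), if f i = e 0 then 1 else 0) := by
    rintro ⟨i, hi, hie⟩
    calc 1 = (if f i = e 0 then 1 else 0) := by rw [if_pos hie]
      _ ≤ _ := Finset.single_le_sum (f := fun i => if f i = e 0 then 1 else 0)
          (fun _ _ => Nat.zero_le _) (by simpa [Nat.lt_succ_iff] using hi)
  have c1 := cyc_half (m := m) (f := f) (thX1 p q s a e y)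
    (fun i hi => thX1_edge h (hf.adj i hi)) (thX1_edge h hf.clo)
  have c2 := cyc_half (m := m) (f := f) (thX2 p q s a e y)
    (fun i hi => thX2_edge h (hf.adj i hi)) (thX2_edge h hf.clo)
  rcases c1 with c1 | ⟨c1, c1'⟩ <;> rcases c2 with c2 | ⟨c2, c2'⟩
  · omega
  · have hmeet : ∃ i ≤ 2 * m, f i = e 0 :=
      th_meets h.swap hf (fun i hi => thX1_one h.swap (by rw [← thX_swap]; exact c2' i hi))
    have := hcnt hmeet
    omega
  · have hmeet : ∃ i ≤ 2 * m, f i = e 0 :=
      th_meets h hf (fun i hi => thX1_one h (c1' i hi))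
    have := hcnt hmeet
    omega
  · exfalso
    refine th_not_e h hf (fun i hi => ?_)
    rcases thX1_one h (c1' i hi) with ⟨k, hk, hk'⟩ | h1
    · rcases thX1_one h.swap (by rw [← thX_swap]; exact c2' i hi) with ⟨l, hl, hl'⟩ | h2
      · exact absurd (hk'.symm.trans hl') (h.ay k hk l hl).1
      · exact h2
    · exact h1

omit [Fintype V] in
theorem thN_sum (K : Finset V) : ∑ v ∈ K, thN p q s a e y v =
    (∑ i ∈ range (2 * p + 1), if a i ∈ K then (if i % 2 = 1 then 3 else 1) else 0) +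
    (∑ j ∈ range (2 * q + 1 + 1), if e j ∈ K then (if j = 0 then 1 else 2) else 0) +
    (∑ i ∈ range (2 * s + 1), if y i ∈ K then (if i % 2 = 1 then 3 else 1) else 0) := by
  unfold thN
  rw [Finset.sum_add_distrib, Finset.sum_add_distrib, pf_sum, pf_sum, pf_sum]

omit [Fintype V] in
/-- the clique inequality when the clique contains an odd vertex of `a` -/
theorem thN_clique_odd (h : ThetaCfg G p q s a e y) {K : Finset V}
    (hK : G.IsClique (K : Set V)) {i : ℕ} (hi : i ≤ 2 * p) (hodd : i % 2 = 1) (hiK : a i ∈ K) :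
    ∑ v ∈ K, thN p q s a e y v ≤ 4 := by
  rw [thN_sum]
  have h1 : (∑ i ∈ range (2 * p + 1), if a i ∈ K then (if i % 2 = 1 then 3 else 1) else 0) ≤ 4 := by
    refine clique_path h.pa hK _ 4 (fun j _ _ => ?_) (fun j _ _ _ => ?_)
    · split_ifs <;> omega
    · split_ifs <;> omega
  have h2 : (∑ j ∈ range (2 * q + 1 + 1), if e j ∈ K then (if j = 0 then 1 else 2) else 0) = 0 := by
    refine Finset.sum_eq_zero fun j hj => ?_
    rw [if_neg]
    intro hjK
    have hj' : j ≤ 2 * q + 1 := by simpa [Nat.lt_succ_iff] using hj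
    have hadj : G.Adj (a i) (e j) :=
      hK (by exact_mod_cast hiK) (by exact_mod_cast hjK) (h.ae i hi j hj').1
    have := (h.ae i hi j hj').2.1 hadj
    omega
  have h3 : (∑ i ∈ range (2 * s + 1), if y i ∈ K then (if i % 2 = 1 then 3 else 1) else 0) = 0 := by
    refine Finset.sum_eq_zero fun j hj => ?_
    rw [if_neg]
    intro hjK
    have hj' : j ≤ 2 * s := by simpa [Nat.lt_succ_iff] using hj
    have hadj : G.Adj (a i) (y j) :=
      hK (by exact_mod_cast hiK) (by exact_mod_cast hjK) (h.ay i hi j hj').1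
    have := (h.ay i hi j hj').2.1 hadj
    omega
  omega

omit [Fintype V] in
theorem thN_swap (v : V) : thN p q s a e y v = thN s q p y e a v := by
  unfold thN
  ring

omit [Fintype V] in
theorem thN_clique (h : ThetaCfg G p q s a e y) (hne : ¬ (p = 0 ∧ q = 0 ∧ s = 0)) {K : Finset V}
    (hK : G.IsClique (K : Set V)) : ∑ v ∈ K, thN p q s a e y v ≤ 4 := by
  by_cases ha : ∃ i ≤ 2 * p, i % 2 = 1 ∧ a i ∈ K
  · obtain ⟨i, hi, hodd, hiK⟩ := ha
    exact thN_clique_odd h hK hi hodd hiK
  by_cases hy : ∃ i ≤ 2 * s, i % 2 = 1 ∧ y i ∈ K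
  · obtain ⟨i, hi, hodd, hiK⟩ := hy
    rw [Finset.sum_congr rfl (fun v _ => thN_swap v)]
    exact thN_clique_odd h.swap hK hi hodd hiK
  push Not at ha hy
  rw [thN_sum]
  -- the contribution of `a` and `y` is at most one
  have h1 : (∑ i ∈ range (2 * p + 1), if a i ∈ K then (if i % 2 = 1 then 3 else 1) else 0) ≤ 1 := by
    refine clique_path h.pa hK _ 1 (fun j hj hjK => ?_) (fun j hj hjK hjK' => ?_)
    · rw [if_neg (fun hc => ha j hj hc hjK)]
    · exfalso
      rcases Nat.mod_two_eq_zero_or_one j with h6 | h6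
      · exact ha (j + 1) hj (by omega) hjK'
      · exact ha j (by omega) h6 hjK
  have h3 : (∑ i ∈ range (2 * s + 1), if y i ∈ K then (if i % 2 = 1 then 3 else 1) else 0) ≤ 1 := by
    refine clique_path h.py hK _ 1 (fun j hj hjK => ?_) (fun j hj hjK hjK' => ?_)
    · rw [if_neg (fun hc => hy j hj hc hjK)]
    · exfalso
      rcases Nat.mod_two_eq_zero_or_one j with h6 | h6
      · exact hy (j + 1) hj (by omega) hjK'
      · exact hy j (by omega) h6 hjK
  by_cases hcons : ∃ j, j + 1 ≤ 2 * q + 1 ∧ e j ∈ K ∧ e (j + 1) ∈ K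
  · obtain ⟨j, hj, hjK, hjK'⟩ := hcons
    have h2 : (∑ j ∈ range (2 * q + 1 + 1), if e j ∈ K then (if j = 0 then 1 else 2) else 0) ≤ 4 := by
      refine clique_path h.pe hK _ 4 (fun j _ _ => ?_) (fun j _ _ _ => ?_)
      · split_ifs <;> omega
      · split_ifs <;> omega
    -- a vertex of `a` in `K` forces `p = q = 0`
    have hpa : (∃ i ≤ 2 * p, a i ∈ K) → p = 0 ∧ q = 0 := by
      rintro ⟨i, hi, hiK⟩
      have e1 := (h.ae i hi j (by omega)).2.1
        (hK (by exact_mod_cast hiK) (by exact_mod_cast hjK) (h.ae i hi j (by omega)).1)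
      have e2 := (h.ae i hi (j + 1) hj).2.1
        (hK (by exact_mod_cast hiK) (by exact_mod_cast hjK') (h.ae i hi (j + 1) hj).1)
      omega
    have hpy : (∃ i ≤ 2 * s, y i ∈ K) → s = 0 ∧ q = 0 := by
      rintro ⟨i, hi, hiK⟩
      have e1 := (h.ye i hi j (by omega)).2.1
        (hK (by exact_mod_cast hiK) (by exact_mod_cast hjK) (h.ye i hi j (by omega)).1)
      have e2 := (h.ye i hi (j + 1) hj).2.1
        (hK (by exact_mod_cast hiK) (by exact_mod_cast hjK') (h.ye i hi (j + 1) hj).1)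
      omega
    have hzero_a : (¬ ∃ i ≤ 2 * p, a i ∈ K) →
        (∑ i ∈ range (2 * p + 1), if a i ∈ K then (if i % 2 = 1 then 3 else 1) else 0) = 0 := by
      intro hn
      push Not at hn
      refine Finset.sum_eq_zero fun i hi => ?_
      rw [if_neg (hn i (by simpa [Nat.lt_succ_iff] using hi))]
    have hzero_y : (¬ ∃ i ≤ 2 * s, y i ∈ K) →
        (∑ i ∈ range (2 * s + 1), if y i ∈ K then (if i % 2 = 1 then 3 else 1) else 0) = 0 := by
      intro hn
      push Not at hn
      refine Finset.sum_eq_zero fun i hi => ?_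
      rw [if_neg (hn i (by simpa [Nat.lt_succ_iff] using hi))]
    have hq0 : q = 0 →
        (∑ j ∈ range (2 * q + 1 + 1), if e j ∈ K then (if j = 0 then 1 else 2) else 0) ≤ 3 := by
      intro hq
      subst hq
      rw [show 2 * 0 + 1 + 1 = 2 from rfl, Finset.sum_range_succ, Finset.sum_range_succ,
        Finset.sum_range_zero]
      split_ifs <;> omega
    by_cases hA : ∃ i ≤ 2 * p, a i ∈ K
    · have hpq := hpa hA
      have hY : ¬ ∃ i ≤ 2 * s, y i ∈ K := fun hY => hne ⟨hpq.1, hpq.2, (hpy hY).1⟩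
      have := hzero_y hY
      have := hq0 hpq.2
      omega
    · have := hzero_a hA
      by_cases hY : ∃ i ≤ 2 * s, y i ∈ K
      · have := hq0 (hpy hY).2
        omega
      · have := hzero_y hY
        omega
  · push Not at hcons
    have h2 : (∑ j ∈ range (2 * q + 1 + 1), if e j ∈ K then (if j = 0 then 1 else 2) else 0) ≤ 2 := by
      refine clique_path h.pe hK _ 2 (fun j _ _ => ?_) (fun j hj hjK hjK' => ?_)
      · split_ifs <;> omega
      · exact absurd hjK' (hcons j hj hjK)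
    omega

omit [Fintype V] [DecidableEq V] in
/-- a stable set on a path -/
theorem path_half (n : ℕ) (X : ℕ → ℕ) (h : ∀ i < n, X i + X (i + 1) ≤ 1) :
    2 * ∑ i ∈ range (n + 1), X i ≤ n + (X n + X 0) := by
  rw [cyc_double]
  have : ∑ i ∈ range n, (X i + X (i + 1)) ≤ n := by
    calc ∑ i ∈ range n, (X i + X (i + 1)) ≤ ∑ _i ∈ range n, 1 :=
          Finset.sum_le_sum fun i hi => h i (by simpa using hi)
      _ = n := by simp
  omega

/-- the objective -/
def thC (p q s : ℕ) (a e y : ℕ → V) (v : V) : ℕ :=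
  pf (2 * p) a (fun _ => 1) v + pf (2 * q + 1) e (fun _ => 1) v + pf (2 * s) y (fun _ => 1) v

theorem pair_le {P Q : Prop} [Decidable P] [Decidable Q] (h : P → Q → False) :
    (if P then 1 else 0) + (if Q then 1 else 0) ≤ 1 := by
  by_cases hP : P
  · rw [if_pos hP, if_neg (h hP)]
  · rw [if_neg hP]
    split_ifs <;> omega

omit [Fintype V] in
theorem thC_stable (h : ThetaCfg G p q s a e y) {S : Finset V} (hS : G.IsIndepSet (S : Set V)) :
    ∑ v ∈ S, thC p q s a e y v ≤ p + q + s + 1 := by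
  have hno : ∀ u v, G.Adj u v → u ∈ S → v ∈ S → False := fun u v huv hu hv =>
    hS (by exact_mod_cast hu) (by exact_mod_cast hv) huv.ne huv
  have hedge : ∀ u v, G.Adj u v → (if u ∈ S then 1 else 0) + (if v ∈ S then 1 else 0) ≤ 1 :=
    fun u v huv => pair_le (hno u v huv)
  unfold thC
  rw [Finset.sum_add_distrib, Finset.sum_add_distrib, pf_sum, pf_sum, pf_sum]
  have h1 := path_half (2 * p) (fun i => if a i ∈ S then 1 else 0)
    (fun i hi => hedge _ _ ((h.pa.adj i (i + 1) (by omega) (by omega)).2 rfl))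
  have h2 := path_half (2 * q + 1) (fun i => if e i ∈ S then 1 else 0)
    (fun i hi => hedge _ _ ((h.pe.adj i (i + 1) (by omega) (by omega)).2 rfl))
  have h3 := path_half (2 * s) (fun i => if y i ∈ S then 1 else 0)
    (fun i hi => hedge _ _ ((h.py.adj i (i + 1) (by omega) (by omega)).2 rfl))
  have a1 := hedge _ _ ((h.ae 0 (by omega) 0 (by omega)).2.2 (Or.inl ⟨rfl, rfl⟩))
  have a2 := hedge _ _ ((h.ye 0 (by omega) 0 (by omega)).2.2 (Or.inl ⟨rfl, rfl⟩))
  have a3 := hedge _ _ ((h.ay 0 (by omega) 0 (by omega)).2.2 (Or.inl ⟨rfl, rfl⟩))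
  have b1 := hedge _ _ ((h.ae (2 * p) le_rfl (2 * q + 1) le_rfl).2.2 (Or.inr ⟨rfl, rfl⟩))
  have b2 := hedge _ _ ((h.ye (2 * s) le_rfl (2 * q + 1) le_rfl).2.2 (Or.inr ⟨rfl, rfl⟩))
  have b3 := hedge _ _ ((h.ay (2 * p) le_rfl (2 * s) le_rfl).2.2 (Or.inr ⟨rfl, rfl⟩))
  omega

omit [Fintype V] in
theorem thC_mul (h : ThetaCfg G p q s a e y) (v : V) :
    thC p q s a e y v * thN p q s a e y v = thN p q s a e y v := by
  unfold thN thC
  rcases th_cases p q s a e y v with ⟨i, hi, rfl⟩ | ⟨j, hj, rfl⟩ | ⟨i, hi, rfl⟩ | hn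
  · rw [th_a h _ _ _ hi, th_a h _ _ _ hi, one_mul]
  · rw [th_e h _ _ _ hj, th_e h _ _ _ hj, one_mul]
  · rw [th_y h _ _ _ hi, th_y h _ _ _ hi, one_mul]
  · rw [th_none _ _ _ hn, th_none _ _ _ hn, mul_zero]

theorem sum_odd_even (p : ℕ) :
    ∑ i ∈ range (2 * p + 1), (if i % 2 = 1 then 3 else 1) = 4 * p + 1 := by
  induction p with
  | zero => simp
  | succ p ih =>
    rw [show 2 * (p + 1) + 1 = 2 * p + 1 + 1 + 1 by ring, Finset.sum_range_succ,
      Finset.sum_range_succ, ih, if_pos (by omega), if_neg (by omega)]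
    ring

theorem sum_e (q : ℕ) :
    ∑ j ∈ range (2 * q + 1 + 1), (if j = 0 then 1 else 2) = 4 * q + 3 := by
  rw [Finset.sum_range_succ']
  simp
  ring

theorem thN_total (p q s : ℕ) (a e y : ℕ → V) :
    ∑ v, thN p q s a e y v = 4 * (p + q + s) + 5 := by
  rw [thN_sum]
  simp only [Finset.mem_univ, if_true]
  rw [sum_odd_even, sum_odd_even, sum_e]
  ring

end theta

/-- Point `x = (x1+x2)/2 - (1/4) 1_{e 0}`: `x1 = 1/2` on all `a`, `e`, `1` on `y i` (i odd), `0` else;
`x2 = 1/2` on all `y`, `e`, `1` on `a i` (i odd), `0` else.  Objective `c = 1` on all three paths: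
`c.x = p+q+s+5/4` but a stable set has at most `p+q+s+1` of these vertices (add the bounds
`p+q+1`, `s+q+1`, `p+s+1` for the cycles ae, ye, ay and halve). -/
theorem theta_false (hP : HP G) {p q s : ℕ} {a e y : ℕ → V} (h : ThetaCfg G p q s a e y)
    (hne : ¬ (p = 0 ∧ q = 0 ∧ s = 0)) : False := by
  have hpoly : HPoly G (fun v => (thN p q s a e y v : ℝ) / 4) := by
    refine ⟨fun v => by positivity, fun K hK => ?_, fun m f hf => ?_⟩
    · rw [← Finset.sum_div, ← Nat.cast_sum]
      have := thN_clique h hne hK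
      have h4 : ((∑ v ∈ K, thN p q s a e y v : ℕ) : ℝ) ≤ 4 := by exact_mod_cast this
      rw [div_le_one (by norm_num)]
      exact h4
    · rw [← Finset.sum_div, ← Nat.cast_sum]
      have := thN_cyc h hf
      have h4 : ((∑ i ∈ range (2 * m + 1), thN p q s a e y (f i) : ℕ) : ℝ) ≤ 4 * m := by
        exact_mod_cast this
      rw [div_le_iff₀ (by norm_num)]
      linarith
  obtain ⟨S, hS, hle⟩ := hP _ hpoly (fun v => (thC p q s a e y v : ℝ))
  have h1 : ∑ v, (thC p q s a e y v : ℝ) * ((thN p q s a e y v : ℝ) / 4) =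
      (4 * (p + q + s) + 5) / 4 := by
    rw [show (4 * ((p : ℝ) + q + s) + 5) / 4 = ((4 * (p + q + s) + 5 : ℕ) : ℝ) / 4 by push_cast; ring,
      ← thN_total p q s a e y, Nat.cast_sum, Finset.sum_div]
    refine Finset.sum_congr rfl fun v _ => ?_
    rw [← mul_div_assoc, ← Nat.cast_mul, thC_mul h v]
  have h2 : ∑ v ∈ S, (thC p q s a e y v : ℝ) ≤ p + q + s + 1 := by
    have := thC_stable h hS
    exact_mod_cast this
  rw [h1] at hle
  linarith

/-- 5-wheel: `x = 1/3` on the six vertices, `c = 1` on the rim, `2` on the hub. -/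
theorem wheel_false (hP : HP G) {f : ℕ → V} {y : V} (hf : Hole G 2 f)
    (hy : ∀ j ≤ 4, y ≠ f j) (ha : ∀ j ≤ 4, G.Adj y (f j)) : False := by
  have hinj := hf.inj
  have hval : ∀ v, pf 4 f (fun _ => 1) v + (if v = y then 1 else 0) ≤ 1 := by
    intro v
    by_cases hv : v = y
    · subst hv
      rw [pf_zero _ hy, if_pos rfl]
    · rw [if_neg hv, add_zero]
      by_cases hv' : ∃ i ≤ 4, v = f i
      · obtain ⟨i, hi, rfl⟩ := hv'
        rw [pf_self _ hinj hi]
      · push Not at hv'
        rw [pf_zero _ hv']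
        omega
  have hpath : ∀ K : Finset V, G.IsClique (K : Set V) →
      ∑ v ∈ K, (pf 4 f (fun _ => 1) v + (if v = y then 1 else 0)) ≤ 3 := by
    intro K hK
    rw [Finset.sum_add_distrib, pf_sum, Finset.sum_ite_eq']
    have hno : ∀ i j, i < j → j ≤ 4 → f i ∈ K → f j ∈ K → j = i + 1 ∨ (i = 0 ∧ j = 4) := by
      intro i j hij hj hiK hjK
      have hne : f i ≠ f j := fun hc => by
        have := hinj i (by omega) j (by omega) hc
        omega
      exact hf.ind i j hij (by omega)
        (hK (by exact_mod_cast hiK) (by exact_mod_cast hjK) hne)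
    have hp : ∀ i j, i < j → j ≤ 4 → ¬ (j = i + 1 ∨ (i = 0 ∧ j = 4)) →
        (if f i ∈ K then 1 else 0) + (if f j ∈ K then 1 else 0) ≤ 1 :=
      fun i j hij hj hn => pair_le (fun h1 h2 => hn (hno i j hij hj h1 h2))
    have e1 := hp 0 2 (by omega) (by omega) (by omega)
    have e2 := hp 0 3 (by omega) (by omega) (by omega)
    have e3 := hp 1 3 (by omega) (by omega) (by omega)
    have e4 := hp 1 4 (by omega) (by omega) (by omega)
    have e5 := hp 2 4 (by omega) (by omega) (by omega)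
    have h2 : ∑ i ∈ range (4 + 1), (if f i ∈ K then 1 else 0) ≤ 2 := by
      rw [Finset.sum_range_succ, Finset.sum_range_succ, Finset.sum_range_succ,
        Finset.sum_range_succ, Finset.sum_range_succ, Finset.sum_range_zero]
      omega
    split_ifs <;> omega
  have hpoly : HPoly G (fun v => ((pf 4 f (fun _ => 1) v + (if v = y then 1 else 0) : ℕ) : ℝ) / 3) := by
    refine ⟨fun v => by positivity, fun K hK => ?_, fun m g hg => ?_⟩
    · rw [← Finset.sum_div, ← Nat.cast_sum]
      have := hpath K hK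
      have h4 : ((∑ v ∈ K, (pf 4 f (fun _ => 1) v + (if v = y then 1 else 0)) : ℕ) : ℝ) ≤ 3 := by
        exact_mod_cast this
      rw [div_le_one (by norm_num)]
      exact h4
    · have hm : 1 ≤ m := by
        rcases Nat.eq_zero_or_pos m with hm | hm
        · subst hm
          exact absurd hg.clo (G.irrefl)
        · exact hm
      have hmR : (1 : ℝ) ≤ m := by exact_mod_cast hm
      calc ∑ i ∈ range (2 * m + 1),
            ((pf 4 f (fun _ => 1) (g i) + (if g i = y then 1 else 0) : ℕ) : ℝ) / 3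
          ≤ ∑ _i ∈ range (2 * m + 1), (1 : ℝ) / 3 := by
            refine Finset.sum_le_sum fun i _ => ?_
            have : ((pf 4 f (fun _ => 1) (g i) + (if g i = y then 1 else 0) : ℕ) : ℝ) ≤ 1 := by
              exact_mod_cast hval (g i)
            linarith
        _ = (2 * m + 1) / 3 := by
            rw [Finset.sum_const, Finset.card_range, nsmul_eq_mul]
            push_cast
            ring
        _ ≤ m := by linarith
  obtain ⟨S, hS, hle⟩ := hP _ hpoly
    (fun v => ((pf 4 f (fun _ => 1) v + (if v = y then 2 else 0) : ℕ) : ℝ))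
  have h1 : ∑ v, ((pf 4 f (fun _ => 1) v + (if v = y then 2 else 0) : ℕ) : ℝ) *
      (((pf 4 f (fun _ => 1) v + (if v = y then 1 else 0) : ℕ) : ℝ) / 3) = 7 / 3 := by
    have hmul : ∀ v, (pf 4 f (fun _ => 1) v + (if v = y then 2 else 0)) *
        (pf 4 f (fun _ => 1) v + (if v = y then 1 else 0)) =
        pf 4 f (fun _ => 1) v + (if v = y then 2 else 0) := by
      intro v
      by_cases hv : v = y
      · subst hv
        rw [pf_zero _ hy, if_pos rfl, if_pos rfl, zero_add, zero_add, mul_one]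
      · rw [if_neg hv, if_neg hv, add_zero]
        by_cases hv' : ∃ i ≤ 4, v = f i
        · obtain ⟨i, hi, rfl⟩ := hv'
          rw [pf_self _ hinj hi]
        · push Not at hv'
          rw [pf_zero _ hv', mul_zero]
    have htot : ∑ v, (pf 4 f (fun _ => 1) v + (if v = y then 2 else 0)) = 7 := by
      rw [Finset.sum_add_distrib, pf_sum, Finset.sum_ite_eq']
      simp
    rw [show (7 : ℝ) / 3 = ((7 : ℕ) : ℝ) / 3 by norm_num, ← htot, Nat.cast_sum, Finset.sum_div]
    refine Finset.sum_congr rfl fun v _ => ?_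
    rw [← mul_div_assoc, ← Nat.cast_mul, hmul v]
  have hno : ∀ u v, G.Adj u v → u ∈ S → v ∈ S → False := fun u v huv hu hv =>
    hS (by exact_mod_cast hu) (by exact_mod_cast hv) huv.ne huv
  have h2 : ∑ v ∈ S, (pf 4 f (fun _ => 1) v + (if v = y then 2 else 0)) ≤ 2 := by
    rw [Finset.sum_add_distrib, pf_sum, Finset.sum_ite_eq']
    have g0 := pair_le (hno _ _ (hf.adj 0 (by omega)))
    have g1 := pair_le (hno _ _ (hf.adj 1 (by omega)))
    have g2 := pair_le (hno _ _ (hf.adj 2 (by omega)))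
    have g3 := pair_le (hno _ _ (hf.adj 3 (by omega)))
    have g4 := pair_le (hno _ _ hf.clo)
    have y0 := hno _ _ (ha 0 (by omega))
    have y1 := hno _ _ (ha 1 (by omega))
    have y2 := hno _ _ (ha 2 (by omega))
    have y3 := hno _ _ (ha 3 (by omega))
    have y4 := hno _ _ (ha 4 (by omega))
    rw [Finset.sum_range_succ, Finset.sum_range_succ, Finset.sum_range_succ,
        Finset.sum_range_succ, Finset.sum_range_succ, Finset.sum_range_zero]
    by_cases cy : y ∈ S
    · have n0 : f 0 ∉ S := fun hc => y0 cy hc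
      have n1 : f 1 ∉ S := fun hc => y1 cy hc
      have n2 : f 2 ∉ S := fun hc => y2 cy hc
      have n3 : f 3 ∉ S := fun hc => y3 cy hc
      have n4 : f 4 ∉ S := fun hc => y4 cy hc
      simp [cy, n0, n1, n2, n3, n4]
    · rw [if_neg cy]
      rw [show 2 * 2 = 4 from rfl] at g4
      rw [show 0 + 1 = 1 from rfl] at g0
      rw [show 1 + 1 = 2 from rfl] at g1
      rw [show 2 + 1 = 3 from rfl] at g2
      rw [show 3 + 1 = 4 from rfl] at g3
      omega
  have h3 : ∑ v ∈ S, ((pf 4 f (fun _ => 1) v + (if v = y then 2 else 0) : ℕ) : ℝ) ≤ 2 := by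
    exact_mod_cast h2
  rw [h1] at hle
  linarith

end Pool.MP_72f7ea_co.Idp
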